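import Pool.Agent.MNM.Baire

/-! MNM: isolated points of closed sets of types. -/

open FirstOrder FirstOrder.Language
open scoped Pointwise
open Pool.Agent.VCM

namespace Pool.Agent.MNM.Ctx

variable {L : FirstOrder.Language.{0, 0}} {N : Type} [L.Structure N] (K : Ctx L N)

/-- Isolated points of closed sets of types over a finite tuple `c`.
Proof: `baire` with `𝒰 :=` the sets `R (ap c ·)`, `R` definable (take `n` a level containing `c`).
The conclusion for `U = R (ap c ·)`: if `x₁` is in `Kc ∩ U`, then `TpEq (ap c x₁) (ap c x₀)`: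
otherwise there is a definable `S` with `S (ap c x₁)`, `¬ S (ap c x₀)`, and `V := R ∧ S` contradicts
the density.  So all elements of `Kc ∩ U` have the type of `x₀`. -/
theorem isolated {α : Type} [Finite α] (c : α → N) (n : ℕ) (hc : ∀ i, c i ∈ K.lev.S n)
    {I : Type} (ρ : I → (Unit → N) → Prop) (hρ : ∀ i, DfnO L (K.lev.S n) (ρ i))
    {R : (α ⊕ Unit → N) → Prop} (hR : Dfn L R)
    (h0 : ∃ x : N, (∀ i, ρ i (one x)) ∧ R (ap c x)) :
    ∃ x : N, (∀ i, ρ i (one x)) ∧ R (ap c x) ∧ ∃ S : (α ⊕ Unit → N) → Prop, Dfn L S ∧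
      S (ap c x) ∧ ∀ z : N, (∀ i, ρ i (one z)) → S (ap c z) → TpEq L (ap c z) (ap c x) := by
  obtain ⟨U, ⟨R1, hR1, rfl⟩, hU0, ⟨x1, hx1, hu1⟩, x₀, hd⟩ := K.baire c n ρ hρ
    {U | ∃ R' : (α ⊕ Unit → N) → Prop, Dfn L R' ∧ U = fun x => R' (Sum.elim c x)}
    (by
      rintro U ⟨R', hR', rfl⟩
      exact DfnO.of_dfn hR' c hc)
    (fun x => R (Sum.elim c x)) ⟨R, hR, rfl⟩ h0
  have key : ∀ z : N, (∀ i, ρ i (one z)) → R1 (ap c z) → TpEq L (ap c z) (ap c x₀) := by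
    intro z hz hRz
    by_contra hcon
    obtain ⟨S, hS, h1, h2⟩ : ∃ S : (α ⊕ Unit → N) → Prop, Dfn L S ∧ S (ap c z) ∧
        ¬ S (ap c x₀) := by
      unfold TpEq at hcon
      push Not at hcon
      obtain ⟨φ, hφ⟩ := hcon
      rcases hφ with ⟨h1, h2⟩ | ⟨h1, h2⟩
      · exact ⟨fun v => φ.Realize v, Dfn.formula φ, h1, h2⟩
      · exact ⟨fun v => ¬ φ.Realize v, (Dfn.formula φ).not, h1, fun h => h h2⟩
    obtain ⟨x, -, hx2, hx3⟩ := hd (fun x => R1 (Sum.elim c x) ∧ S (Sum.elim c x))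
      ⟨fun u => R1 u ∧ S u, hR1.and hS, rfl⟩ (fun x hx => hx.1) ⟨z, hz, hRz, h1⟩
    exact h2 ((hS.tp hx3).1 hx2.2)
  exact ⟨x1, hx1, hU0 x1 hu1, R1, hR1, hu1,
    fun z hz hRz => (key z hz hRz).trans (key x1 hx1 hu1).symm⟩

end Pool.Agent.MNM.Ctx
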