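import Pool.Agent.MNM.IsoA
import Pool.Agent.MNM.Isol

/-! MNM: isolated types (part B). -/

open FirstOrder FirstOrder.Language
open scoped Pointwise
open Pool.Agent.VCM

namespace Pool.Agent.MNM.Ctx

variable {L : FirstOrder.Language.{0, 0}} {N : Type} [L.Structure N] (K : Ctx L N)

include K in
/-- isolated types are dense: `isolated` with an empty family `ρ` -/
theorem Iso_dense {α : Type} [Finite α] (c : α → N) {R : (α ⊕ Unit → N) → Prop} (hR : Dfn L R)
    {x : N} (h : R (ap c x)) : ∃ y : N, R (ap c y) ∧ Iso L c (one y) := by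
  obtain ⟨n, hn⟩ := K.lev.finite_level c
  obtain ⟨y, -, hy, S, hS, hSy, hz⟩ := K.isolated c n hn (I := Empty) (fun i => i.elim)
    (fun i => i.elim) hR ⟨x, fun i => i.elim, h⟩
  refine ⟨y, hy, S, hS, hSy, fun z hz' => ?_⟩
  have h1 : z = one (z ()) := funext fun _ => rfl
  rw [h1] at hz' ⊢
  exact hz (z ()) (fun i => i.elim) hz'

/-- Algebraic elements are isolated over everything.
Proof: `x` lies in a product of finite definable sets; separate it from the finitely many tuples in
this product with a different type over `c`. -/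
theorem Iso_D0 {α β : Type} [Finite α] [Finite β] (c : α → N) {x : β → N}
    (hx : ∀ i, x i ∈ K.D0) : Iso L c x := by
  classical
  choose A hA1 hA2 hA3 hA4 using fun i => K.alg (x i) (hx i)
  have hF : {z : β → N | ∀ i, z i ∈ A i}.Finite := by
    have h1 : {z : β → N | ∀ i, z i ∈ A i} = Set.pi Set.univ A := by
      ext z
      simp
    rw [h1]
    exact Set.Finite.pi' hA1 |>.subset (fun z hz i => hz i (Set.mem_univ i))
  have hS : ∀ z : β → N, ∃ S : (α ⊕ β → N) → Prop, Dfn L S ∧ S (Sum.elim c x) ∧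
      (S (Sum.elim c z) → TpEq L (Sum.elim c z) (Sum.elim c x)) := by
    intro z
    by_cases ht : TpEq L (Sum.elim c z) (Sum.elim c x)
    · exact ⟨fun _ => True, Dfn.true', trivial, fun _ => ht⟩
    · have h2 : ∃ φ : L.Formula (α ⊕ β), ¬ (φ.Realize (Sum.elim c z) ↔
          φ.Realize (Sum.elim c x)) := by
        by_contra hcon
        push Not at hcon
        exact ht hcon
      obtain ⟨φ, hφ⟩ := h2
      exact ⟨fun v => (φ.Realize v ↔ φ.Realize (Sum.elim c x)),
        (Dfn.formula φ).iff (Dfn.const _), Iff.rfl, fun h => absurd h hφ⟩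
  choose S hS1 hS2 hS3 using hS
  refine ⟨fun v => (∀ i, v (Sum.inr i) ∈ A i) ∧ ∀ z ∈ hF.toFinset, S z v, ?_, ?_, ?_⟩
  · refine (Dfn.finiteAll fun i => ?_).and (Dfn.finsetAll _ fun z _ => hS1 z)
    exact Dfn.comp (hA4 i) (fun _ => Sum.inr i) (fun v => fun _ => v (Sum.inr i)) (fun _ _ => rfl)
  · exact ⟨fun i => hA3 i, fun z _ => hS2 z⟩
  · rintro z ⟨h1, h2⟩
    exact hS3 z (h2 z (hF.mem_toFinset.2 fun i => h1 i))

end Pool.Agent.MNM.Ctx
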