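import Pool.Agent.MNM.ES
import Pool.Agent.MNM.IsoT

/-! MNM: atomic models over finite tuples. -/

open FirstOrder FirstOrder.Language
open scoped Pointwise
open Pool.Agent.VCM

namespace Pool.Agent.MNM

variable {L : FirstOrder.Language.{0, 0}} {N : Type} [L.Structure N]

private theorem atomic_cnt (hL : L.card ≤ Cardinal.aleph0) (β : Type) [Countable β] :
    Countable (L.Formula β) := by
  have h1 : Cardinal.mk (Σ n, L.BoundedFormula β n) ≤ Cardinal.aleph0 := by
    refine BoundedFormula.card_le.trans ?_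
    rw [max_le_iff]
    refine ⟨le_rfl, ?_⟩
    have h2 : Cardinal.mk β ≤ Cardinal.aleph0 := Cardinal.mk_le_aleph0
    have h3 : Cardinal.lift.{0} (Cardinal.mk β) + Cardinal.lift.{0} L.card ≤ Cardinal.aleph0 :=
      Cardinal.add_le_aleph0.mpr ⟨by simp, by simpa using hL⟩
    exact h3
  have h4 : Countable (Σ n, L.BoundedFormula β n) := Cardinal.mk_le_aleph0_iff.mp h1
  exact Function.Injective.countable (f := fun φ : L.Formula β =>
    (⟨0, φ⟩ : Σ n, L.BoundedFormula β n)) (fun a b h => by
      simpa using h)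

private theorem atomic_rec {N : Type} (nx : (m : ℕ) → (Fin m → N) → N) :
    ∃ s : ℕ → N, ∀ m, s m = nx m (fun i : Fin m => s i) := by
  let F : (m : ℕ) → ((k : ℕ) → k < m → N) → N := fun m ih => nx m (fun i => ih i.1 i.2)
  refine ⟨fun m => WellFounded.fix Nat.lt_wfRel.wf F m, fun m => ?_⟩
  exact WellFounded.fix_eq Nat.lt_wfRel.wf F m

theorem atomic_ex (K : Ctx L N) (hL : L.card ≤ Cardinal.aleph0) {α : Type} [Finite α]
    (c : α → N) : ∃ S : L.ElementarySubstructure N, (S : Set N).Countable ∧ (∀ i, c i ∈ S) ∧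
      ∀ x ∈ S, Iso L c (one x) := by
  classical
  have hNe := K.ne
  -- tasks
  let Task : Type := (Σ n : ℕ, L.Formula (Fin n ⊕ Unit)) ⊕ α
  have hcnt1 : ∀ n : ℕ, Countable (L.Formula (Fin n ⊕ Unit)) := fun n => atomic_cnt hL _
  have hcnt : Countable Task := inferInstance
  have hne : Nonempty Task := ⟨Sum.inl ⟨0, ⊤⟩⟩
  obtain ⟨f, hf⟩ := exists_surjective_nat Task
  -- one step
  have hstep : ∀ (m : ℕ) (t : Fin m → N), ∃ y : N, Iso L (Sum.elim c t) (one y) ∧
      (∀ (n : ℕ) (φ : L.Formula (Fin n ⊕ Unit)), f (Nat.unpair m).1 = Sum.inl ⟨n, φ⟩ →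
        ∀ h : n ≤ m, (∃ x, φ.Realize (ap (fun i : Fin n => t (Fin.castLE h i)) x)) →
          φ.Realize (ap (fun i : Fin n => t (Fin.castLE h i)) y)) ∧
      (∀ a : α, f (Nat.unpair m).1 = Sum.inr a → y = c a) := by
    intro m t
    rcases htask : f (Nat.unpair m).1 with ⟨n, φ⟩ | a
    · by_cases hh : ∃ h : n ≤ m, ∃ x, φ.Realize (ap (fun i : Fin n => t (Fin.castLE h i)) x)
      · obtain ⟨h, x, hx⟩ := hh
        obtain ⟨y, hy1, hy2⟩ := K.Iso_dense (Sum.elim c t)
          (R := fun v => φ.Realize (ap (fun i : Fin n => v (Sum.inl (Sum.inr (Fin.castLE h i))))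
            (v (Sum.inr ())))) (Dfn.real φ (Sum.elim (fun i => Sum.inl (Sum.inr (Fin.castLE h i)))
            (fun _ => Sum.inr ())) (fun v => ap (fun i : Fin n => v (Sum.inl (Sum.inr
              (Fin.castLE h i)))) (v (Sum.inr ()))) (by rintro v (b | b) <;> rfl)) (x := x) hx
        refine ⟨y, hy2, ?_, ?_⟩
        · intro n' φ' heq h' _
          have h1 := Sum.inl.inj heq
          obtain ⟨rfl, h2⟩ := Sigma.mk.inj h1
          have h3 := eq_of_heq h2
          subst h3
          exact hy1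
        · intro a ha
          exact absurd ha (by simp)
      · obtain ⟨y, -, hy2⟩ := K.Iso_dense (Sum.elim c t) (R := fun _ => True) Dfn.true'
          (x := Classical.arbitrary N) trivial
        refine ⟨y, hy2, ?_, ?_⟩
        · intro n' φ' heq h' hx
          have h1 := Sum.inl.inj heq
          obtain ⟨rfl, h2⟩ := Sigma.mk.inj h1
          have h3 := eq_of_heq h2
          subst h3
          exact absurd ⟨h', hx⟩ hh
        · intro a ha
          exact absurd ha (by simp)
    · refine ⟨c a, ⟨fun v => v (Sum.inr ()) = v (Sum.inl (Sum.inl a)), Dfn.eq _ _, rfl, ?_⟩, ?_, ?_⟩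
      · intro z hz
        have : z = one (c a) := by
          funext b
          exact hz
        rw [this]
        exact fun _ => Iff.rfl
      · intro n φ heq
        exact absurd heq (by simp)
      · intro a' ha'
        rw [Sum.inr.inj ha']
  choose nx hnx1 hnx2 hnx3 using hstep
  obtain ⟨s, hs⟩ := atomic_rec nx
  have hs1 : ∀ m, Iso L (Sum.elim c (fun i : Fin m => s i)) (one (s m)) := by
    intro m
    have := hnx1 m (fun i : Fin m => s i)
    rwa [← hs] at this
  have hs2 : ∀ m (n : ℕ) (φ : L.Formula (Fin n ⊕ Unit)), f (Nat.unpair m).1 = Sum.inl ⟨n, φ⟩ →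
      n ≤ m → (∃ x, φ.Realize (ap (fun i : Fin n => s i) x)) →
        φ.Realize (ap (fun i : Fin n => s i) (s m)) := by
    intro m n φ heq h hx
    have := hnx2 m (fun i : Fin m => s i) n φ heq h hx
    rwa [← hs] at this
  have hs3 : ∀ m (a : α), f (Nat.unpair m).1 = Sum.inr a → s m = c a := by
    intro m a ha
    have := hnx3 m (fun i : Fin m => s i) a ha
    rwa [← hs] at this
  -- the segments are isolated
  have hseg : ∀ m, Iso L c (fun i : Fin m => s i) := by
    intro m
    induction m with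
    | zero =>
      refine ⟨fun _ => True, Dfn.true', trivial, ?_⟩
      intro z _
      have : z = (fun i : Fin 0 => s i) := Subsingleton.elim _ _
      rw [this]
      exact fun _ => Iff.rfl
    | succ m ih =>
      have h1 := K.Iso_trans ih (hs1 m)
      have h2 := K.Iso_sub h1 (fun j : Fin (m + 1) =>
        if hj : (j : ℕ) < m then Sum.inl ⟨j, hj⟩ else Sum.inr ())
      have h3 : (Sum.elim (fun i : Fin m => s i) (one (s m))) ∘ (fun j : Fin (m + 1) =>
          if hj : (j : ℕ) < m then Sum.inl ⟨j, hj⟩ else Sum.inr ()) = (fun i : Fin (m + 1) => s i) := by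
        funext j
        rw [Function.comp_apply]
        split_ifs with hj
        · rfl
        · have : (j : ℕ) = m := by have := j.2; omega
          show s m = s j
          rw [this]
      rw [h3] at h2
      exact h2
  -- the elementary substructure
  obtain ⟨S, hS⟩ := es_of_meets (L := L) (Set.range s) (by
    intro n c' hc' R hR hex
    choose k hk using hc'
    obtain ⟨M, hM⟩ : ∃ M, ∀ i, k i < M := by
      refine ⟨Finset.univ.sup k + 1, fun i => ?_⟩
      exact Nat.lt_succ_of_le (Finset.le_sup (Finset.mem_univ i))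
    obtain ⟨φ, hφ⟩ : Dfn L (fun v : Fin M ⊕ Unit → N =>
        R (ap (fun i : Fin n => v (Sum.inl ⟨k i, hM i⟩)) (v (Sum.inr ())))) :=
      Dfn.comp hR (Sum.elim (fun i => Sum.inl (⟨k i, hM i⟩ : Fin M)) (fun _ => Sum.inr ()))
        (fun v : Fin M ⊕ Unit → N =>
          ap (fun i : Fin n => v (Sum.inl (⟨k i, hM i⟩ : Fin M))) (v (Sum.inr ())))
        (by rintro v (b | b) <;> rfl)
    obtain ⟨j, hj⟩ := hf (Sum.inl ⟨M, φ⟩)
    have hap : ∀ x, ap (fun i : Fin n => (ap (fun i : Fin M => s i) x) (Sum.inl ⟨k i, hM i⟩))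
        ((ap (fun i : Fin M => s i) x) (Sum.inr ())) = ap c' x := by
      intro x
      have : (fun i : Fin n => (ap (fun i : Fin M => s i) x) (Sum.inl ⟨k i, hM i⟩)) = c' := by
        funext i
        exact hk i
      rw [this]
      rfl
    have h4 := hs2 (Nat.pair j M) M φ (by rw [Nat.unpair_pair]; exact hj) (Nat.right_le_pair j M) (by
      obtain ⟨x, hx⟩ := hex
      refine ⟨x, (hφ _).2 ?_⟩
      show R (ap (fun i : Fin n => (ap (fun i : Fin M => s i) x) (Sum.inl ⟨k i, hM i⟩))
        ((ap (fun i : Fin M => s i) x) (Sum.inr ())))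
      rw [hap]
      exact hx)
    refine ⟨s (Nat.pair j M), ⟨_, rfl⟩, ?_⟩
    have h5 : R (ap (fun i : Fin n => (ap (fun i : Fin M => s i) (s (Nat.pair j M)))
        (Sum.inl ⟨k i, hM i⟩)) ((ap (fun i : Fin M => s i) (s (Nat.pair j M))) (Sum.inr ()))) :=
      (hφ _).1 h4
    rw [hap] at h5
    exact h5)
  have hmem : ∀ x, x ∈ S ↔ x ∈ Set.range s := by
    intro x
    rw [← hS]
    rfl
  refine ⟨S, ?_, ?_, ?_⟩
  · rw [hS]
    exact Set.countable_range s
  · intro i
    rw [hmem]
    obtain ⟨j, hj⟩ := hf (Sum.inr i)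
    exact ⟨Nat.pair j 0, hs3 _ i (by rw [Nat.unpair_pair]; exact hj)⟩
  · intro x hx
    rw [hmem] at hx
    obtain ⟨m, rfl⟩ := hx
    have h6 := K.Iso_sub (hseg (m + 1)) (fun _ : Unit => Fin.last m)
    exact h6

end Pool.Agent.MNM
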