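import Pool.Agent.MNM.ClA

/-! MNM: the closure operator: compactness. -/

open FirstOrder FirstOrder.Language
open scoped Pointwise
open Pool.Agent.VCM

namespace Pool.Agent.MNM.Ctx

variable {L : FirstOrder.Language.{0, 0}} {N : Type} [L.Structure N] (K : Ctx L N)

/-- Compactness: a `c`-definable set all of whose elements in `P` are in `cl(c)` is contained in one
set `ζ (ap c ·)` with `Clf ζ`.
Proof: otherwise the relations `z ∈ D`, `R (ap c z)`, `¬ ζ (ap c z)` (`ζ` definable, `Clf ζ`) are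
finitely satisfiable (finite unions of `Clf` relations are `Clf`), so by saturation there is such a
`z`; `z ∉ D0` because the finite definable sets of `K.alg` are `Clf` relations; and `K.Ind c z` by
`not_Ind_iff`. -/
theorem bounded {α : Type} [Finite α] {c : α → N} {R : (α ⊕ Unit → N) → Prop}
    (hR : Dfn L R) (h : ∀ z ∈ K.P, R (ap c z) → ¬ K.Ind c z) :
    ∃ ζ : (α ⊕ Unit → N) → Prop, Dfn L ζ ∧ K.Clf ζ ∧ ∀ z ∈ K.D, R (ap c z) → ζ (ap c z) := by
  classical
  by_contra hcon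
  push Not at hcon
  obtain ⟨n, hn⟩ := K.lev.finite_level c
  let J := {φ : L.Formula (α ⊕ Unit) // K.Clf (fun v => φ.Realize v)}
  let ρ : Option J → (Unit → N) → Prop := fun i x =>
    match i with
    | none => x () ∈ K.D ∧ R (ap c (x ()))
    | some φ => ¬ φ.1.Realize (ap c (x ()))
  obtain ⟨x, -, hx⟩ := K.lev.sat_rel n (κ := Unit) (I := Option J)
    (fun _ => (⟨K.lev.ne.some, K.lev.mono (Nat.zero_le n) K.lev.ne.some_mem⟩, 0))
    (fun _ _ _ => rfl) ρ (by
      rintro (_ | φ)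
      · refine DfnO.and (DfnO.of_dfn0 K.dfnD) ?_
        exact (DfnO.of_dfn hR c hn).of_iff fun x => Iff.rfl
      · exact (DfnO.of_dfn (Dfn.formula φ.1).not c hn).of_iff fun x => Iff.rfl) (by
      intro F
      obtain ⟨z, hz1, hz2, hz3⟩ := hcon (fun v => ∃ φ ∈ F.eraseNone, φ.1.Realize v)
        (Dfn.finsetEx (R := fun (φ : J) v => φ.1.Realize v) _ fun φ _ => Dfn.formula φ.1) (by
          intro m hm
          have hfin : (⋃ φ ∈ F.eraseNone, {x | x ∈ K.D ∧ φ.1.Realize (ap m x)}).Finite :=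
            Set.Finite.biUnion F.eraseNone.finite_toSet fun φ _ => φ.2 m hm
          refine hfin.subset ?_
          rintro y ⟨hy, φ, hφ, h3⟩
          exact Set.mem_biUnion (x := φ) hφ ⟨hy, h3⟩)
      refine ⟨fun _ => z, ?_⟩
      rintro (_ | φ) hi
      · exact ⟨hz1, hz2⟩
      · intro h4
        exact hz3 ⟨φ, Finset.mem_eraseNone.2 hi, h4⟩)
  have h1 := hx none
  have hx0 : x () ∉ K.D0 := by
    intro h0
    obtain ⟨A, hA1, hA2, hA3, φ, hφ⟩ := K.alg (x ()) h0
    have hφ' : ∀ v : α ⊕ Unit → N, (φ.relabel Sum.inr).Realize v ↔ v (Sum.inr ()) ∈ A := by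
      intro v
      rw [Formula.realize_relabel, hφ]
      exact Iff.rfl
    have hcl : K.Clf (fun v => (φ.relabel (Sum.inr : Unit → α ⊕ Unit)).Realize v) := by
      intro m _
      refine hA1.subset ?_
      rintro y ⟨_, h3⟩
      exact (hφ' _).1 h3
    exact hx (some ⟨_, hcl⟩) ((hφ' _).2 hA3)
  have hxP : x () ∈ K.P := ⟨h1.1, hx0⟩
  obtain ⟨R', ⟨φ, hφ⟩, hcl, h2⟩ := (K.not_Ind_iff hxP).1 (h _ hxP h1.2)
  have hcl' : K.Clf (fun v => φ.Realize v) := by
    intro m hm
    refine (hcl m hm).subset ?_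
    rintro y ⟨h3, h4⟩
    exact ⟨h3, (hφ _).1 h4⟩
  exact hx (some ⟨φ, hcl'⟩) ((hφ _).2 h2)

end Pool.Agent.MNM.Ctx
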