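import Pool.Agent.MNM.ES
import Pool.Agent.MNM.Cl

/-! MNM: counting the classes of `P` in an elementary substructure. -/

open FirstOrder FirstOrder.Language
open scoped Pointwise
open Pool.Agent.VCM

namespace Pool.Agent.MNM

variable {L : FirstOrder.Language.{0, 0}} {N : Type} [L.Structure N]

namespace Ctx

variable (K : Ctx L N)

/-- the elements of `P` in `S` fall into exactly `k` classes (`x ~ y` iff each is in the closure of
the other) -/
def HasK (S : Set N) (k : ℕ) : Prop :=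
  ∃ d : Fin k → N, (∀ i, d i ∈ S ∧ d i ∈ K.P) ∧
    (∀ i j, i ≠ j → K.Be (d i) (d j) ∨ K.Be (d j) (d i)) ∧
    ∀ x ∈ S, x ∈ K.P → ∃ i, ¬ K.Be (d i) x ∧ ¬ K.Be x (d i)

private theorem Count_Be (S S' : L.ElementarySubstructure N) (σ : S ≃[L] S') (x y : S) :
    K.Be (x : N) (y : N) ↔ K.Be (σ x : N) (σ y : N) := by
  have ht := es_tp S S' σ (Sum.elim (fun _ : Unit => x) (fun _ : Unit => y))
  have e1 : (fun i => ((Sum.elim (fun _ : Unit => x) (fun _ : Unit => y) i : S) : N)) =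
      Sum.elim (one (x : N)) (one (y : N)) := by
    funext k
    rcases k with k | k <;> rfl
  have e2 : (fun i => ((σ (Sum.elim (fun _ : Unit => x) (fun _ : Unit => y) i) : S') : N)) =
      Sum.elim (one (σ x : N)) (one (σ y : N)) := by
    funext k
    rcases k with k | k <;> rfl
  rw [e1, e2] at ht
  exact ⟨fun h => K.FS_tp ht h, fun h => K.FS_tp ht.symm h⟩

private theorem Count_P (S S' : L.ElementarySubstructure N) (σ : S ≃[L] S') (x : S)
    (h : (x : N) ∈ K.P) : (σ x : N) ∈ K.P := by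
  have ht := es_tp S S' σ (fun _ : Unit => x)
  exact K.P_tp ht h

private theorem Count_le (S S' : L.ElementarySubstructure N) (σ : S ≃[L] S') {k l : ℕ}
    (h : K.HasK S k) (h' : K.HasK S' l) : k ≤ l := by
  obtain ⟨d, hd, hd2, -⟩ := h
  obtain ⟨d', hd', -, hd3⟩ := h'
  have key : ∀ i : Fin k, ∃ j : Fin l, ¬ K.Be (d' j) (σ ⟨d i, (hd i).1⟩ : N) ∧
      ¬ K.Be (σ ⟨d i, (hd i).1⟩ : N) (d' j) := by
    intro i
    exact hd3 _ (σ ⟨d i, (hd i).1⟩).2 (K.Count_P S S' σ ⟨d i, (hd i).1⟩ (hd i).2)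
  choose f hf using key
  have hinj : Function.Injective f := by
    intro i j hij
    by_contra hne
    have hPi := K.Count_P S S' σ ⟨d i, (hd i).1⟩ (hd i).2
    have hPj := K.Count_P S S' σ ⟨d j, (hd j).1⟩ (hd j).2
    have h1 : ¬ K.Be (σ ⟨d i, (hd i).1⟩ : N) (σ ⟨d j, (hd j).1⟩ : N) :=
      K.Be_trans hPj (hd' (f j)).2 hPi (hf j).1 (by rw [← hij]; exact (hf i).2)
    have h2 : ¬ K.Be (σ ⟨d j, (hd j).1⟩ : N) (σ ⟨d i, (hd i).1⟩ : N) :=
      K.Be_trans hPi (hd' (f i)).2 hPj (hf i).1 (by rw [hij]; exact (hf j).2)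
    rw [← K.Count_Be S S' σ] at h1 h2
    rcases hd2 i j hne with h3 | h3
    · exact h1 h3
    · exact h2 h3
  simpa using Fintype.card_le_of_injective f hinj

/-- Proof: it is enough to show `k ≤ l` (symmetry, `σ.symm`).  Let `d`, `d'` be the representatives.  For
every `i` choose `f i` with `σ (d i) ~ d' (f i)` (`σ (d i) ∈ P`: `es_tp`, `P_tp`).  `f` is injective: if
`f i = f j`, then `σ (d i) ~ σ (d j)` by `Be_trans`, so `d i ~ d j` (`FS_tp`, `es_tp`), so `i = j`. -/
theorem HasK_iso (S S' : L.ElementarySubstructure N) (σ : S ≃[L] S') {k l : ℕ}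
    (h : K.HasK S k) (h' : K.HasK S' l) : k = l :=
  le_antisymm (K.Count_le S S' σ h h') (K.Count_le S' S σ.symm h' h)

end Ctx

end Pool.Agent.MNM
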