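import Pool.Agent.MNM.FSB

/-! MNM: finite satisfiability in `D0`: extension and transitivity (part C). -/

open FirstOrder FirstOrder.Language
open scoped Pointwise
open Pool.Agent.VCM

namespace Pool.Agent.MNM.Ctx

variable {L : FirstOrder.Language.{0, 0}} {N : Type} [L.Structure N] (K : Ctx L N)

/-- Extension of finitely satisfiable types.
Proof: saturation at a level containing `e`, `e'`: the family of relations in `y : α → N`:
(1) `R (y; e, m)` for all definable `R` and finite tuples `m` of `D0` such that `R (c; e, m)`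
(index them by `R : L.Formula ((K.D0 ⊕ β) ⊕ α)` true at `(incl, e), c`), (2) `¬ S (y; e, e')` for
all definable `S` such that no `c' ∈ D0` satisfies `S (c'; e, e')`.  Finitely satisfiable: a finite
conjunction of relations in (1) is satisfied by some `y` in `D0` (by `FS_param`), and such a `y`
satisfies (2).  The realisation `y` has the same type as `c` over `D0 ∪ e`, so `K.homD` (for the
tuples `(e, c)` and `(e, y)`) gives `g` fixing `D0` and `e` with `g c = y`. -/
theorem FS_ext {α β γ : Type} [Finite α] [Finite β] [Finite γ] {c : α → N} {e : β → N}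
    (h : K.FS c e) (e' : γ → N) :
    ∃ g : AutG L N, (∀ m ∈ K.D0, g • m = m) ∧ (∀ i, g • e i = e i) ∧
      K.FS (fun i => g • c i) (Sum.elim e e') := by
  classical
  obtain ⟨n, hn⟩ := K.lev.finite_level (Sum.elim e e')
  obtain ⟨enc, henc⟩ := exists_injective_nat α
  let J1 := {φ : L.Formula ((K.D0 ⊕ β) ⊕ α) //
    φ.Realize (Sum.elim (Sum.elim (fun m : K.D0 => (m : N)) e) c)}
  let J2 := {φ : L.Formula (α ⊕ (β ⊕ γ)) //
    ∀ y : α → N, (∀ i, y i ∈ K.D0) → ¬ φ.Realize (Sum.elim y (Sum.elim e e'))}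
  let ρ : J1 ⊕ J2 → (α → N) → Prop := fun i y =>
    match i with
    | Sum.inl φ => φ.1.Realize (Sum.elim (Sum.elim (fun m : K.D0 => (m : N)) e) y)
    | Sum.inr φ => ¬ φ.1.Realize (Sum.elim y (Sum.elim e e'))
  obtain ⟨y, -, hy⟩ := K.lev.sat_rel n (κ := α) (I := J1 ⊕ J2)
    (fun a => (⟨K.lev.ne.some, K.lev.mono (Nat.zero_le n) K.lev.ne.some_mem⟩, enc a))
    (fun a b hab => henc (Prod.mk.inj hab).2) ρ (by
      rintro (φ | φ)
      · refine DfnO.of_dfn (Dfn.formula φ.1) _ ?_
        rintro (m | b)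
        · exact K.lev.mono (Nat.zero_le n) (K.lvl m.2)
        · exact hn (Sum.inl b)
      · have := DfnO.of_dfn (L := L) (B := K.lev.S n) (κ := α)
          (R := fun u : (β ⊕ γ) ⊕ α → N => ¬ φ.1.Realize (Sum.elim (u ∘ Sum.inr) (u ∘ Sum.inl)))
          (Dfn.real φ.1 Sum.swap _ (by rintro v (k | k) <;> rfl)).not (Sum.elim e e') hn
        exact this.of_iff fun x => Iff.rfl) (by
      intro F
      -- the conjunction of the relations in `J1`
      let F1 : Finset J1 := F.preimage Sum.inl Sum.inl_injective.injOn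
      obtain ⟨χ, hχ⟩ := exists_conj (F1.image (fun φ : J1 => φ.1))
      obtain ⟨G, ψ, hψ⟩ := fin_supp χ
      -- the finite part of `D0` used by `χ`
      let M : Type := {m : K.D0 // Sum.inl (Sum.inl m) ∈ G}
      have hM : Finite M := by
        apply Finite.of_injective (fun k : M => (⟨Sum.inl (Sum.inl k.1), k.2⟩ : G))
        rintro ⟨a, ha⟩ ⟨b, hb⟩ h
        simp only [Subtype.mk.injEq, Sum.inl.injEq] at h
        subst h; rfl
      let s : G → α ⊕ (β ⊕ M) := fun a => match a with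
        | ⟨Sum.inl (Sum.inl m), h⟩ => Sum.inr (Sum.inr ⟨m, h⟩)
        | ⟨Sum.inl (Sum.inr b), _⟩ => Sum.inr (Sum.inl b)
        | ⟨Sum.inr a, _⟩ => Sum.inl a
      have hs : ∀ x : α → N, (fun a : G => (Sum.elim (Sum.elim (fun m : K.D0 => (m : N)) e) x
          (a : (K.D0 ⊕ β) ⊕ α))) =
          (Sum.elim x (Sum.elim e (fun m : M => ((m.1 : K.D0) : N)))) ∘ s := by
        intro x
        funext a
        rcases a with ⟨(m | b) | a, h⟩ <;> rfl
      have hfs : K.FS c (Sum.elim e (fun m : M => ((m.1 : K.D0) : N))) :=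
        K.FS_param h (fun m => m.1.2)
      obtain ⟨c', hc', h2⟩ := hfs (fun v => (ψ.relabel s).Realize v) (Dfn.formula _) (by
        rw [Formula.realize_relabel, ← hs, ← hψ, hχ]
        intro φ hφ
        rw [Finset.mem_image] at hφ
        obtain ⟨φ', _, rfl⟩ := hφ
        exact φ'.2)
      rw [Formula.realize_relabel, ← hs, ← hψ, hχ] at h2
      refine ⟨c', ?_⟩
      rintro (φ | φ) hi
      · exact h2 _ (Finset.mem_image_of_mem _ (Finset.mem_preimage.2 hi))
      · exact φ.2 c' hc')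
  have htp : TpEq L (Sum.elim (Sum.elim (fun m : K.D0 => (m : N)) e) c)
      (Sum.elim (Sum.elim (fun m : K.D0 => (m : N)) e) y) := by
    intro φ
    constructor
    · intro hφ
      exact hy (Sum.inl ⟨φ, hφ⟩)
    · intro hφ
      by_contra hcon
      have h3 := hy (Sum.inl ⟨φ.not, by rw [Formula.realize_not]; exact hcon⟩)
      have h4 : φ.not.Realize (Sum.elim (Sum.elim (fun m : K.D0 => (m : N)) e) y) := h3
      rw [Formula.realize_not] at h4
      exact h4 hφ
  have htp2 : TpEq L (Sum.elim (fun m : K.D0 => (m : N)) (Sum.elim e c))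
      (Sum.elim (fun m : K.D0 => (m : N)) (Sum.elim e y)) := by
    have h5 := htp.comp (Equiv.sumAssoc K.D0 β α).symm
    have e1 : ∀ x : α → N, (Sum.elim (Sum.elim (fun m : K.D0 => (m : N)) e) x) ∘
        (Equiv.sumAssoc K.D0 β α).symm = Sum.elim (fun m : K.D0 => (m : N)) (Sum.elim e x) := by
      intro x
      funext k
      rcases k with k | k | k <;> rfl
    rwa [e1, e1] at h5
  obtain ⟨g, hg1, hg2⟩ := K.homD htp2
  refine ⟨g, hg1, fun i => hg2 (Sum.inl i), ?_⟩
  have hgc : (fun i => g • c i) = y := funext fun i => hg2 (Sum.inr i)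
  rw [hgc]
  intro R hR hRy
  by_contra hcon
  push Not at hcon
  obtain ⟨φ, hφ⟩ := hR
  exact hy (Sum.inr ⟨φ, fun z hz hr => hcon z hz ((hφ _).1 hr)⟩) ((hφ _).2 hRy)

/-- Transitivity of finite satisfiability.
Proof: given `R ((c', c); e)`, `h'` gives `m' ∈ D0` with `R ((m', c); e)`; by `FS_param` for `h`
and `m'` there is `m ∈ D0` with `R ((m', m); e)`. -/
theorem FS_trans {α α' β : Type} [Finite α] [Finite α'] [Finite β] {c : α → N} {c' : α' → N}
    {e : β → N} (h : K.FS c e) (h' : K.FS c' (Sum.elim c e)) : K.FS (Sum.elim c' c) e := by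
  intro R hR hc
  obtain ⟨m', hm', h1⟩ := h' (fun v => R (Sum.elim
      (Sum.elim (v ∘ Sum.inl) (v ∘ Sum.inr ∘ Sum.inl)) (v ∘ Sum.inr ∘ Sum.inr)))
    (Dfn.comp hR (Sum.elim (Sum.elim (fun i => Sum.inl i) (fun i => Sum.inr (Sum.inl i)))
      (fun i => Sum.inr (Sum.inr i))) (fun v => Sum.elim
      (Sum.elim (v ∘ Sum.inl) (v ∘ Sum.inr ∘ Sum.inl)) (v ∘ Sum.inr ∘ Sum.inr))
      (by rintro v ((k | k) | k) <;> rfl)) hc
  obtain ⟨m, hm, h2⟩ := K.FS_param h hm' (fun v => R (Sum.elim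
      (Sum.elim (v ∘ Sum.inr ∘ Sum.inr) (v ∘ Sum.inl)) (v ∘ Sum.inr ∘ Sum.inl)))
    (Dfn.comp hR (Sum.elim (Sum.elim (fun i => Sum.inr (Sum.inr i)) (fun i => Sum.inl i))
      (fun i => Sum.inr (Sum.inl i))) (fun v => Sum.elim
      (Sum.elim (v ∘ Sum.inr ∘ Sum.inr) (v ∘ Sum.inl)) (v ∘ Sum.inr ∘ Sum.inl))
      (by rintro v ((k | k) | k) <;> rfl)) h1
  refine ⟨Sum.elim m' m, ?_, h2⟩
  rintro (i | i)
  · exact hm' i
  · exact hm i

/-- elements of `D0` may be added to `c`: `FS_trans` and `FS_D0` -/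
theorem FS_addD0 {α α' β : Type} [Finite α] [Finite α'] [Finite β] {c : α → N} {m : α' → N}
    {e : β → N} (h : K.FS c e) (hm : ∀ i, m i ∈ K.D0) : K.FS (Sum.elim m c) e :=
  K.FS_trans h (K.FS_D0 hm _)

end Pool.Agent.MNM.Ctx
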