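import Pool.Agent.MNM.FSA
import Pool.Agent.MNM.FSC

/-! MNM: collects the facts about `FS`. -/

open FirstOrder FirstOrder.Language
open scoped Pointwise
open Pool.Agent.VCM

namespace Pool.Agent.MNM.Ctx

variable {L : FirstOrder.Language.{0, 0}} {N : Type} [L.Structure N] (K : Ctx L N)



end Pool.Agent.MNM.Ctx
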