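import Pool.Agent.MNM.ES
import Pool.Agent.MNM.FSX

/-! MNM: a countable model realising the finitely satisfiable types. -/

open FirstOrder FirstOrder.Language
open scoped Pointwise
open Pool.Agent.VCM

namespace Pool.Agent.MNM

variable {L : FirstOrder.Language.{0, 0}} {N : Type} [L.Structure N]

/-- Proof.  For every finite tuple `c : Fin n → N` choose `h c ∈ P` with `FS (one (h c)) c`
(`K.exists_coheir c` with the relation `True`, `K.inf`).  Build `A 0 ⊆ A 1 ⊆ …` countable: `A 0 = ∅`,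
`A (m+1) := A m ∪ {h c | c a finite tuple of A m} ∪ {w φ c | c a finite tuple of A m, φ : L.Formula (Fin n ⊕ Unit)}`
where `w φ c` is some `x` with `φ.Realize (ap c x)` if there is one (countable: `hL` gives countably many
formulas).  The union `A` satisfies the hypothesis of `es_of_meets` and is closed under `h`. -/
theorem rich_ex (K : Ctx L N) (hL : L.card ≤ Cardinal.aleph0) :
    ∃ S : L.ElementarySubstructure N, (S : Set N).Countable ∧
      ∀ (n : ℕ) (c : Fin n → N), (∀ i, c i ∈ S) → ∃ x ∈ S, x ∈ K.P ∧ K.FS (one x) c := by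
  classical
  have hne : Nonempty N := K.ne
  have hcL : Countable L.Symbols := Cardinal.mk_le_aleph0_iff.1 hL
  have hh : ∀ (n : ℕ) (c : Fin n → N), ∃ x, x ∈ K.P ∧ K.FS (one x) c := by
    intro n c
    obtain ⟨x, h1, -, h3⟩ := K.exists_coheir c (R := fun _ => True) Dfn.true' (by
      refine K.inf.mono fun y hy => ⟨hy, trivial⟩)
    exact ⟨x, h1, h3⟩
  choose h hh1 hh2 using hh
  have hw : ∀ (n : ℕ) (φ : L.Formula (Fin n ⊕ Unit)) (c : Fin n → N), ∃ x,
      (∃ y, φ.Realize (ap c y)) → φ.Realize (ap c x) := by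
    intro n φ c
    by_cases hex : ∃ y, φ.Realize (ap c y)
    · obtain ⟨y, hy⟩ := hex
      exact ⟨y, fun _ => hy⟩
    · exact ⟨Classical.arbitrary N, fun h => absurd h hex⟩
  choose w hw using hw
  let stp : Set N → Set N := fun B => B ∪ Set.range
    (fun k : (Σ n : ℕ, (Fin n → B) × Option (L.Formula (Fin n ⊕ Unit))) =>
      Option.elim k.2.2 (h k.1 (fun i => (k.2.1 i : N))) (fun φ => w k.1 φ (fun i => (k.2.1 i : N))))
  have stp_cnt : ∀ B : Set N, B.Countable → (stp B).Countable := by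
    intro B hB
    have : Countable B := hB.to_subtype
    exact hB.union (Set.countable_range _)
  have stp_sub : ∀ B : Set N, B ⊆ stp B := fun B => Set.subset_union_left
  have stp_h : ∀ (B : Set N) (n : ℕ) (c : Fin n → N), (∀ i, c i ∈ B) → h n c ∈ stp B := by
    intro B n c hc
    exact Or.inr ⟨⟨n, fun i => ⟨c i, hc i⟩, none⟩, rfl⟩
  have stp_w : ∀ (B : Set N) (n : ℕ) (c : Fin n → N) (φ : L.Formula (Fin n ⊕ Unit)),
      (∀ i, c i ∈ B) → w n φ c ∈ stp B := by
    intro B n c φ hc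
    exact Or.inr ⟨⟨n, fun i => ⟨c i, hc i⟩, some φ⟩, rfl⟩
  let A : ℕ → Set N := fun m => Nat.rec (∅ : Set N) (fun _ B => stp B) m
  have A_succ : ∀ m, A (m + 1) = stp (A m) := fun m => rfl
  have A_cnt : ∀ m, (A m).Countable := by
    intro m
    induction m with
    | zero => exact Set.countable_empty
    | succ m ih => rw [A_succ]; exact stp_cnt _ ih
  have A_mono : Monotone A := by
    apply monotone_nat_of_le_succ
    intro m
    rw [A_succ]
    exact stp_sub _
  have hlev : ∀ (n : ℕ) (c : Fin n → N), (∀ i, c i ∈ ⋃ m, A m) → ∃ m, ∀ i, c i ∈ A m := by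
    intro n c hc
    have h1 : ∀ i, ∃ m, c i ∈ A m := fun i => by simpa using hc i
    choose mm hmm using h1
    exact ⟨Finset.univ.sup mm, fun i => A_mono (Finset.le_sup (Finset.mem_univ i)) (hmm i)⟩
  obtain ⟨S, hS⟩ := es_of_meets (L := L) (⋃ m, A m) (by
    intro n c hc R hR hex
    obtain ⟨φ, hφ⟩ := hR
    obtain ⟨m, hm⟩ := hlev n c hc
    refine ⟨w n φ c, Set.mem_iUnion.2 ⟨m + 1, ?_⟩, ?_⟩
    · rw [A_succ]
      exact stp_w _ n c φ hm
    · rw [← hφ]
      apply hw
      obtain ⟨y, hy⟩ := hex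
      exact ⟨y, (hφ _).2 hy⟩)
  refine ⟨S, ?_, ?_⟩
  · rw [hS]
    exact Set.countable_iUnion A_cnt
  · intro n c hc
    have hc' : ∀ i, c i ∈ ⋃ m, A m := by
      intro i
      rw [← hS]
      exact hc i
    obtain ⟨m, hm⟩ := hlev n c hc'
    refine ⟨h n c, ?_, hh1 n c, hh2 n c⟩
    have h1 : h n c ∈ ⋃ m, A m := Set.mem_iUnion.2 ⟨m + 1, by rw [A_succ]; exact stp_h _ n c hm⟩
    rw [← hS] at h1
    exact h1

end Pool.Agent.MNM
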