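import Pool.Agent.MNM.ES

/-! MNM: few countable models imply few types. -/

open FirstOrder FirstOrder.Language
open scoped Pointwise
open Pool.Agent.VCM

namespace Pool.Agent.MNM

/-- `T` has `n` pairwise nonisomorphic countable models -/
def HasModels (L : FirstOrder.Language.{0, 0}) (T : L.Theory) (n : ℕ) : Prop :=
  ∃ N : Fin n → T.ModelType.{0, 0, 0}, (∀ i, Countable (N i)) ∧
    ∀ i j, i ≠ j → IsEmpty ((N i) ≃[L] (N j))

variable {L : FirstOrder.Language.{0, 0}} {N : Type} [L.Structure N]

private theorem hasModels_zero (T : L.Theory) : HasModels L T 0 :=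
  ⟨fun i => i.elim0, fun i => i.elim0, fun i => i.elim0⟩

private theorem exists_max (T : L.Theory) (n : ℕ) (h : ¬ HasModels L T n) :
    ∃ s, HasModels L T s ∧ ¬ HasModels L T (s + 1) := by
  by_contra hcon
  push Not at hcon
  have : ∀ m, HasModels L T m := by
    intro m
    induction m with
    | zero => exact hasModels_zero T
    | succ m ih => exact hcon m ih
  exact h (this n)

/-- Proof: suppose that `T` does not have `n` pairwise nonisomorphic countable models; let `s < n` be
maximal such that it has `s` (`s = 0` is possible to start with: `HasModels L T 0`), `M i`, `i < s`,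
such a family.  Let `k : ℕ`.  For every
`t : Fin k → N` there is a countable elementary substructure `S` containing `t` (downward
Loewenheim-Skolem `exists_elementarySubstructure_card_eq` with `κ = ℵ₀`, `s := Set.range t`; `N` is
infinite), which is a model of `T`; by maximality (`Fin.snoc`) it is isomorphic to some `M i`, so there is
`t' : Fin k → M i` with `φ.Realize t ↔ φ.Realize t'` for all `φ : L.Formula (Fin k)`.  There are countably
many pairs `(i, t')`; for each of them choose `t : Fin k → N` with the same type if there is one (else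
anything); this gives the sequence `f`. -/
theorem small_of_few (T : L.Theory) (hL : L.card ≤ Cardinal.aleph0) [hN : Infinite N]
    (hT : N ⊨ T) (n : ℕ) (h : ¬ HasModels L T n) : Small L N := by
  classical
  obtain ⟨s, ⟨M, hMc, hM⟩, hs⟩ := exists_max T n h
  intro k
  have key : ∀ t : Fin k → N, ∃ (i : Fin s) (t' : Fin k → M i),
      ∀ φ : L.Formula (Fin k), φ.Realize t ↔ φ.Realize t' := by
    intro t
    obtain ⟨S, hS1, hS2⟩ := exists_elementarySubstructure_card_eq.{0, 0, 0, 0} L (Set.range t)
      Cardinal.aleph0 le_rfl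
      (by
        simp only [Cardinal.lift_id]
        exact Cardinal.mk_le_aleph0_iff.2 (Set.countable_range t).to_subtype)
      (by simpa using hL)
      (by
        simp only [Cardinal.lift_id]
        exact Cardinal.aleph0_le_mk N)
    have hSc : Countable S := by
      rw [← Cardinal.mk_le_aleph0_iff]
      simp only [Cardinal.lift_id] at hS2
      exact le_of_eq hS2
    have hSne : Nonempty S := by infer_instance
    have hST : S ⊨ T := (S.theory_model_iff T).2 hT
    obtain ⟨MS, hMS⟩ : ∃ MS : T.ModelType.{0, 0, 0}, MS = Theory.ModelType.of T S := ⟨_, rfl⟩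
    have hiso : ∃ i, Nonempty (MS ≃[L] M i) := by
      by_contra hno
      push Not at hno
      apply hs
      refine ⟨Fin.cons (α := fun _ => T.ModelType.{0, 0, 0}) MS M, ?_, ?_⟩
      · intro i
        refine Fin.cases ?_ (fun i => ?_) i
        · rw [Fin.cons_zero, hMS]; exact hSc
        · rw [Fin.cons_succ]; exact hMc i
      · intro i j
        refine Fin.cases ?_ (fun i => ?_) i
        · refine Fin.cases ?_ (fun j => ?_) j
          · intro hne; exact absurd rfl hne
          · intro _
            rw [Fin.cons_zero, Fin.cons_succ]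
            exact hno j
        · refine Fin.cases ?_ (fun j => ?_) j
          · intro _
            rw [Fin.cons_zero, Fin.cons_succ]
            exact ⟨fun σ => (hno i).false σ.symm⟩
          · intro hne
            rw [Fin.cons_succ, Fin.cons_succ]
            exact hM i j (fun hij => hne (by rw [hij]))
    obtain ⟨i, ⟨σ⟩⟩ := hiso
    subst hMS
    have σ' : S ≃[L] M i := σ
    refine ⟨i, fun l => σ' ⟨t l, hS1 ⟨l, rfl⟩⟩, fun φ => ?_⟩
    have h1 := es_realize S φ (fun l => (⟨t l, hS1 ⟨l, rfl⟩⟩ : S))
    have h2 := StrongHomClass.realize_formula σ' φ (v := fun l => (⟨t l, hS1 ⟨l, rfl⟩⟩ : S))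
    exact h1.symm.trans h2.symm
  have hne : Nonempty (Σ i : Fin s, (Fin k → M i)) := by
    obtain ⟨i, t', _⟩ := key (fun _ => Classical.arbitrary N)
    exact ⟨⟨i, t'⟩⟩
  have hct : Countable (Σ i : Fin s, (Fin k → M i)) := by infer_instance
  obtain ⟨g, hg⟩ := exists_surjective_nat (Σ i : Fin s, (Fin k → M i))
  have hch : ∀ j : (Σ i : Fin s, (Fin k → M i)), ∃ t : Fin k → N,
      (∃ t0 : Fin k → N, ∀ φ : L.Formula (Fin k), φ.Realize t0 ↔ φ.Realize j.2) →
      ∀ φ : L.Formula (Fin k), φ.Realize t ↔ φ.Realize j.2 := by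
    intro j
    by_cases hj : ∃ t0 : Fin k → N, ∀ φ : L.Formula (Fin k), φ.Realize t0 ↔ φ.Realize j.2
    · obtain ⟨t0, ht0⟩ := hj
      exact ⟨t0, fun _ => ht0⟩
    · exact ⟨fun _ => Classical.arbitrary N, fun h' => absurd h' hj⟩
  choose F hF using hch
  refine ⟨fun m => F (g m), fun t => ?_⟩
  obtain ⟨i, t', ht⟩ := key t
  obtain ⟨m, hm⟩ := hg ⟨i, t'⟩
  refine ⟨m, fun φ => ?_⟩
  have h1 := hF ⟨i, t'⟩ ⟨t, ht⟩ φ
  show φ.Realize t ↔ φ.Realize (F (g m))
  rw [hm]
  exact (ht φ).trans h1.symm

end Pool.Agent.MNM
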