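import Pool.Agent.MNM.Atomic
import Pool.Agent.MNM.Count
import Pool.Agent.MNM.Rich
import Pool.Agent.MNM.SmallEx

/-! MNM: four models in the symmetric case. -/

open FirstOrder FirstOrder.Language
open scoped Pointwise
open Pool.Agent.VCM

namespace Pool.Agent.MNM

variable {L : FirstOrder.Language.{0, 0}} {N : Type} [L.Structure N]

/-- Proof: let `R` isolate the type of `x` over `c`; `FS (one x) c` gives `m ∈ D0` with `R (c, m)`, so
`(c, m) ≡ (c, x)` and `m ∈ P` (`P_tp`): contradiction. -/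
theorem not_FS_of_iso (K : Ctx L N) {α : Type} [Finite α] {c : α → N} {x : N} (hx : x ∈ K.P)
    (h : Iso L c (one x)) : ¬ K.FS (one x) c := by
  intro hFS
  obtain ⟨R, hR, hRx, hun⟩ := h
  have hR' : Dfn L (fun u : Unit ⊕ α → N => R (Sum.elim (u ∘ Sum.inr) (u ∘ Sum.inl))) :=
    Dfn.comp hR Sum.swap (fun u => Sum.elim (u ∘ Sum.inr) (u ∘ Sum.inl)) (by
      rintro v (k | k) <;> rfl)
  obtain ⟨m, hm, hRm⟩ := hFS _ hR' hRx
  have h1 : TpEq L (Sum.elim c m) (Sum.elim c (one x)) := hun m hRm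
  have h2 : TpEq L (one (m ())) (one x) := h1.comp (Sum.inr : Unit → α ⊕ Unit)
  exact (K.P_tp h2.symm hx).2 (hm ())

/-- The atomic model over the empty tuple contains no element of `P`: `atomic_ex` for
`c : Fin 0 → N`, `not_FS_of_iso`, `FS_empty`. -/
theorem mod0 (K : Ctx L N) (hL : L.card ≤ Cardinal.aleph0) :
    ∃ S : L.ElementarySubstructure N, (S : Set N).Countable ∧ K.HasK S 0 := by
  obtain ⟨S, hc, -, hIso⟩ := atomic_ex K hL (fun i : Fin 0 => i.elim0)
  refine ⟨S, hc, fun i => i.elim0, fun i => i.elim0, fun i => i.elim0, fun x hx hxP => ?_⟩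
  exact absurd (K.FS_empty (c := one x) (fun _ => hxP.1) _) (not_FS_of_iso K hxP (hIso x hx))

private theorem bmod_P (K : Ctx L N) {β : Type} [Finite β] (e : β → N) :
    ∃ x ∈ K.P, K.FS (one x) e := by
  obtain ⟨x, hx, -, h⟩ := K.exists_coheir e (R := fun _ => True) Dfn.true'
    (K.inf.mono (fun x hx => ⟨hx, trivial⟩))
  exact ⟨x, hx, h⟩

/-- The atomic model over `a ∈ P` (`P` is nonempty: `K.exists_coheir` with the empty tuple) has one class
in the symmetric case: for `x ∈ P` in it `¬ Be x a` by `not_FS_of_iso`, and `¬ Be a x` by `hsym`. -/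
theorem mod1 (K : Ctx L N) (hL : L.card ≤ Cardinal.aleph0)
    (hsym : ∀ a ∈ K.P, ∀ b ∈ K.P, ¬ K.Be b a → ¬ K.Be a b) :
    ∃ S : L.ElementarySubstructure N, (S : Set N).Countable ∧ K.HasK S 1 := by
  obtain ⟨a, ha, -⟩ := bmod_P K (fun i : Fin 0 => i.elim0)
  obtain ⟨S, hc, hS, hIso⟩ := atomic_ex K hL (one a)
  refine ⟨S, hc, fun _ => a, fun _ => ⟨hS (), ha⟩,
    fun i j hij => absurd (Subsingleton.elim i j) hij, fun x hx hxP => ⟨0, ?_⟩⟩
  have h1 : ¬ K.Be x a := not_FS_of_iso K hxP (hIso x hx)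
  exact ⟨hsym a ha x hxP h1, h1⟩

/-- Two elements `a`, `b` of `P` with `Be a b`: for `b ∈ P` use `K.exists_coheir (one b)`.  The atomic
model over `c := ![a, b]`: all elements `x ∈ P` have `¬ FS (one x) c` (`not_FS_of_iso`). -/
theorem mod2 (K : Ctx L N) (hL : L.card ≤ Cardinal.aleph0) :
    ∃ S : L.ElementarySubstructure N, (S : Set N).Countable ∧ (∃ c : Fin 2 → N, (∀ i, c i ∈ S) ∧
      c 0 ∈ K.P ∧ c 1 ∈ K.P ∧ K.Be (c 0) (c 1) ∧ ∀ x ∈ S, x ∈ K.P → ¬ K.FS (one x) c) := by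
  obtain ⟨b, hb, -⟩ := bmod_P K (fun i : Fin 0 => i.elim0)
  obtain ⟨a, ha, hab⟩ := bmod_P K (one b)
  obtain ⟨S, hc, hS, hIso⟩ := atomic_ex K hL (![a, b] : Fin 2 → N)
  exact ⟨S, hc, ![a, b], hS, ha, hb, hab, fun x hx hxP => not_FS_of_iso K hxP (hIso x hx)⟩

/-- two elements of `P` in `S`, the second one outside the closure of the first one -/
private def bmodB (K : Ctx L N) (S : L.ElementarySubstructure N) : Prop :=
  ∃ a ∈ S, ∃ b ∈ S, a ∈ K.P ∧ b ∈ K.P ∧ K.Be a b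

private theorem bmodB_iso (K : Ctx L N) (S S' : L.ElementarySubstructure N) (σ : S ≃[L] S')
    (h : bmodB K S) : bmodB K S' := by
  obtain ⟨a, ha, b, hb, haP, hbP, hab⟩ := h
  have hP : ∀ z (hz : z ∈ S), z ∈ K.P → (σ ⟨z, hz⟩ : N) ∈ K.P := by
    intro z hz hzP
    exact K.P_tp (es_tp S S' σ (fun _ : Unit => (⟨z, hz⟩ : S))) hzP
  refine ⟨σ ⟨a, ha⟩, (σ ⟨a, ha⟩).2, σ ⟨b, hb⟩, (σ ⟨b, hb⟩).2, hP a ha haP, hP b hb hbP, ?_⟩
  have h1 := es_tp S S' σ (Sum.elim (fun _ => (⟨a, ha⟩ : S)) (fun _ => (⟨b, hb⟩ : S)) :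
    Unit ⊕ Unit → S)
  have e1 : (fun i => ((Sum.elim (fun _ => (⟨a, ha⟩ : S)) (fun _ => (⟨b, hb⟩ : S)) :
      Unit ⊕ Unit → S) i : N)) = Sum.elim (one a) (one b) := by
    funext i
    rcases i with i | i <;> rfl
  have e2 : (fun i => (σ ((Sum.elim (fun _ => (⟨a, ha⟩ : S)) (fun _ => (⟨b, hb⟩ : S)) :
      Unit ⊕ Unit → S) i) : N)) =
      Sum.elim (one (σ ⟨a, ha⟩ : N)) (one (σ ⟨b, hb⟩ : N)) := by
    funext i
    rcases i with i | i <;> rfl
  rw [e1, e2] at h1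
  exact K.FS_tp h1 hab

private theorem bmodB_zero (K : Ctx L N) (S : L.ElementarySubstructure N) (h : K.HasK S 0) :
    ¬ bmodB K S := by
  rintro ⟨a, ha, -, -, haP, -⟩
  obtain ⟨d, -, -, h3⟩ := h
  obtain ⟨i, -⟩ := h3 a ha haP
  exact i.elim0

private theorem bmodB_one (K : Ctx L N) (S : L.ElementarySubstructure N) (h : K.HasK S 1) :
    ¬ bmodB K S := by
  rintro ⟨a, ha, b, hb, haP, hbP, hab⟩
  obtain ⟨d, h1, -, h3⟩ := h
  obtain ⟨i, hi1, hi2⟩ := h3 a ha haP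
  obtain ⟨j, hj1, hj2⟩ := h3 b hb hbP
  obtain rfl : i = j := Subsingleton.elim i j
  exact K.Be_trans hbP (h1 i).2 haP hj1 hi2 hab

/-- The four models: `mod0`, `mod1`, `mod2` and `rich_ex`.  The last two contain `a`, `b ∈ P` with
`Be a b` (for the model of `rich_ex`: take `b` for the empty tuple and then `a` for the tuple `one b`),
so they do not satisfy `HasK _ 0`, `HasK _ 1` (`Be_trans`), and these are preserved by isomorphisms as in
`HasK_iso` (`es_tp`, `P_tp`, `FS_tp`).  `HasK_iso` distinguishes the first two.  An isomorphism `σ` from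
the model of `mod2` to the model of `rich_ex`: for the tuple `σ c` there is `x = σ y ∈ P` with
`FS (one x) (σ c)`, so `FS (one y) c` (`FS_tp`, `es_tp`): contradiction. -/
theorem four_models (T : L.Theory) (hL : L.card ≤ Cardinal.aleph0) (hT : N ⊨ T) (K : Ctx L N)
    (hsym : ∀ a ∈ K.P, ∀ b ∈ K.P, ¬ K.Be b a → ¬ K.Be a b) : HasModels L T 4 := by
  have := K.ne
  obtain ⟨S0, c0, k0⟩ := mod0 K hL
  obtain ⟨S1, c1, k1⟩ := mod1 K hL hsym
  obtain ⟨S2, c2, c, hcS, hc0, hc1, hcB, hc2⟩ := mod2 K hL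
  obtain ⟨S3, c3, k3⟩ := rich_ex K hL
  have b2 : bmodB K S2 := ⟨c 0, hcS 0, c 1, hcS 1, hc0, hc1, hcB⟩
  have b3 : bmodB K S3 := by
    obtain ⟨b, hb, hbP, -⟩ := k3 0 (fun i => i.elim0) (fun i => i.elim0)
    obtain ⟨a, ha, haP, hab⟩ := k3 1 (fun _ => b) (fun _ => hb)
    exact ⟨a, ha, b, hb, haP, hbP, K.FS_right hab (fun _ : Unit => (0 : Fin 1))⟩
  have e01 : (S0 ≃[L] S1) → False := fun σ => by
    have := K.HasK_iso S0 S1 σ k0 k1
    omega
  have e02 : (S0 ≃[L] S2) → False := fun σ => bmodB_zero K S0 k0 (bmodB_iso K S2 S0 σ.symm b2)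
  have e03 : (S0 ≃[L] S3) → False := fun σ => bmodB_zero K S0 k0 (bmodB_iso K S3 S0 σ.symm b3)
  have e12 : (S1 ≃[L] S2) → False := fun σ => bmodB_one K S1 k1 (bmodB_iso K S2 S1 σ.symm b2)
  have e13 : (S1 ≃[L] S3) → False := fun σ => bmodB_one K S1 k1 (bmodB_iso K S3 S1 σ.symm b3)
  have e23 : (S2 ≃[L] S3) → False := fun σ => by
    obtain ⟨x, hx, hxP, hFS⟩ := k3 2 (fun i => (σ ⟨c i, hcS i⟩ : N)) (fun i => (σ ⟨c i, hcS i⟩).2)
    obtain ⟨y, hy⟩ : ∃ y : S2, σ y = ⟨x, hx⟩ := ⟨σ.symm ⟨x, hx⟩, σ.apply_symm_apply _⟩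
    have hyx : (σ y : N) = x := by rw [hy]
    have hyP : (y : N) ∈ K.P := by
      have h1 := es_tp S2 S3 σ (fun _ : Unit => y)
      refine K.P_tp (TpEq.symm h1) ?_
      rw [hyx]; exact hxP
    refine hc2 y y.2 hyP ?_
    have h1 := es_tp S2 S3 σ (Sum.elim (fun _ => y) (fun i => (⟨c i, hcS i⟩ : S2)) :
      Unit ⊕ Fin 2 → S2)
    have e1 : (fun i => ((Sum.elim (fun _ => y) (fun i => (⟨c i, hcS i⟩ : S2)) :
        Unit ⊕ Fin 2 → S2) i : N)) = Sum.elim (one (y : N)) c := by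
      funext i
      rcases i with i | i <;> rfl
    have e2 : (fun i => (σ ((Sum.elim (fun _ => y) (fun i => (⟨c i, hcS i⟩ : S2)) :
        Unit ⊕ Fin 2 → S2) i) : N)) =
        Sum.elim (one x) (fun i => (σ ⟨c i, hcS i⟩ : N)) := by
      funext i
      rcases i with i | i
      · exact hyx
      · rfl
    rw [e1, e2] at h1
    exact K.FS_tp (TpEq.symm h1) hFS
  let S : Fin 4 → L.ElementarySubstructure N := ![S0, S1, S2, S3]
  have hS : ∀ i, (S i : Set N).Countable := by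
    intro i
    fin_cases i
    · exact c0
    · exact c1
    · exact c2
    · exact c3
  refine ⟨fun i => Theory.ModelType.of T (S i), fun i => (hS i).to_subtype,
    fun i j hij => ⟨fun σ => ?_⟩⟩
  have key : ∀ i j : Fin 4, i < j → (S i ≃[L] S j) → False := by
    intro i j hlt τ
    fin_cases i <;> fin_cases j
    · exact absurd hlt (lt_irrefl _)
    · exact e01 τ
    · exact e02 τ
    · exact e03 τ
    · exact absurd hlt (by decide)
    · exact absurd hlt (lt_irrefl _)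
    · exact e12 τ
    · exact e13 τ
    · exact absurd hlt (by decide)
    · exact absurd hlt (by decide)
    · exact absurd hlt (lt_irrefl _)
    · exact e23 τ
    · exact absurd hlt (by decide)
    · exact absurd hlt (by decide)
    · exact absurd hlt (by decide)
    · exact absurd hlt (lt_irrefl _)
  rcases lt_or_gt_of_ne hij with hlt | hlt
  · exact key i j hlt σ
  · exact key j i hlt σ.symm

end Pool.Agent.MNM
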