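import Pool.Agent.MNM.Core

/-! MNM: the Baire category argument in a small theory. -/

open FirstOrder FirstOrder.Language
open scoped Pointwise
open Pool.Agent.VCM

namespace Pool.Agent.MNM.Ctx

variable {L : FirstOrder.Language.{0, 0}} {N : Type} [L.Structure N] (K : Ctx L N)

include K in
/-- Countably many types over a finite tuple.
Proof: use an equivalence `e : α ⊕ Unit ≃ Fin n` and `K.small n`: representatives `f j`.  For those
`j` for which there is some `x` with `TpEq (ap c x) (f j ∘ e)` let `g j` be such an `x`, else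
anything. -/
theorem types_over {α : Type} [Finite α] (c : α → N) :
    ∃ g : ℕ → N, ∀ x : N, ∃ j, TpEq L (ap c x) (ap c (g j)) := by
  classical
  have hne : Nonempty N := K.ne
  obtain ⟨n, ⟨e⟩⟩ := Finite.exists_equiv_fin (α ⊕ Unit)
  obtain ⟨f, hf⟩ := K.small n
  refine ⟨fun j => if h : ∃ x, TpEq L (ap c x) (f j ∘ e) then h.choose else Classical.arbitrary N,
    fun x => ?_⟩
  obtain ⟨j, hj⟩ := hf (ap c x ∘ e.symm)
  have h1 : TpEq L (ap c x) (f j ∘ e) := by
    have := hj.comp e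
    have e1 : (ap c x ∘ e.symm) ∘ e = ap c x := by
      funext k
      simp
    rwa [e1] at this
  refine ⟨j, ?_⟩
  have hex : ∃ x, TpEq L (ap c x) (f j ∘ e) := ⟨x, h1⟩
  beta_reduce
  rw [dif_pos hex]
  exact h1.trans hex.choose_spec.symm

/-- Baire category.  `ρ` describes a nonempty closed set `Kc = {x | ∀ i, ρ i (one x)}`, `𝒰` is a
family of open sets; everything is definable over the level `S n`.  Then some `U ∈ 𝒰` inside the
given `U₀` meets `Kc`, and one type over `c` (the one of `x₀`) is dense in `Kc ∩ U`.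
Proof: suppose not.  Enumerate the types over `c` by `types_over`: `g 0, g 1, …`.  Build recursively
`U₀ ⊇ U 1 ⊇ U 2 ⊇ …` in `𝒰`, all meeting `Kc`, such that no element of `Kc ∩ U (j+1)` has the type
of `g j` over `c` (this is possible: the negation of the conclusion for `U j` and `x₀ := g j`).  By
saturation (`K.lev.sat_rel n`, index type `I ⊕ ℕ`, `κ := Unit`) there is `x ∈ Kc ∩ ⋂ U j`; its type
is that of some `g j`: contradiction. -/
theorem baire {α : Type} [Finite α] (c : α → N) (n : ℕ) {I : Type} (ρ : I → (Unit → N) → Prop)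
    (hρ : ∀ i, DfnO L (K.lev.S n) (ρ i)) (𝒰 : Set ((Unit → N) → Prop))
    (h𝒰 : ∀ U ∈ 𝒰, DfnO L (K.lev.S n) U) (U₀ : (Unit → N) → Prop) (hU₀ : U₀ ∈ 𝒰)
    (h0 : ∃ x : N, (∀ i, ρ i (one x)) ∧ U₀ (one x)) :
    ∃ U ∈ 𝒰, (∀ x : N, U (one x) → U₀ (one x)) ∧ (∃ x : N, (∀ i, ρ i (one x)) ∧ U (one x)) ∧
      ∃ x₀ : N, ∀ V ∈ 𝒰, (∀ x : N, V (one x) → U (one x)) →
        (∃ x : N, (∀ i, ρ i (one x)) ∧ V (one x)) →
        ∃ x : N, (∀ i, ρ i (one x)) ∧ V (one x) ∧ TpEq L (ap c x) (ap c x₀) := by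
  classical
  by_contra hcon
  obtain ⟨g, hg⟩ := K.types_over c
  let St := {U : (Unit → N) → Prop // U ∈ 𝒰 ∧ (∀ x : N, U (one x) → U₀ (one x)) ∧
    ∃ x : N, (∀ i, ρ i (one x)) ∧ U (one x)}
  have hstep : ∀ (U : St) (x₀ : N), ∃ V : St, (∀ x : N, V.1 (one x) → U.1 (one x)) ∧
      ∀ x : N, (∀ i, ρ i (one x)) → V.1 (one x) → ¬ TpEq L (ap c x) (ap c x₀) := by
    intro U x₀
    by_contra hc
    refine hcon ⟨U.1, U.2.1, U.2.2.1, U.2.2.2, x₀, fun V hV hVU hVx => ?_⟩
    by_contra hc2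
    push Not at hc2
    exact hc ⟨⟨V, hV, fun x hx => U.2.2.1 x (hVU x hx), hVx⟩, hVU, hc2⟩
  choose nx hnx1 hnx2 using hstep
  let sq : ℕ → St := fun k => Nat.rec ⟨U₀, hU₀, fun _ h => h, h0⟩ (fun j U => nx U (g j)) k
  have hsq : ∀ k, sq (k + 1) = nx (sq k) (g k) := fun k => rfl
  have hmono : ∀ k d, ∀ x : N, (sq (k + d)).1 (one x) → (sq k).1 (one x) := by
    intro k d x
    induction d with
    | zero => exact fun h => h
    | succ d ih =>
      intro h
      refine ih (hnx1 (sq (k + d)) (g (k + d)) x ?_)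
      exact h
  obtain ⟨x, -, hx⟩ := K.lev.sat_rel n (κ := Unit) (I := I ⊕ ℕ)
    (fun _ => (⟨K.lev.ne.some, K.lev.mono (Nat.zero_le n) K.lev.ne.some_mem⟩, 0))
    (fun _ _ _ => rfl) (Sum.elim ρ (fun j => (sq j).1)) (by
      rintro (i | j)
      · exact hρ i
      · exact h𝒰 _ (sq j).2.1) (by
      intro F
      obtain ⟨y, hy1, hy2⟩ := (sq (F.sup (Sum.elim (fun _ => 0) id))).2.2.2
      refine ⟨one y, ?_⟩
      rintro (i | j) hi
      · exact hy1 i
      · have hle : j ≤ F.sup (Sum.elim (fun _ => 0) id) := Finset.le_sup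
          (f := (Sum.elim (fun _ => 0) id : I ⊕ ℕ → ℕ)) hi
        obtain ⟨d, hd⟩ := Nat.exists_eq_add_of_le hle
        rw [hd] at hy2
        exact hmono j d y hy2)
  obtain ⟨j, hj⟩ := hg (x ())
  exact hnx2 (sq j) (g j) (x ()) (fun i => hx (Sum.inl i)) (hx (Sum.inr (j + 1))) hj

end Pool.Agent.MNM.Ctx
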