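import Pool.Agent.MNM.Core

/-! MNM: few types imply a formula of degree one. -/

open FirstOrder FirstOrder.Language
open scoped Pointwise
open Pool.Agent.VCM

namespace Pool.Agent.MNM

variable {L : FirstOrder.Language.{0, 0}}

/-- Proof.  Suppose not: every `δ'` (implying `δ` in `M`) with infinitely many solutions in `M` can be split:
there is `φ` such that `δ' ⊓ φ` and `δ' ⊓ φ.not` both have infinitely many solutions in `M`.  This gives a
tree of formulas `D s` (`s : List Bool`), `D [] = δ`, `D (true :: s) = D s ⊓ φ_s`,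
`D (false :: s) = D s ⊓ φ_s.not`.  Let `N`, `f`, `Λ` be given by `exists_monster L M`.  For every
`b : ℕ → Bool` the formulas `D (b|n)` are consistent with each other in `M` (decreasing), so by
saturation (`Λ.satK 0`, or `sat_rel`) there is `x_b : N` satisfying all `D (b|n)`.  For `b ≠ b'` the types
of `x_b`, `x_b'` differ.  `hsm N f 1` gives countably many representatives, and `b ↦` (index of the
type of `x_b`) is an injection from the uncountable type `ℕ → Bool` to `ℕ`: contradiction. -/
theorem deg_one (M : Type) [L.Structure M] [Nonempty M] (δ : L.Formula Unit)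
    (hinf : {x : M | δ.Realize (fun _ => x)}.Infinite)
    (hsm : ∀ (N : Type) [L.Structure N] (_ : M ↪ₑ[L] N), Small L N) :
    ∃ δ' : L.Formula Unit, {x : M | δ'.Realize (fun _ => x)}.Infinite ∧
      (∀ x : M, δ'.Realize (fun _ => x) → δ.Realize (fun _ => x)) ∧
      ∀ φ : L.Formula Unit, {x : M | δ'.Realize (fun _ => x) ∧ φ.Realize (fun _ => x)}.Finite ∨
        {x : M | δ'.Realize (fun _ => x) ∧ ¬ φ.Realize (fun _ => x)}.Finite := by
  classical
  by_contra hcon
  push Not at hcon
  let Good : Type := {δ' : L.Formula Unit // {x : M | δ'.Realize (fun _ => x)}.Infinite ∧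
      (∀ x : M, δ'.Realize (fun _ => x) → δ.Realize (fun _ => x))}
  have hch : ∀ g : Good, ∃ φ : L.Formula Unit,
      {x : M | g.1.Realize (fun _ => x) ∧ φ.Realize (fun _ => x)}.Infinite ∧
        {x : M | g.1.Realize (fun _ => x) ∧ ¬ φ.Realize (fun _ => x)}.Infinite := by
    intro g
    obtain ⟨φ, h1, h2⟩ := hcon g.1 g.2.1 g.2.2
    exact ⟨φ, h1, h2⟩
  choose φ hφ using hch
  let ps : Good → Bool → L.Formula Unit := fun g b => if b then φ g else (φ g).not
  let split : Good → Bool → Good := fun g b => ⟨g.1 ⊓ ps g b, by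
    have h0 : {x : M | (g.1 ⊓ ps g b).Realize (fun _ => x)} =
        {x : M | g.1.Realize (fun _ => x) ∧ (ps g b).Realize (fun _ => x)} := by
      ext x
      simp only [Set.mem_setOf_eq, Formula.realize_inf]
    refine ⟨?_, fun x hx => ?_⟩
    · rw [h0]
      cases b with
      | true =>
        have := (hφ g).1
        simpa [ps] using this
      | false =>
        have := (hφ g).2
        simpa [ps, Formula.realize_not] using this
    · rw [Formula.realize_inf] at hx
      exact g.2.2 x hx.1⟩
  let sq : (ℕ → Bool) → ℕ → Good := fun b n =>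
    Nat.rec (⟨δ, hinf, fun _ h => h⟩ : Good) (fun k g => split g (b k)) n
  have sq_succ : ∀ b n, sq b (n + 1) = split (sq b n) (b n) := fun b n => rfl
  have sq_val : ∀ b n, (sq b (n + 1)).1 = (sq b n).1 ⊓ ps (sq b n) (b n) := fun b n => rfl
  -- agreement
  have sq_congr : ∀ (b b' : ℕ → Bool) n, (∀ k < n, b k = b' k) → sq b n = sq b' n := by
    intro b b' n
    induction n with
    | zero => intro _; rfl
    | succ n ih =>
      intro h
      rw [sq_succ, sq_succ, ih (fun k hk => h k (by omega)), h n (by omega)]
  -- decreasing in M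
  have sq_anti : ∀ (b : ℕ → Bool) (n m : ℕ), n ≤ m → ∀ x : M,
      (sq b m).1.Realize (fun _ => x) → (sq b n).1.Realize (fun _ => x) := by
    intro b n m hnm x
    induction m, hnm using Nat.le_induction with
    | base => exact id
    | succ m hm ih =>
      intro h
      rw [sq_val, Formula.realize_inf] at h
      exact ih h.1
  obtain ⟨N, iN, f, Λ, -⟩ := exists_monster L M
  have hne : Nonempty N := Λ.nonempty
  -- realisations
  have hreal : ∀ b : ℕ → Bool, ∃ x : N, ∀ n, (sq b n).1.Realize (fun _ => x) := by
    intro b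
    obtain ⟨s0, hs0⟩ := Λ.ne
    obtain ⟨x, -, hx⟩ := Λ.satK 0 (ι := Empty) (κ := Unit) (fun i => i.elim) (fun i => i.elim)
      (fun _ => (⟨s0, hs0⟩, 0)) (fun _ _ _ => rfl)
      (Set.range fun n => (sq b n).1.relabel (Sum.inr : Unit → Empty ⊕ Unit)) (by
        intro T₀ hT₀
        have hbd : ∃ m : ℕ, ∀ ψ ∈ T₀, ∃ n ≤ m,
            (sq b n).1.relabel (Sum.inr : Unit → Empty ⊕ Unit) = ψ := by
          have hch2 : ∀ ψ : L.Formula (Empty ⊕ Unit), ∃ n, ψ ∈ T₀ →
              (sq b n).1.relabel (Sum.inr : Unit → Empty ⊕ Unit) = ψ := by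
            intro ψ
            by_cases h : ψ ∈ T₀
            · obtain ⟨n, hn⟩ := hT₀ h
              exact ⟨n, fun _ => hn⟩
            · exact ⟨0, fun h' => absurd h' h⟩
          choose nn hnn using hch2
          exact ⟨T₀.sup nn, fun ψ hψ => ⟨nn ψ, Finset.le_sup hψ, hnn ψ hψ⟩⟩
        obtain ⟨m, hm⟩ := hbd
        obtain ⟨y, hy⟩ := (sq b m).2.1.nonempty
        refine ⟨fun _ => f y, fun ψ hψ => ?_⟩
        obtain ⟨n, hn, rfl⟩ := hm ψ hψ
        rw [Formula.realize_relabel]
        have h1 : (sq b n).1.Realize (fun _ => y) := sq_anti b n m hn y hy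
        have h2 := (f.map_formula (sq b n).1 (fun _ => y)).2 h1
        exact h2)
    refine ⟨x (), fun n => ?_⟩
    have := hx _ ⟨n, rfl⟩
    rw [Formula.realize_relabel] at this
    exact this
  choose x hx using hreal
  obtain ⟨F, hF⟩ := hsm N f 1
  have hidx : ∀ b : ℕ → Bool, ∃ j, TpEq L (fun _ : Fin 1 => x b) (F j) := fun b => hF _
  choose idx hidx using hidx
  have hinj : Function.Injective idx := by
    intro b b' hbb
    by_contra hne'
    have hex : ∃ n, b n ≠ b' n := by
      by_contra h
      push Not at h
      exact hne' (funext h)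
    have h1 : TpEq L (fun _ : Fin 1 => x b) (fun _ : Fin 1 => x b') :=
      (hidx b).trans (by rw [hbb]; exact (hidx b').symm)
    have h2 : TpEq L (fun _ : Unit => x b) (fun _ : Unit => x b') :=
      h1.comp (fun _ : Unit => (0 : Fin 1))
    have hmin : ∀ k < Nat.find hex, b k = b' k := by
      intro k hk
      have := Nat.find_min hex hk
      push Not at this
      exact this
    have hn := Nat.find_spec hex
    set n := Nat.find hex with hndef
    have e1 : sq b n = sq b' n := sq_congr b b' n hmin
    have r1 := hx b (n + 1)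
    have r2 := hx b' (n + 1)
    rw [sq_val, Formula.realize_inf] at r1 r2
    rw [← e1] at r2
    have r1' := r1.2
    have r2' := (h2 _).2 r2.2
    cases hb : b n <;> cases hb' : b' n
    · exact hn (by rw [hb, hb'])
    · rw [hb] at r1'
      rw [hb'] at r2'
      simp only [ps, Bool.false_eq_true, if_false, if_true, Formula.realize_not] at r1' r2'
      exact r1' r2'
    · rw [hb] at r1'
      rw [hb'] at r2'
      simp only [ps, Bool.false_eq_true, if_false, if_true, Formula.realize_not] at r1' r2'
      exact r2' r1'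
    · exact hn (by rw [hb, hb'])
  refine Function.cantor_injective (fun s : Set ℕ => idx (fun n => decide (n ∈ s))) ?_
  intro s t hst
  have h := hinj hst
  ext n
  have := congrFun h n
  simpa using this

end Pool.Agent.MNM
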