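import Pool.Agent.MNM.Cl
import Pool.Agent.MNM.Isol

/-! MNM: existence of special elements. -/

open FirstOrder FirstOrder.Language
open scoped Pointwise
open Pool.Agent.VCM

namespace Pool.Agent.MNM.Ctx

variable {L : FirstOrder.Language.{0, 0}} {N : Type} [L.Structure N] (K : Ctx L N)

/-- Proof: `K.isolated` for the closed set `{z ∈ D | z ∉ D0, Ind c z}`: by `not_Ind_iff` it is
described by the relations `z ∈ D`, `z ≠ m` (`m ∈ D0`), `¬ S (ap c z)` (`S` definable, `Clf S`). -/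
theorem special_ex {α : Type} [Finite α] (c : α → N) {R : (α ⊕ Unit → N) → Prop} (hR : Dfn L R)
    {z : N} (hz : z ∈ K.P) (h : K.Ind c z) (hRz : R (ap c z)) :
    ∃ d : N, K.Special c d ∧ R (ap c d) := by
  classical
  obtain ⟨n, hn⟩ := K.lev.finite_level c
  let J := {φ : L.Formula (α ⊕ Unit) // K.Clf (fun v => φ.Realize v)}
  let ρ : Option K.D0 ⊕ J → (Unit → N) → Prop := fun i x =>
    match i with
    | Sum.inl none => x () ∈ K.D
    | Sum.inl (some d) => ¬ x () = (d : N)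
    | Sum.inr φ => ¬ φ.1.Realize (ap c (x ()))
  have hρ : ∀ i, DfnO L (K.lev.S n) (ρ i) := by
    rintro ((_ | d) | φ)
    · exact DfnO.of_dfn0 K.dfnD
    · have := DfnO.of_dfn (L := L) (B := K.lev.S n) (κ := Unit)
        (R := fun u : Unit ⊕ Unit → N => ¬ u (Sum.inr ()) = u (Sum.inl ()))
        (Dfn.eq _ _).not (fun _ => (d : N))
        (fun _ => K.lev.mono (Nat.zero_le n) (K.lvl d.2))
      exact this.of_iff fun x => Iff.rfl
    · exact (DfnO.of_dfn (Dfn.formula φ.1).not c hn).of_iff fun x => Iff.rfl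
  have key : ∀ y : N, (∀ i, ρ i (one y)) ↔ (y ∈ K.P ∧ K.Ind c y) := by
    intro y
    constructor
    · intro hy
      have hyP : y ∈ K.P := ⟨hy (Sum.inl none), fun h0 => hy (Sum.inl (some ⟨y, h0⟩)) rfl⟩
      refine ⟨hyP, ?_⟩
      by_contra hcon
      obtain ⟨R', ⟨φ, hφ⟩, hcl, h2⟩ := (K.not_Ind_iff hyP).1 hcon
      have hcl' : K.Clf (fun v => φ.Realize v) := by
        intro m hm
        refine (hcl m hm).subset ?_
        rintro y ⟨h3, h4⟩
        exact ⟨h3, (hφ _).1 h4⟩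
      exact hy (Sum.inr ⟨φ, hcl'⟩) ((hφ _).2 h2)
    · rintro ⟨hyP, hI⟩
      rintro ((_ | d) | φ)
      · exact hyP.1
      · intro he
        apply hyP.2
        rw [show y = (d : N) from he]
        exact d.2
      · intro hr
        exact (K.not_Ind_iff hyP).2 ⟨_, Dfn.formula φ.1, φ.2, hr⟩ hI
  obtain ⟨x, hx1, hx2, S, hS, hx3, hx4⟩ := K.isolated c n hn ρ hρ hR ⟨z, (key z).2 ⟨hz, h⟩, hRz⟩
  obtain ⟨hxP, hxI⟩ := (key x).1 hx1
  exact ⟨x, ⟨hxP, hxI, S, hS, hx3, fun w hw hwI hwS => hx4 w ((key w).2 ⟨hw, hwI⟩) hwS⟩, hx2⟩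

/-- `Special` depends only on the type: the automorphism of `K.hom` and `FS_smul`, `dfn_aut` -/
theorem Special_tp {α : Type} [Finite α] {c c' : α → N} {d d' : N} (h : K.Special c d)
    (ht : TpEq L (ap c d) (ap c' d')) : K.Special c' d' := by
  obtain ⟨h1, h2, R, hR, h3, h4⟩ := h
  obtain ⟨g, hg⟩ := K.hom ht
  have hc : c' = fun i => g • c i := funext fun i => (hg (Sum.inl i)).symm
  have hd : d' = g • d := (hg (Sum.inr ())).symm
  subst hc hd
  refine ⟨(K.aut_P g d).2 h1, K.Ind_tp ht h2, R, hR, (hR.tp ht).1 h3, fun z hz hI hRz => ?_⟩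
  have e1 : ap (fun i => g • c i) z = fun k => g • (ap c (g⁻¹ • z) k) := by
    rw [← ap_smul, smul_inv_smul]
  have hz' : g⁻¹ • z ∈ K.P := (K.aut_P g⁻¹ z).2 hz
  have hI' : K.Ind c (g⁻¹ • z) := by
    have h5 : K.FS (fun i => g • c i) (fun j : Unit => g • (one (g⁻¹ • z) j)) := by
      have e2 : (fun j : Unit => g • (one (g⁻¹ • z) j)) = one z := by
        funext j
        exact smul_inv_smul g z
      rw [e2]
      exact hI
    exact (K.FS_smul g).1 h5
  have hR' : R (ap c (g⁻¹ • z)) := by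
    rw [e1, dfn_aut g hR] at hRz
    exact hRz
  have h6 := h4 _ hz' hI' hR'
  rw [e1]
  exact ((aut_tp g _).trans h6).trans ht

end Pool.Agent.MNM.Ctx
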