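import Pool.Agent.MNM.OTools
import Pool.Agent.MNM.SpecEx

/-! MNM: chains of special elements. -/

open FirstOrder FirstOrder.Language
open scoped Pointwise
open Pool.Agent.VCM

namespace Pool.Agent.MNM

variable {L : FirstOrder.Language.{0, 0}} {N : Type} [L.Structure N]

/-- the segment `d i, …, d (j-1)` as a tuple -/
def seg (d : ℕ → N) (i j : ℕ) : Set.Ico i j → N := fun l => d l

/-- a strongly special increasing chain `d 0 < d 1 < … < d (k-1)`: every element is special over
every final segment of the previous ones -/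
structure SS (K : Ctx L N) (O : Ord K) (k : ℕ) (d : ℕ → N) : Prop where
  spec : ∀ j < k, ∀ i ≤ j, K.Special (seg d i j) (d j)
  lt : ∀ j, j + 1 < k → O.lt (d j) (d (j + 1))

/-- Initial segments are finitely satisfiable over the final segments.
Proof by induction on `k` (restrict `SS` to smaller `k`).  `k = 0` and `i = k`: the final segment is
empty, `K.FS_empty`.  Step from `k` to `k + 1`, `i ≤ k`: put `A := seg d 0 i`, `c := seg d i k`; it is
enough to show `K.FS A (ap c (d k))` (then `FS_right` with the reindexing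
`Ico i (k+1) → Ico i k ⊕ Unit`).  Let `R (A; c, d k)` hold and suppose that no `A'` in `D0` satisfies
`R (A'; c, d k)`.  Let `τ` witness that `d k` is special over `c`.  Put
`Φ (A; c) := ¬ O.Pi {z | τ (ap c z) ∧ R (A; ap c z)}` (definable: `dfn_Pi` for tuples
`Ico 0 i ⊕ Ico i k`).  `Φ (A; c)` by `O.Q1` for the tuple `(A, c)` and the element `d k`
(`Ind (A, c) (d k)`: from `Special (seg d 0 k) (d k)` by `FS_left`).  By the induction hypothesis
`FS A c` there is `A'` in `D0` with `Φ (A'; c)`.  By `O.Q2` there is `z ∈ P` with `τ (ap c z)`,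
`R (A'; ap c z)` and `Ind (A', c) z`, so `Ind c z` (`FS_left`) and `TpEq (ap c z) (ap c (d k))`.
An automorphism `g` fixes `c` and maps `z` to `d k` (`K.hom`), so `R (g A'; ap c (d k))` with
`g A'` in `D0`: contradiction. -/
theorem SS.fs {K : Ctx L N} {O : Ord K} {k : ℕ} {d : ℕ → N} (h : SS K O k d) :
    ∀ i ≤ k, K.FS (seg d 0 i) (seg d i k) := by
  induction k with
  | zero =>
    intro i hi
    obtain rfl : i = 0 := Nat.le_zero.1 hi
    have : IsEmpty (Set.Ico 0 0) := ⟨fun x => absurd x.2.2 (Nat.not_lt_zero _)⟩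
    exact K.FS_empty (fun x => absurd x.2.2 (Nat.not_lt_zero _)) _
  | succ k ih =>
    intro i hi
    have h' : SS K O k d := ⟨fun j hj i hi => h.spec j (Nat.lt_succ_of_lt hj) i hi,
      fun j hj => h.lt j (Nat.lt_succ_of_lt hj)⟩
    have hP : ∀ j ≤ k, d j ∈ K.P := fun j hj => (h.spec j (Nat.lt_succ_of_le hj) j le_rfl).1
    rcases Nat.lt_or_ge k i with hki | hik
    · obtain rfl : i = k + 1 := le_antisymm hi hki
      have : IsEmpty (Set.Ico (k + 1) (k + 1)) :=
        ⟨fun x => absurd x.2.2 (Nat.not_lt.2 x.2.1)⟩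
      exact K.FS_empty (fun x => (hP _ (Nat.le_of_lt_succ x.2.2)).1) _
    · have key : K.FS (seg d 0 i) (ap (seg d i k) (d k)) := by
        intro R hR hRc
        by_contra hcon
        obtain ⟨hdk, hIc, τ, hτ, hτd, hτu⟩ := h.spec k (Nat.lt_succ_self k) i hik
        let S : ((Set.Ico 0 i ⊕ Set.Ico i k) ⊕ Unit → N) → Prop := fun u =>
          τ (ap (fun l => u (Sum.inl (Sum.inr l))) (u (Sum.inr ()))) ∧
            R (Sum.elim (fun l => u (Sum.inl (Sum.inl l)))
              (ap (fun l => u (Sum.inl (Sum.inr l))) (u (Sum.inr ()))))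
        have hS : Dfn L S := by
          refine Dfn.and ?_ ?_
          · exact Dfn.comp hτ (Sum.elim (fun l => Sum.inl (Sum.inr l)) (fun _ => Sum.inr ()))
              (fun u => ap (fun l => u (Sum.inl (Sum.inr l))) (u (Sum.inr ())))
              (by rintro v (l | l) <;> rfl)
          · exact Dfn.comp hR (Sum.elim (fun l => Sum.inl (Sum.inl l))
                (Sum.elim (fun l => Sum.inl (Sum.inr l)) (fun _ => Sum.inr ())))
              (fun u => Sum.elim (fun l => u (Sum.inl (Sum.inl l)))
                (ap (fun l => u (Sum.inl (Sum.inr l))) (u (Sum.inr ()))))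
              (by rintro v (l | l | l) <;> rfl)
        have hw : ∀ l, (Sum.elim (seg d 0 i) (seg d i k) : _ → N) l ∈ K.D := by
          rintro (l | l)
          · exact (hP _ (le_of_lt (lt_of_lt_of_le l.2.2 hik))).1
          · exact (hP _ (le_of_lt l.2.2)).1
        have hIw : K.Ind (Sum.elim (seg d 0 i) (seg d i k)) (d k) := by
          have h0 := (h.spec k (Nat.lt_succ_self k) 0 (Nat.zero_le _)).2.1
          let f : Set.Ico 0 i ⊕ Set.Ico i k → Set.Ico 0 k := Sum.elim
            (fun l => ⟨l, l.2.1, lt_of_lt_of_le l.2.2 hik⟩)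
            (fun l => ⟨l, Nat.zero_le _, l.2.2⟩)
          have h1 : K.FS (seg d 0 k ∘ f) (one (d k)) := K.FS_left h0 f
          have h2 : (Sum.elim (seg d 0 i) (seg d i k) : _ → N) = seg d 0 k ∘ f := by
            funext l
            rcases l with l | l <;> rfl
          rw [h2]
          exact h1
        have hΦ := O.Q1 hw hS hdk ⟨hτd, hRc⟩ hIw
        obtain ⟨A', hA', hΦ'⟩ := ih h' i hik (fun v => ¬ O.Pi (fun z => S (ap v z)))
          (O.dfn_Pi hS).not hΦ
        have hw' : ∀ l, (Sum.elim A' (seg d i k) : _ → N) l ∈ K.D := by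
          rintro (l | l)
          · exact K.sub (hA' l)
          · exact (hP _ (le_of_lt l.2.2)).1
        obtain ⟨z, hzP, ⟨hzτ, hzR⟩, hzI⟩ := O.Q2 hw' hS hΦ'
        have hzc : K.Ind (seg d i k) z := K.FS_left hzI Sum.inr
        obtain ⟨g, hg⟩ := K.hom (hτu z hzP hzc hzτ)
        apply hcon
        refine ⟨fun l => g • A' l, fun l => (K.aut_D0 g _).2 (hA' l), ?_⟩
        have h3 := (Ctx.dfn_aut g hR (Sum.elim A' (ap (seg d i k) z))).2 hzR
        have h4 : (fun l => g • (Sum.elim A' (ap (seg d i k) z) : _ → N) l) =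
            Sum.elim (fun l => g • A' l) (ap (seg d i k) (d k)) := by
          funext l
          rcases l with l | l
          · rfl
          · exact hg l
        rwa [h4] at h3
      classical
      let f : Set.Ico i (k + 1) → Set.Ico i k ⊕ Unit := fun l =>
        if hl : (l : ℕ) < k then Sum.inl ⟨l, l.2.1, hl⟩ else Sum.inr ()
      have h1 := K.FS_right key f
      have h2 : seg d i (k + 1) = ap (seg d i k) (d k) ∘ f := by
        funext l
        by_cases hl : (l : ℕ) < k
        · simp only [Function.comp, f, dif_pos hl]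
          rfl
        · simp only [Function.comp, f, dif_neg hl]
          have : (l : ℕ) = k := le_antisymm (Nat.le_of_lt_succ l.2.2) (Nat.not_lt.1 hl)
          show d l = d k
          rw [this]
      rw [h2]
      exact h1

end Pool.Agent.MNM
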