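import Pool.Agent.MNM.CH

/-! MNM: existence of strongly special chains. -/

open FirstOrder FirstOrder.Language
open scoped Pointwise
open Pool.Agent.VCM

namespace Pool.Agent.MNM

variable {L : FirstOrder.Language.{0, 0}} {N : Type} [L.Structure N]

/-- `P` is not empty (`D0` is infinite: `K.fin_of_sub` with the relation `True`) -/
theorem P_nonempty (K : Ctx L N) : ∃ x, x ∈ K.P := by
  by_contra hcon
  have h1 : ∀ x ∈ K.D, x ∈ K.D0 := fun x hx => by
    by_contra h
    exact hcon ⟨x, hx, h⟩
  have h2 := K.fin_of_sub (γ := Empty) (m := fun i => i.elim) (fun i => i.elim)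
    (R := fun _ => True) Dfn.true' (fun x hx _ => h1 x hx)
  exact K.inf (h2.subset fun x hx => ⟨K.sub hx, trivial⟩)

/-- every element of `P` is special over the empty tuple -/
theorem Chain_empty (K : Ctx L N) {α : Type} [IsEmpty α] (c : α → N) {z : N} (hz : z ∈ K.P) :
    K.Special c z := by
  refine ⟨hz, K.FS_D0 (fun i => isEmptyElim i) _, fun v => v (Sum.inr ()) ∈ K.D,
    K.dfn_D _, hz.1, ?_⟩
  intro w hw _ _
  have h := (K.uniqP hw hz).comp (Sum.elim (fun i => isEmptyElim i) id : α ⊕ Unit → Unit)
  have h1 : ∀ x : N, ap c x = one x ∘ (Sum.elim (fun i => isEmptyElim i) id : α ⊕ Unit → Unit) := by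
    intro x
    funext l
    rcases l with l | l
    · exact isEmptyElim l
    · rfl
  rw [h1 w, h1 z]
  exact h

theorem Chain_ico_empty (k : ℕ) : IsEmpty (Set.Ico k k) :=
  ⟨fun x => absurd x.2.2 (Nat.not_lt.2 x.2.1)⟩

/-- One step: a new element special over all final segments.
Claim (by downward induction on `i ≤ k`): there is `z ∈ P` with `Special (seg d j k) z` for all `j`
with `i ≤ j ≤ k`, and `d (k-1) < z` if `0 < k` and `i < k`.
`i = k`: any `z ∈ P` (the tuple is empty; `Special` holds for every element of `P`: relation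
`v (inr ()) ∈ D`, `K.uniqP`).
`i = k - 1`: `O.up` for the empty tuple and `d (k-1)` gives `z₀ > d (k-1)` with
`Ind (d (k-1)) z₀`; then `K.special_ex` for the tuple `seg d (k-1) k` and the relation
`d (k-1) < ·`.
Step from `i + 1 < k` to `i`: let `z` be given for `i + 1`, `R` the relation witnessing
`Special (seg d (i+1) k) z`.  By `SS.fs` (and `FS_left`, `FS_right`) `FS (one (d i)) (seg d (i+1) k)`;
by `K.FS_ext` (`e' := one z`) there is an automorphism `g` fixing `seg d (i+1) k` with
`FS (one (g (d i))) (seg d (i+1) k, z)`; with `FS (seg d (i+1) k) (one z)` and `K.FS_trans` we get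
`FS (one (g (d i)), seg d (i+1) k) (one z)`; apply `g⁻¹` (`FS_smul`): `Ind (seg d i k) (g⁻¹ z)`.
`g⁻¹ z` satisfies `R` over `seg d (i+1) k` (same type as `z`).  By `K.special_ex` for the tuple
`seg d i k` and the relation `R` there is `z'` special over `seg d i k` with `R`.  `z' ∈ P`,
`Ind (seg d (i+1) k) z'` (`FS_left`), so `z'` has the same type as `z` over `seg d (i+1) k`; hence it
is special over `seg d j k` for `j ≥ i + 1` (`Special_tp`, subtuples) and `d (k-1) < z'`. -/
theorem chain_step {K : Ctx L N} {O : Ord K} {k : ℕ} {d : ℕ → N} (h : SS K O k d) :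
    ∃ z : N, (∀ j ≤ k, K.Special (seg d j k) z) ∧ (∀ j, j + 1 = k → O.lt (d j) z) := by
  have hP : ∀ j < k, d j ∈ K.P := fun j hj => (h.spec j hj j le_rfl).1
  have claim : ∀ n ≤ k, ∃ z : N, (∀ j, k ≤ j + n → j ≤ k → K.Special (seg d j k) z) ∧
      (0 < n → ∀ j, j + 1 = k → O.lt (d j) z) := by
    intro n
    induction n with
    | zero =>
      intro _
      obtain ⟨z, hz⟩ := P_nonempty K
      refine ⟨z, fun j hj hjk => ?_, fun h0 => absurd h0 (lt_irrefl 0)⟩
      obtain rfl : j = k := le_antisymm hjk hj
      have := Chain_ico_empty j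
      exact Chain_empty K _ hz
    | succ n ih =>
      intro hn
      obtain ⟨z, hz1, hz2⟩ := ih (Nat.le_of_succ_le hn)
      rcases Nat.eq_zero_or_pos n with hn0 | hn0
      · subst hn0
        obtain ⟨k', rfl⟩ : ∃ k', k = k' + 1 := ⟨k - 1, by omega⟩
        have hdP : d k' ∈ K.P := hP k' (Nat.lt_succ_self _)
        obtain ⟨z₀, hlt, -, hI⟩ := O.up (c := fun i : Empty => (i.elim : N)) hdP
          (K.FS_D0 (fun i => i.elim) _)
        have hz₀P : z₀ ∈ K.P := O.P_up hdP hlt
        have hI1 : K.FS (one (d k')) (one z₀) := K.FS_left hI (fun _ => Sum.inr ())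
        have hI2 : K.Ind (seg d k' (k' + 1)) z₀ := by
          have h1 := K.FS_left hI1 (fun _ : Set.Ico k' (k' + 1) => ())
          have h2 : seg d k' (k' + 1) = one (d k') ∘ (fun _ : Set.Ico k' (k' + 1) => ()) := by
            funext l
            have : (l : ℕ) = k' := le_antisymm (Nat.le_of_lt_succ l.2.2) l.2.1
            show d l = d k'
            rw [this]
          rw [h2]
          exact h1
        obtain ⟨z', hz', hlt'⟩ := K.special_ex (seg d k' (k' + 1))
          (O.dfn_lt (α := Set.Ico k' (k' + 1) ⊕ Unit)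
            (Sum.inl ⟨k', le_rfl, Nat.lt_succ_self _⟩) (Sum.inr ())) hz₀P hI2 hlt
        refine ⟨z', fun j hj hjk => ?_, fun _ j hj => ?_⟩
        · rcases Nat.lt_or_ge j (k' + 1) with hj' | hj'
          · obtain rfl : j = k' := by omega
            exact hz'
          · obtain rfl : j = k' + 1 := by omega
            have := Chain_ico_empty (k' + 1)
            exact Chain_empty K _ hz'.1
        · obtain rfl : j = k' := by omega
          exact hlt'
      · -- the general step
        obtain ⟨i, hi⟩ : ∃ i, i + (n + 1) = k := ⟨k - (n + 1), by omega⟩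
        have hik : i < k := by omega
        obtain ⟨hzP, hzI, R, hR, hRz, hRu⟩ := hz1 (i + 1) (by omega) (by omega)
        have hfs : K.FS (one (d i)) (seg d (i + 1) k) :=
          K.FS_left (h.fs (i + 1) (by omega))
            (fun _ : Unit => (⟨i, Nat.zero_le _, Nat.lt_succ_self _⟩ : Set.Ico 0 (i + 1)))
        obtain ⟨g, -, hg2, hg3⟩ := K.FS_ext hfs (one z)
        have h1 : K.FS (Sum.elim (fun _ : Unit => g • d i) (seg d (i + 1) k)) (one z) :=
          K.FS_trans hzI hg3
        have hginv : ∀ l, g⁻¹ • seg d (i + 1) k l = seg d (i + 1) k l := fun l => by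
          have := congrArg (fun x => g⁻¹ • x) (hg2 l)
          simp only [inv_smul_smul] at this
          exact this.symm
        have h2 : K.Ind (seg d i k) (g⁻¹ • z) := by
          classical
          let f : Set.Ico i k → Unit ⊕ Set.Ico (i + 1) k := fun l =>
            if hl : i + 1 ≤ (l : ℕ) then Sum.inr ⟨l, hl, l.2.2⟩ else Sum.inl ()
          have h3 := K.FS_left (K.FS_smul_of h1 g⁻¹) f
          have h4 : seg d i k = (fun l => g⁻¹ • (Sum.elim (fun _ : Unit => g • d i)
              (seg d (i + 1) k) : _ → N) l) ∘ f := by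
            funext l
            by_cases hl : i + 1 ≤ (l : ℕ)
            · simp only [Function.comp, f, dif_pos hl, Sum.elim_inr]
              rw [hginv]
              rfl
            · simp only [Function.comp, f, dif_neg hl, Sum.elim_inl, inv_smul_smul]
              have : (l : ℕ) = i := le_antisymm (by omega) l.2.1
              show d l = d i
              rw [this]
          rw [h4]
          exact h3
        have hz1P : g⁻¹ • z ∈ K.P := (K.aut_P _ _).2 hzP
        have hRz1 : R (ap (seg d (i + 1) k) (g⁻¹ • z)) := by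
          have h5 := (Ctx.dfn_aut g⁻¹ hR (ap (seg d (i + 1) k) z)).2 hRz
          have h6 : (fun l => g⁻¹ • ap (seg d (i + 1) k) z l) =
              ap (seg d (i + 1) k) (g⁻¹ • z) := by
            funext l
            rcases l with l | l
            · exact hginv l
            · rfl
          rwa [h6] at h5
        let e : Set.Ico (i + 1) k → Set.Ico i k := fun l => ⟨l, by have := l.2.1; omega, l.2.2⟩
        have hR' : Dfn L (fun u : Set.Ico i k ⊕ Unit → N =>
            R (ap (fun l => u (Sum.inl (e l))) (u (Sum.inr ())))) :=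
          Dfn.comp hR (Sum.map e id) (fun u => ap (fun l => u (Sum.inl (e l))) (u (Sum.inr ())))
            (by rintro v (l | l) <;> rfl)
        obtain ⟨z', hz', hRz'⟩ := K.special_ex (seg d i k) hR' hz1P h2 hRz1
        have hz'I : K.Ind (seg d (i + 1) k) z' := K.FS_left hz'.2.1 e
        have htp : TpEq L (ap (seg d (i + 1) k) z') (ap (seg d (i + 1) k) z) :=
          hRu z' hz'.1 hz'I hRz'
        refine ⟨z', fun j hj hjk => ?_, fun _ j hj => ?_⟩
        · rcases Nat.lt_or_ge i j with hij | hij
          · have h7 := hz1 j (by omega) hjk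
            refine K.Special_tp h7 ?_
            let e' : Set.Ico j k → Set.Ico (i + 1) k := fun l =>
              ⟨l, by have := l.2.1; omega, l.2.2⟩
            have h8 := htp.symm.comp (Sum.map e' id)
            have h9 : ∀ x : N, ap (seg d j k) x = ap (seg d (i + 1) k) x ∘ Sum.map e' id := by
              intro x
              funext l
              rcases l with l | l <;> rfl
            rw [h9 z, h9 z']
            exact h8
          · obtain rfl : j = i := by omega
            exact hz'
        · have h10 : O.lt (d j) z := hz2 hn0 j hj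
          have hjm : i + 1 ≤ j := by omega
          have h11 := (O.dfn_lt (α := Set.Ico (i + 1) k ⊕ Unit)
            (Sum.inl ⟨j, hjm, by omega⟩) (Sum.inr ())).tp htp
          exact h11.2 h10
  obtain ⟨z, h1, h2⟩ := claim k le_rfl
  refine ⟨z, fun j hj => h1 j (by omega) hj, fun j hj => h2 (by omega) j hj⟩

/-- Induction on `k` with `chain_step`: replace `d` by `fun l => if l = k then z else d l`
(`seg` of the new sequence up to `k` is the old one). -/
theorem chain_ex (K : Ctx L N) (O : Ord K) (k : ℕ) : ∃ d : ℕ → N, SS K O k d := by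
  induction k with
  | zero =>
    obtain ⟨z, -⟩ := P_nonempty K
    exact ⟨fun _ => z, ⟨fun j hj => absurd hj (Nat.not_lt_zero _),
      fun j hj => absurd hj (Nat.not_lt_zero _)⟩⟩
  | succ k ih =>
    obtain ⟨d, hd⟩ := ih
    obtain ⟨z, hz1, hz2⟩ := chain_step hd
    classical
    let d' : ℕ → N := fun l => if l = k then z else d l
    have hd' : ∀ l < k, d' l = d l := fun l hl => if_neg (ne_of_lt hl)
    have hdk : d' k = z := if_pos rfl
    have hseg : ∀ i j, j ≤ k → seg d' i j = seg d i j := by
      intro i j hj
      funext l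
      exact hd' l (lt_of_lt_of_le l.2.2 hj)
    refine ⟨d', ⟨fun j hj i hi => ?_, fun j hj => ?_⟩⟩
    · rw [hseg i j (Nat.le_of_lt_succ hj)]
      rcases Nat.lt_or_ge j k with hjk | hjk
      · rw [hd' j hjk]
        exact hd.spec j hjk i hi
      · obtain rfl : j = k := le_antisymm (Nat.le_of_lt_succ hj) hjk
        rw [hdk]
        exact hz1 i hi
    · rcases Nat.lt_or_ge (j + 1) k with hjk | hjk
      · rw [hd' j (by omega), hd' (j + 1) hjk]
        exact hd.lt j hjk
      · obtain rfl : k = j + 1 := by omega
        rw [hd' j (by omega), hdk]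
        exact hz2 j rfl

end Pool.Agent.MNM
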