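import Pool.Agent.MNM.FSX

/-! MNM: the closure operator: for `x ∈ P`, `¬ K.Ind c x` is read `x ∈ cl(c)`. -/

open FirstOrder FirstOrder.Language
open scoped Pointwise
open Pool.Agent.VCM

namespace Pool.Agent.MNM.Ctx

variable {L : FirstOrder.Language.{0, 0}} {N : Type} [L.Structure N] (K : Ctx L N)

/-- Characterisation of the closure by relations with finite fibres over `D0`.
(→) there is a definable `R` with `R (c, x)` and no `c' ∈ D0` with `R (c', x)`.  `Clf R`: for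
`m ∈ D0` the set `{y ∈ D | R (ap m y)}` has no element `y` in `P` (`K.aut_of_P`: `g • y = x`, then
`R (g m, x)` with `g m ∈ D0`), so it is finite by `fin_of_sub`.
(←) if `Ind c x`, there is `c' ∈ D0` with `R (ap c' x)`; the set `{y ∈ D | R (ap c' y)}` is finite,
hence contained in `D0` (`sub_of_fin`), but `x ∈ P`. -/
theorem not_Ind_iff {α : Type} {c : α → N} {x : N} (hx : x ∈ K.P) :
    ¬ K.Ind c x ↔ ∃ R : (α ⊕ Unit → N) → Prop, Dfn L R ∧ K.Clf R ∧ R (ap c x) := by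
  constructor
  · intro h
    unfold Ind FS at h
    push Not at h
    obtain ⟨R, hR, h1, h2⟩ := h
    refine ⟨R, hR, ?_, h1⟩
    intro m hm
    refine K.fin_of_sub hm hR fun y hy hRy => ?_
    by_contra hy0
    obtain ⟨g, hg⟩ := K.aut_of_P (x := y) (y := x) ⟨hy, hy0⟩ hx
    have h3 := (dfn_aut g hR (ap m y)).2 hRy
    rw [← ap_smul, hg] at h3
    exact h2 (fun i => g • m i) (fun i => (K.aut_D0 g _).2 (hm i)) h3
  · rintro ⟨R, hR, hcl, h1⟩ hI
    obtain ⟨c', hc', h2⟩ := hI R hR h1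
    exact hx.2 (K.sub_of_fin hc' hR (hcl c' hc') x hx.1 h2)

/-- Transitivity of the closure.
Proof: take `R` with `Clf R`, `R (ap c x)`.  For each `i` there is a definable `Z i` with `Clf (Z i)`
and `Z i (ap d (c i))`: for `c i ∈ P` by `h'`, for `c i ∈ D0` the finite definable set `A` of
`K.alg`.  Let `R' (d, x) := ∃ c' : α → N, (∀ i, c' i ∈ D ∧ Z i (ap d (c' i))) ∧ R (ap c' x)`.
`Clf R'`: for `m ∈ D0` the `c'` range over a finite product of finite sets contained in `D0`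
(`sub_of_fin`), and for each of them the set of `x` is finite. -/
theorem cl_trans {α β : Type} [Finite α] [Finite β] {c : α → N} {d : β → N}
    (hc : ∀ i, c i ∈ K.D) {x : N} (hx : x ∈ K.P) (h : ¬ K.Ind c x)
    (h' : ∀ i, c i ∈ K.P → ¬ K.Ind d (c i)) : ¬ K.Ind d x := by
  have hne : Nonempty N := K.ne
  obtain ⟨R, hR, hcl, h1⟩ := (K.not_Ind_iff hx).1 h
  have hch : ∀ i, ∃ Z : (β ⊕ Unit → N) → Prop, Dfn L Z ∧ K.Clf Z ∧ Z (ap d (c i)) := by
    intro i
    by_cases hi : c i ∈ K.D0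
    · obtain ⟨A, hA1, hA2, hA3, hA4⟩ := K.alg (c i) hi
      refine ⟨fun u => u (Sum.inr ()) ∈ A, ?_, ?_, hA3⟩
      · exact Dfn.comp hA4 (fun _ => Sum.inr ()) (fun v => fun _ => v (Sum.inr ()))
          (fun _ _ => rfl)
      · intro m _
        exact hA1.subset fun y hy => hy.2
    · exact (K.not_Ind_iff (c := d) ⟨hc i, hi⟩).1 (h' i ⟨hc i, hi⟩)
  choose Z hZ1 hZ2 hZ3 using hch
  refine (K.not_Ind_iff hx).2 ⟨fun v => ∃ c' : α → N,
    (∀ i, c' i ∈ K.D ∧ Z i (ap (v ∘ Sum.inl) (c' i))) ∧ R (ap c' (v (Sum.inr ()))), ?_, ?_, ?_⟩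
  · refine Dfn.exT (R := fun (v : β ⊕ Unit → N) (c' : α → N) =>
      (∀ i, c' i ∈ K.D ∧ Z i (ap (v ∘ Sum.inl) (c' i))) ∧ R (ap c' (v (Sum.inr ()))))
      (Dfn.and (Dfn.finiteAll fun i => Dfn.and ?_ ?_) ?_)
    · exact K.dfn_D (Sum.inr i)
    · exact Dfn.comp (hZ1 i) (Sum.elim (fun b => Sum.inl (Sum.inl b)) (fun _ => Sum.inr i))
        (fun u : (β ⊕ Unit) ⊕ α → N => ap ((u ∘ Sum.inl) ∘ Sum.inl) ((u ∘ Sum.inr) i))
        (by rintro v (k | k) <;> rfl)
    · exact Dfn.comp hR (Sum.elim (fun a => Sum.inr a) (fun _ => Sum.inl (Sum.inr ())))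
        (fun u : (β ⊕ Unit) ⊕ α → N => ap (u ∘ Sum.inr) ((u ∘ Sum.inl) (Sum.inr ())))
        (by rintro v (k | k) <;> rfl)
  · intro m hm
    have hfin : (Set.pi Set.univ (fun i => {z | z ∈ K.D ∧ Z i (ap m z)})).Finite :=
      Set.Finite.pi fun i => hZ2 i m hm
    refine (hfin.biUnion (t := fun c' => {y | y ∈ K.D ∧ R (ap c' y)}) fun c' hc' => ?_).subset ?_
    · refine hcl c' fun i => ?_
      have h3 : c' i ∈ K.D ∧ Z i (ap m (c' i)) := hc' i (Set.mem_univ i)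
      exact K.sub_of_fin hm (hZ1 i) (hZ2 i m hm) _ h3.1 h3.2
    · rintro y ⟨hy, c', h3, h4⟩
      exact Set.mem_biUnion (x := c') (fun i _ => h3 i) ⟨hy, h4⟩
  · exact ⟨c, fun i => ⟨hc i, hZ3 i⟩, h1⟩

/-- `cl_trans` for adding closure elements to the tuple.
Proof: if `¬ K.Ind (Sum.elim x c) g`, apply `cl_trans` with the tuple `Sum.elim x c` and `d := c`
(`not_Ind_self` for the coordinates of `c`). -/
theorem Ind_app {α β : Type} [Finite α] [Finite β] {c : α → N} {x : β → N}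
    (hc : ∀ i, c i ∈ K.D) (hx : ∀ j, x j ∈ K.D) {g : N} (hg : g ∈ K.P) (h : K.Ind c g)
    (h' : ∀ j, x j ∈ K.P → ¬ K.Ind c (x j)) : K.Ind (Sum.elim x c) g := by
  by_contra hcon
  refine K.cl_trans (c := Sum.elim x c) (d := c) ?_ hg hcon ?_ h
  · rintro (j | i)
    · exact hx j
    · exact hc i
  · rintro (j | i) hi
    · exact h' j hi
    · exact K.not_Ind_self i hi

/-- the relation each in the closure of the other is transitive on `P` (from `cl_trans`) -/
theorem Be_trans {x y z : N} (hx : x ∈ K.P) (hy : y ∈ K.P) (hz : z ∈ K.P)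
    (h : ¬ K.Be y x) (h' : ¬ K.Be z y) : ¬ K.Be z x :=
  K.cl_trans (c := one y) (d := one z) (fun _ => hy.1) hx h (fun _ _ => h')

end Pool.Agent.MNM.Ctx
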