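import Pool.Agent.MNM.P1
import Pool.Agent.MNM.SpecEx
import Pool.Agent.MNM.IsoT

/-! MNM: the second exchange lemma for special extensions. -/

open FirstOrder FirstOrder.Language
open scoped Pointwise
open Pool.Agent.VCM

namespace Pool.Agent.MNM.Ord

variable {L : FirstOrder.Language.{0, 0}} {N : Type} [L.Structure N] {K : Ctx L N} (O : Ord K)

include O in
/-- `d` special over `c`, `x` isolated over `(c, d)`, `x ∉ cl(c)`: then `d ∈ cl(c, x)`.
Proof: `θ ((c, d), x)` isolates the type of `x` over `(c, d)`, `τ (c, d)` witnesses that `d` is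
special over `c`.  For `y ∈ D` put `B y := {z ∈ D | θ ((c, z), y) ∧ τ (c, z)}`.
(a) if `z ∈ B y`, `z ∈ P`, `Ind c z`, then `(c, z) ≡ (c, d)` and (automorphism) `(c, z, y) ≡ (c, d, x)`.
(b) if `y ∈ D` is isolated over `c`, then `Pi (B y)`: if `y ∈ D0` or `y ∈ P` (then `y ∈ cl(c)` by
`P1`), no `z ∈ B y` in `P` has `Ind c z` (otherwise `(c, y) ≡ (c, x)` by (a), so `y ∈ P` and
`Ind c y`, `Ind_tp`, contradiction with `P1`), so every `z ∈ B y ∩ P` is in `cl(c) ⊆ cl(c, y)`
(`FS_left`), and `Pi_of_cl` for the tuple `(c, y)` applies.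
(c) hence `Pi (B y)` for all `y ∈ D`: otherwise by `K.Iso_dense` there is `y ∈ D` isolated over `c`
with `¬ Pi (B y)` (definable by `dfn_Pi`).
(d) in particular `Pi (B x)`.  Suppose `Ind (c, x) d`.  `Q1` for the tuple `(c, x)` and the element
`d ∈ B x` gives `¬ Pi (B x)`: contradiction. -/
theorem E1 {α : Type} [Finite α] {c : α → N} (hc : ∀ i, c i ∈ K.D) {d x : N}
    (hd : K.Special c d) (hx : x ∈ K.P) (h : Iso L (ap c d) (one x)) (hcl : K.Ind c x) :
    ¬ K.Ind (ap c x) d := by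
  classical
  have hne := K.ne
  obtain ⟨θ, hθ, hθ1, hθ2⟩ := h
  obtain ⟨hdP, hdI, τ, hτ, hτ1, hτ2⟩ := hd
  set B : ((α ⊕ Unit) ⊕ Unit → N) → Prop := fun v =>
    θ (Sum.elim (ap (v ∘ Sum.inl ∘ Sum.inl) (v (Sum.inr ()))) (one (v (Sum.inl (Sum.inr ()))))) ∧
    τ (ap (v ∘ Sum.inl ∘ Sum.inl) (v (Sum.inr ()))) with hB
  have hBd : Dfn L B := by
    refine Dfn.and ?_ ?_
    · exact Dfn.comp hθ (Sum.elim (Sum.elim (fun i => Sum.inl (Sum.inl i)) (fun _ => Sum.inr ()))
        (fun _ => Sum.inl (Sum.inr ()))) _ (by rintro v ((k | k) | k) <;> rfl)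
    · exact Dfn.comp hτ (Sum.elim (fun i => Sum.inl (Sum.inl i)) (fun _ => Sum.inr ())) _
        (by rintro v (k | k) <;> rfl)
  have hBi : ∀ y z : N, B (ap (ap c y) z) ↔ θ (Sum.elim (ap c z) (one y)) ∧ τ (ap c z) :=
    fun y z => Iff.rfl
  -- (a)
  have hA : ∀ y z : N, z ∈ K.P → K.Ind c z → B (ap (ap c y) z) → TpEq L (ap c y) (ap c x) := by
    intro y z hz hzI hBz
    obtain ⟨h1, h2⟩ := (hBi y z).1 hBz
    obtain ⟨g, hg⟩ := K.hom (hτ2 z hz hzI h2)
    have hgc : ∀ i, g • c i = c i := fun i => hg (Sum.inl i)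
    have hgz : g • z = d := hg (Sum.inr ())
    have h3 := (Ctx.dfn_aut g hθ (Sum.elim (ap c z) (one y))).2 h1
    have e1 : (fun i => g • Sum.elim (ap c z) (one y) i) =
        Sum.elim (ap c d) (one (g • y)) := by
      funext k
      rcases k with (k | k) | k
      · exact hgc k
      · exact hgz
      · rfl
    rw [e1] at h3
    have h4 := hθ2 _ h3
    have h5 := (Ctx.aut_tp g (ap c y)).symm
    have e2 : (fun i => g • ap c y i) = ap c (g • y) := by
      funext k
      rcases k with k | k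
      · exact hgc k
      · rfl
    rw [e2] at h5
    refine h5.trans ?_
    have e3 : ∀ w : N, ap c w = Sum.elim (ap c d) (one w) ∘
        (Sum.elim (fun i => Sum.inl (Sum.inl i)) (fun _ => Sum.inr ())) := by
      intro w
      funext k
      rcases k with k | k <;> rfl
    rw [e3 (g • y), e3 x]
    exact TpEq.comp h4 _
  -- (b)
  have hPi : ∀ y ∈ K.D, Iso L c (one y) → O.Pi (fun z => B (ap (ap c y) z)) := by
    intro y hy hiso
    refine O.Pi_of_cl (c := ap c y) ?_ hBd ?_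
    · rintro (i | i)
      · exact hc i
      · exact hy
    · intro z hz hBz hI
      have hI' : K.Ind c z := K.FS_left hI Sum.inl
      have ht := hA y z hz hI' hBz
      have hyP : y ∈ K.P := by
        refine K.P_tp (x := x) ?_ hx
        have := TpEq.comp ht.symm (fun _ : Unit => (Sum.inr () : α ⊕ Unit))
        exact this
      exact O.P1 hyP hiso (K.Ind_tp ht.symm hcl)
  -- (c)
  have hall : ∀ y ∈ K.D, O.Pi (fun z => B (ap (ap c y) z)) := by
    intro y hy
    by_contra hcon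
    obtain ⟨y', ⟨h1, h2⟩, h3⟩ := K.Iso_dense c
      (R := fun v : α ⊕ Unit → N => v (Sum.inr ()) ∈ K.D ∧ ¬ O.Pi (fun z => B (ap v z)))
      ((K.dfn_D _).and (O.dfn_Pi hBd).not) (x := y) ⟨hy, hcon⟩
    exact h2 (hPi y' h1 h3)
  -- (d)
  intro hI
  refine O.Q1 (c := ap c x) ?_ hBd hdP ((hBi x d).2 ⟨hθ1, hτ1⟩) hI (hall x hx.1)
  rintro (i | i)
  · exact hc i
  · exact hx.1

end Pool.Agent.MNM.Ord
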