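import Pool.Agent.MNM.ExA
import Pool.Agent.MNM.ExB

/-! MNM: the two exchange lemmas. -/

open FirstOrder FirstOrder.Language
open scoped Pointwise
open Pool.Agent.VCM

namespace Pool.Agent.MNM.Ord

variable {L : FirstOrder.Language.{0, 0}} {N : Type} [L.Structure N] {K : Ctx L N} (O : Ord K)



end Pool.Agent.MNM.Ord
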