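import Pool.Agent.MNM.ClsY
import Pool.Agent.MNM.Exch

/-! MNM: classification of the elements isolated over a strongly special chain. -/

open FirstOrder FirstOrder.Language
open scoped Pointwise
open Pool.Agent.VCM

namespace Pool.Agent.MNM

variable {L : FirstOrder.Language.{0, 0}} {N : Type} [L.Structure N]

private theorem cls_base {K : Ctx L N} {d : ℕ → N} {n : ℕ} {y : N}
    (hi : Iso L (seg d 0 (n + 1)) (one y)) : Iso L (ap (seg d 0 n) (d n)) (one y) := by
  let f : Set.Ico 0 n ⊕ Unit → Set.Ico 0 (n + 1) :=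
    Sum.elim (fun l => ⟨l, Nat.zero_le _, Nat.lt_succ_of_lt l.2.2⟩)
      (fun _ => ⟨n, Nat.zero_le _, Nat.lt_succ_self n⟩)
  have hf : Function.Surjective f := by
    rintro ⟨l, hl1, hl2⟩
    by_cases h : l < n
    · exact ⟨Sum.inl ⟨l, Nat.zero_le _, h⟩, rfl⟩
    · refine ⟨Sum.inr (), ?_⟩
      apply Subtype.ext
      show n = l
      have : l < n + 1 := hl2
      omega
  have h1 := K.Iso_base hi f hf
  have h2 : seg d 0 (n + 1) ∘ f = ap (seg d 0 n) (d n) := by
    funext k
    rcases k with k | k <;> rfl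
  rw [h2] at h1
  exact h1

private theorem cls_ind {K : Ctx L N} {d : ℕ → N} {j n : ℕ} (hjn : j ≤ n) {y : N}
    (h : K.Ind (seg d 0 n) y) : K.Ind (seg d 0 j) y :=
  K.FS_left h (fun l : Set.Ico 0 j =>
    (⟨l, Nat.zero_le _, lt_of_lt_of_le l.2.2 hjn⟩ : Set.Ico 0 n))

private theorem cls_ind1 {K : Ctx L N} {d : ℕ → N} {l n : ℕ} (hl : l < n) {y : N}
    (h : K.Ind (seg d 0 n) y) : K.Be (d l) y :=
  K.FS_left h (fun _ : Unit => (⟨l, Nat.zero_le _, hl⟩ : Set.Ico 0 n))

private theorem cls_P {K : Ctx L N} {O : Ord K} {k : ℕ} {d : ℕ → N} (h : SS K O k d) {l : ℕ}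
    (hl : l < k) : d l ∈ K.P := (h.spec l hl l le_rfl).1

private theorem cls_lt {K : Ctx L N} {O : Ord K} {k : ℕ} {d : ℕ → N} (h : SS K O k d) {i : ℕ} :
    ∀ J, i < J → J < k → O.lt (d i) (d J) := by
  intro J hiJ
  induction J, hiJ using Nat.le_induction with
  | base => intro hk; exact h.lt i hk
  | succ J hJ ih =>
    intro hk
    exact O.tr (ih (by omega)) (h.lt J hk)

/-- Iterated `E2`: from `n` down to `j`; `¬ Ind (seg d 0 l) y` for all `l ≥ j` by `FS_left`;
`seg d 0 (l+1)` and `ap (seg d 0 l) (d l)` are reindexings of each other (`Iso_base`). -/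
theorem iso_down {K : Ctx L N} {O : Ord K} {k : ℕ} {d : ℕ → N} (h : SS K O k d) {j n : ℕ}
    (hjn : j ≤ n) (hn : n ≤ k) {y : N} (hy : y ∈ K.P) (hi : Iso L (seg d 0 n) (one y))
    (hcl : ¬ K.Ind (seg d 0 j) y) : Iso L (seg d 0 j) (one y) := by
  induction n, hjn using Nat.le_induction with
  | base => exact hi
  | succ n hjn ih =>
    apply ih (by omega)
    exact O.E2 (fun l => (cls_P h (by have := l.2.2; omega)).1) (h.spec n (by omega) 0
      (Nat.zero_le _)) hy (cls_base (K := K) hi) (fun h2 => hcl (cls_ind hjn h2))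

theorem cls {K : Ctx L N} {O : Ord K} {k : ℕ} {d : ℕ → N} (h : SS K O k d) (j : ℕ) (hj : j ≤ k)
    {x : N} (hx : x ∈ K.P) (hi : Iso L (seg d 0 j) (one x)) :
    ∃ i < j, ¬ K.Be (d i) x ∧ ¬ K.Be x (d i) := by
  induction j using Nat.strong_induction_on generalizing x with
  | _ j ih =>
    cases j with
    | zero =>
      exact absurd (K.FS_D0 (c := seg d 0 0) (fun l => absurd l.2.2 (Nat.not_lt_zero _)) (one x))
        (O.P1 hx hi)
    | succ J =>
      have hJ : J < k := by omega
      have hP1 : ¬ K.Ind (seg d 0 (J + 1)) x := O.P1 hx hi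
      have hPJ : d J ∈ K.P := cls_P h hJ
      by_cases hA : K.Ind (seg d 0 J) x
      · -- case B
        have h1 : ¬ K.Be (d J) x := by
          refine K.cl_trans (c := seg d 0 (J + 1)) (d := one (d J))
            (fun l => (cls_P h (by have := l.2.2; omega)).1) hx hP1 ?_
          intro l hl
          by_cases hlJ : (l : ℕ) < J
          · exact O.lt_cl (cls_P h (by omega)) (cls_lt h J hlJ hJ)
          · have h3 : (l : ℕ) = J := by have : (l : ℕ) < J + 1 := l.2.2; omega
            have h4 : seg d 0 (J + 1) l = d J := by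
              show d l = d J
              rw [h3]
            rw [h4]
            exact K.not_Ind_self (c := one (d J)) () hPJ
        have h2 : ¬ K.Ind (ap (seg d 0 J) x) (d J) :=
          O.E1 (fun l => (cls_P h (by have := l.2.2; omega)).1) (h.spec J hJ 0 (Nat.zero_le _)) hx
            (cls_base (K := K) hi) hA
        by_cases hC : ∀ l < J, ¬ K.Be x (d l)
        · refine ⟨J, Nat.lt_succ_self J, h1, ?_⟩
          refine K.cl_trans (c := ap (seg d 0 J) x) (d := one x) ?_ hPJ h2 ?_
          · rintro (l | l)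
            · exact (cls_P h (by have := l.2.2; omega)).1
            · exact hx.1
          · rintro (l | l) _
            · exact hC l l.2.2
            · exact K.not_Ind_self (c := one x) () hx
        · push Not at hC
          obtain ⟨i, hiJ, hBe⟩ := hC
          obtain ⟨y, hy, hyx, hyi, hInd, hIso⟩ := below_ex h hiJ hJ hx h1 h2
          have h5 : Iso L (seg d 0 (J + 1)) (one y) :=
            K.Iso_sub (K.Iso_trans hi hIso) (fun _ : Unit => Sum.inr ())
          have h6 : ¬ K.Be (d i) y := O.lt_cl hy hyi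
          have h7 : Iso L (seg d 0 (i + 1)) (one y) :=
            iso_down h (by omega) hj hy h5 (fun h8 => h6 (cls_ind1 (Nat.lt_succ_self i) h8))
          obtain ⟨l, hl, h9, h10⟩ := ih (i + 1) (by omega) (by omega) hy h7
          have hli : l = i := by
            by_contra hne
            exact h9 (cls_ind1 (n := i) (by omega) hInd)
          rw [hli] at h10
          exact absurd hBe (K.Be_trans (cls_P h (by omega)) hy hx h10 (O.lt_cl hy hyx))
      · obtain ⟨i, hi1, hi2⟩ := ih J (Nat.lt_succ_self J) (by omega) hx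
          (iso_down h (Nat.le_succ J) hj hx hi hA)
        exact ⟨i, by omega, hi2⟩

end Pool.Agent.MNM
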