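import Pool.Agent.MNM.CH
import Pool.Agent.MNM.IsoT

/-! MNM: the key step of the classification. -/

open FirstOrder FirstOrder.Language
open scoped Pointwise
open Pool.Agent.VCM

namespace Pool.Agent.MNM

variable {L : FirstOrder.Language.{0, 0}} {N : Type} [L.Structure N]

/-- `FS_left`/restriction: a strongly special chain may be shortened -/
theorem SS.mono {K : Ctx L N} {O : Ord K} {k : ℕ} {d : ℕ → N} (h : SS K O k d) {j : ℕ}
    (hj : j ≤ k) : SS K O j d :=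
  ⟨fun l hl => h.spec l (lt_of_lt_of_le hl hj), fun l hl => h.lt l (lt_of_lt_of_le hl hj)⟩

private theorem clsY_lt {K : Ctx L N} {O : Ord K} {k : ℕ} {d : ℕ → N} (h : SS K O k d) {i : ℕ} :
    ∀ J, i < J → J < k → O.lt (d i) (d J) := by
  intro J hiJ
  induction J, hiJ using Nat.le_induction with
  | base => intro hk; exact h.lt i hk
  | succ J hJ ih =>
    intro hk
    exact O.tr (ih (by omega)) (h.lt J hk)

/-- the indices of the joined tuple -/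
private def clsYidx (i J : ℕ) : Set.Ico 0 J → Set.Ico 0 i ⊕ Set.Ico i (J + 1) := fun l =>
  if hl : (l : ℕ) < i then Sum.inl ⟨l, Nat.zero_le _, hl⟩
  else Sum.inr ⟨l, le_of_not_gt hl, Nat.lt_succ_of_lt l.2.2⟩

private theorem clsY_inf {K : Ctx L N} (O : Ord K) {q : N} (hq : q ∈ K.P) :
    (∃ u ∈ K.D0, O.lt u q) ∧ (∀ m ∈ K.D0, ∃ u ∈ K.D0, O.lt m q → O.lt m u ∧ O.lt u q) := by
  constructor
  · obtain ⟨u, hu, -, h2⟩ := O.acc q hq (γ := Empty) (fun k => k.elim) (fun k => k.elim)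
      (fun _ => True) Dfn.true' trivial
    exact ⟨u, hu, h2⟩
  · intro m hm
    by_cases hmq : O.lt m q
    · obtain ⟨u, hu, h1, h2⟩ := O.acc q hq (γ := Unit) (one m) (fun _ => hm)
        (fun v => O.lt (v (Sum.inl ())) (v (Sum.inr ()))) (O.dfn_lt _ _) hmq
      exact ⟨u, hu, fun _ => ⟨h1, h2⟩⟩
    · exact ⟨m, hm, fun h => absurd h hmq⟩

private theorem clsY_infinite {K : Ctx L N} (O : Ord K) {q : N} (hq : q ∈ K.P) :
    {x | x ∈ K.D0 ∧ O.lt x q}.Infinite := by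
  intro hfin
  obtain ⟨⟨u0, hu0, hu0q⟩, hstep⟩ := clsY_inf O hq
  have hso : IsStrictOrder N (fun x y => O.lt y x) :=
    { irrefl := fun x => O.irr x
      trans := fun x y z h1 h2 => O.tr h2 h1 }
  have hwf : {x | x ∈ K.D0 ∧ O.lt x q}.WellFoundedOn (fun x y => O.lt y x) :=
    hfin.wellFoundedOn
  obtain ⟨⟨a, ha⟩, -, hmin⟩ := WellFounded.has_min hwf Set.univ
    ⟨⟨u0, hu0, hu0q⟩, trivial⟩
  obtain ⟨u, hu, hu2⟩ := hstep a ha.1
  have hu3 := hu2 ha.2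
  exact hmin ⟨u, hu, hu3.2⟩ trivial hu3.1

theorem below_ex {K : Ctx L N} {O : Ord K} {k : ℕ} {d : ℕ → N} (h : SS K O k d) {i J : ℕ}
    (hiJ : i < J) (hJ : J < k) {x : N} (hx : x ∈ K.P) (h1 : ¬ K.Be (d J) x)
    (h2 : ¬ K.Ind (ap (seg d 0 J) x) (d J)) :
    ∃ y ∈ K.P, O.lt y x ∧ O.lt y (d i) ∧ K.Ind (seg d 0 i) y ∧
      Iso L (ap (seg d 0 (J + 1)) x) (one y) := by
  have hNe := K.ne
  have hP : ∀ l < k, d l ∈ K.P := fun l hl => (h.spec l hl l le_rfl).1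
  have hq : d i ∈ K.P := hP i (by omega)
  have hr : d J ∈ K.P := hP J hJ
  have hqr : O.lt (d i) (d J) := clsY_lt h J hiJ hJ
  -- the two relations
  obtain ⟨R0, dR0, cR0, tR0⟩ := (K.not_Ind_iff (c := one (d J)) hx).1 h1
  obtain ⟨R1, dR1, cR1, tR1⟩ := (K.not_Ind_iff hr).1 h2
  let iB : Set.Ico i (J + 1) := ⟨i, le_rfl, by omega⟩
  let jB : Set.Ico i (J + 1) := ⟨J, by omega, by omega⟩
  let Θ : ((Set.Ico 0 i ⊕ Set.Ico i (J + 1)) ⊕ Unit → N) → Prop := fun u =>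
    u (Sum.inr ()) ∈ K.D ∧ R0 (ap (one (u (Sum.inl (Sum.inr jB)))) (u (Sum.inr ()))) ∧
      R1 (ap (ap (fun l => u (Sum.inl (clsYidx i J l))) (u (Sum.inr ())))
        (u (Sum.inl (Sum.inr jB))))
  have dΘ : Dfn L Θ := by
    refine (K.dfn_D _).and ((Dfn.comp dR0 (Sum.elim (fun _ => Sum.inl (Sum.inr jB))
      (fun _ => Sum.inr ())) (fun u => ap (one (u (Sum.inl (Sum.inr jB)))) (u (Sum.inr ()))) ?_).and
      (Dfn.comp dR1 (Sum.elim (Sum.elim (fun l => Sum.inl (clsYidx i J l)) (fun _ => Sum.inr ()))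
        (fun _ => Sum.inl (Sum.inr jB)))
        (fun u => ap (ap (fun l => u (Sum.inl (clsYidx i J l))) (u (Sum.inr ())))
          (u (Sum.inl (Sum.inr jB)))) ?_))
    · rintro v (b | b) <;> rfl
    · rintro v ((b | b) | b) <;> rfl
  let Yr : ((Set.Ico 0 i ⊕ Set.Ico i (J + 1)) ⊕ Unit → N) → Prop := fun u =>
    u (Sum.inr ()) ∈ K.D ∧ ∃ x', x' ∈ K.D ∧ Θ (ap (u ∘ Sum.inl) x') ∧ O.lt (u (Sum.inr ())) x' ∧
      O.lt (u (Sum.inr ())) (u (Sum.inl (Sum.inr iB))) ∧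
      ∀ w, w ∈ K.D → O.lt w x' → O.lt w (u (Sum.inl (Sum.inr iB))) → ¬ O.lt (u (Sum.inr ())) w
  have dY : Dfn L Yr := by
    refine (K.dfn_D _).and (Dfn.ex1 (R := fun v x' => x' ∈ K.D ∧ Θ (ap (v ∘ Sum.inl) x') ∧
      O.lt (v (Sum.inr ())) x' ∧ O.lt (v (Sum.inr ())) (v (Sum.inl (Sum.inr iB))) ∧
      ∀ w, w ∈ K.D → O.lt w x' → O.lt w (v (Sum.inl (Sum.inr iB))) → ¬ O.lt (v (Sum.inr ())) w) ?_)
    refine (K.dfn_D (Sum.inr ())).and ((Dfn.comp dΘ (Sum.elim (fun b => Sum.inl (Sum.inl b))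
      (fun _ => Sum.inr ())) (fun u => ap ((u ∘ Sum.inl) ∘ Sum.inl) (u (Sum.inr ()))) ?_).and
      ((O.dfn_lt (Sum.inl (Sum.inr ())) (Sum.inr ())).and
      ((O.dfn_lt (Sum.inl (Sum.inr ())) (Sum.inl (Sum.inl (Sum.inr iB)))).and
      (Dfn.all1 (R := fun v w => w ∈ K.D → O.lt w (v (Sum.inr ())) →
        O.lt w (v (Sum.inl (Sum.inl (Sum.inr iB)))) → ¬ O.lt (v (Sum.inl (Sum.inr ()))) w) ?_))))
    · rintro v (b | b) <;> rfl
    · exact (K.dfn_D (Sum.inr ())).imp ((O.dfn_lt (Sum.inr ()) (Sum.inl (Sum.inr ()))).imp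
        ((O.dfn_lt (Sum.inr ()) (Sum.inl (Sum.inl (Sum.inl (Sum.inr iB))))).imp
        (O.dfn_lt (Sum.inl (Sum.inl (Sum.inr ()))) (Sum.inr ())).not))
  -- (α)
  have hα : ∀ v : Set.Ico 0 i → N, (∀ a, v a ∈ K.D0) → ∀ x', 
      Θ (ap (Sum.elim v (seg d i (J + 1))) x') → x' ∈ K.P ∧ O.E x' (d J) := by
    intro v hv x' hΘ
    obtain ⟨hD, hR0, hR1⟩ := hΘ
    have hxP : x' ∈ K.P := by
      refine ⟨hD, fun hx0 => ?_⟩
      have hnI : ¬ K.Ind (ap (fun l => (Sum.elim v (seg d i (J + 1))) (clsYidx i J l)) x')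
          (d J) := (K.not_Ind_iff hr).2 ⟨R1, dR1, cR1, hR1⟩
      refine absurd (h.spec J hJ 0 (Nat.zero_le _)).2.1 (K.cl_trans ?_ hr hnI ?_)
      · rintro (l | l)
        · show (Sum.elim v (seg d i (J + 1))) (clsYidx i J l) ∈ K.D
          unfold clsYidx
          split_ifs with hl
          · exact K.sub (hv _)
          · exact (hP l (by have := l.2.2; omega)).1
        · exact hD
      · rintro (l | l)
        · show (Sum.elim v (seg d i (J + 1))) (clsYidx i J l) ∈ K.P →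
            ¬ K.Ind (seg d 0 J) ((Sum.elim v (seg d i (J + 1))) (clsYidx i J l))
          unfold clsYidx
          split_ifs with hl
          · intro hvP
            exact absurd (hv _) hvP.2
          · intro hvP
            exact K.not_Ind_self (c := seg d 0 J) l (hP l (by have := l.2.2; omega))
        · intro hxP'
          exact absurd hx0 hxP'.2
    refine ⟨hxP, O.E_cl x' hxP (d J) hr ?_⟩
    exact (K.not_Ind_iff (c := one (d J)) hxP).2 ⟨R0, dR0, cR0, hR0⟩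
  -- (β)
  have hEqr : O.E (d i) (d J) := O.E_cl _ hq _ hr (O.lt_cl hq hqr)
  have hβ : ∀ x' ∈ K.P, O.E x' (d J) → ∀ m ∈ K.D0, O.lt m (d i) → O.lt m x' := by
    intro x' hx' hE m hm hmq
    exact O.std (d i) hq x' hx' (O.Etrans hEqr (O.Esymm hE)) m hm hmq
  -- (γ), (δ)
  obtain ⟨⟨u0, hu0, hu0q⟩, hstep⟩ := clsY_inf O hq
  obtain ⟨hh, hhP, hhq, hhFS⟩ := K.exists_coheir (seg d i (J + 1))
    (R := fun v => O.lt (v (Sum.inr ())) (v (Sum.inl iB))) (O.dfn_lt _ _) (clsY_infinite O hq)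
  -- claim 1
  have c1 : ∀ v : Set.Ico 0 i → N, (∀ a, v a ∈ K.D0) → ∀ y', 
      Yr (ap (Sum.elim v (seg d i (J + 1))) y') → y' ∈ K.P ∧ ∀ m ∈ K.D0, O.lt m (d i) →
        O.lt m y' := by
    rintro v hv y' ⟨hyD, x', hx'D, hΘ, hyx', hyq, hmax⟩
    obtain ⟨hx'P, hx'E⟩ := hα v hv x' hΘ
    have hyP : y' ∈ K.P := by
      refine ⟨hyD, fun hy0 => ?_⟩
      obtain ⟨u, hu, hu2⟩ := hstep y' hy0
      have hu3 := hu2 hyq
      exact hmax u (K.sub hu) (hβ x' hx'P hx'E u hu hu3.2) hu3.2 hu3.1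
    refine ⟨hyP, fun m hm hmq => ?_⟩
    have hE : O.E y' (d i) := O.E_cl _ hyP _ hq (O.lt_cl hyP hyq)
    exact O.std (d i) hq y' hyP (O.Esymm hE) m hm hmq
  -- claim 2
  have c2 : ∀ v : Set.Ico 0 i → N, (∀ a, v a ∈ K.D0) → ∀ y', 
      Yr (ap (Sum.elim v (seg d i (J + 1))) y') → O.lt hh y' := by
    intro v hv y' hY
    by_contra hcon
    have hFS := K.FS_param hhFS hv
    obtain ⟨m, hm, hm2⟩ := hFS (fun z => O.lt (z (Sum.inl ())) (z (Sum.inr (Sum.inl iB))) ∧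
      ∃ y', Yr (ap (Sum.elim (fun a => z (Sum.inr (Sum.inr a))) (fun b => z (Sum.inr (Sum.inl b))))
        y') ∧ ¬ O.lt (z (Sum.inl ())) y') (by
      refine (O.dfn_lt _ _).and (Dfn.ex1 (R := fun z y' => Yr (ap (Sum.elim
        (fun a => z (Sum.inr (Sum.inr a))) (fun b => z (Sum.inr (Sum.inl b)))) y') ∧
        ¬ O.lt (z (Sum.inl ())) y') ?_)
      refine (Dfn.comp dY (Sum.elim (Sum.elim (fun a => Sum.inl (Sum.inr (Sum.inr a)))
        (fun b => Sum.inl (Sum.inr (Sum.inl b)))) (fun _ => Sum.inr ()))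
        (fun u => ap (Sum.elim (fun a => (u ∘ Sum.inl) (Sum.inr (Sum.inr a)))
          (fun b => (u ∘ Sum.inl) (Sum.inr (Sum.inl b)))) (u (Sum.inr ()))) ?_).and
        (O.dfn_lt (Sum.inl (Sum.inl ())) (Sum.inr ())).not
      rintro u ((b | b) | b) <;> rfl) ⟨hhq, y', hY, hcon⟩
    obtain ⟨hmq, y2, hY2, hm3⟩ := hm2
    exact hm3 ((c1 v hv y2 hY2).2 (m ()) (hm ()) hmq)
  -- (ε)
  have hFSce : K.FS (seg d 0 i) (seg d i (J + 1)) := (h.mono (j := J + 1) (by omega)).fs i (by omega)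
  obtain ⟨g, hgD0, hge, hgFS⟩ := K.FS_ext hFSce (one hh)
  -- claim 3
  have c3 : ∀ y', Yr (ap (Sum.elim (fun a => g • seg d 0 i a) (seg d i (J + 1))) y') →
      O.lt hh y' := by
    intro y' hY
    by_contra hcon
    obtain ⟨v, hv, y2, hY2, hcon2⟩ := hgFS (fun z => ∃ y', Yr (ap (Sum.elim
      (fun a => z (Sum.inl a)) (fun b => z (Sum.inr (Sum.inl b)))) y') ∧
        ¬ O.lt (z (Sum.inr (Sum.inr ()))) y') (by
      refine (Dfn.ex1 (R := fun z y' => Yr (ap (Sum.elim (fun a => z (Sum.inl a))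
        (fun b => z (Sum.inr (Sum.inl b)))) y') ∧ ¬ O.lt (z (Sum.inr (Sum.inr ()))) y') ?_)
      refine (Dfn.comp dY (Sum.elim (Sum.elim (fun a => Sum.inl (Sum.inl a))
        (fun b => Sum.inl (Sum.inr (Sum.inl b)))) (fun _ => Sum.inr ()))
        (fun u => ap (Sum.elim (fun a => (u ∘ Sum.inl) (Sum.inl a))
          (fun b => (u ∘ Sum.inl) (Sum.inr (Sum.inl b)))) (u (Sum.inr ()))) ?_).and
        (O.dfn_lt (Sum.inl (Sum.inr (Sum.inr ()))) (Sum.inr ())).not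
      rintro u ((b | b) | b) <;> rfl) ⟨y', hY, hcon⟩
    exact hcon2 (c2 v hv y2 hY2)
  -- transport by g⁻¹
  have hh'P : g⁻¹ • hh ∈ K.P := (K.aut_P g⁻¹ hh).2 hhP
  have hgh : g • (g⁻¹ • hh) = hh := smul_inv_smul g hh
  have c4 : ∀ y', Yr (ap (Sum.elim (seg d 0 i) (seg d i (J + 1))) y') →
      O.lt (g⁻¹ • hh) y' := by
    intro y' hY
    have h5 : Yr (ap (Sum.elim (fun a => g • seg d 0 i a) (seg d i (J + 1))) (g • y')) := by
      have h6 := (Ctx.dfn_aut g dY (ap (Sum.elim (seg d 0 i) (seg d i (J + 1))) y')).2 hY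
      have h7 : (fun k => g • ap (Sum.elim (seg d 0 i) (seg d i (J + 1))) y' k) =
          ap (Sum.elim (fun a => g • seg d 0 i a) (seg d i (J + 1))) (g • y') := by
        funext b
        rcases b with (b | b) | b
        · rfl
        · exact hge b
        · rfl
      rw [h7] at h6
      exact h6
    have h8 := c3 _ h5
    rw [← O.lt_aut g, hgh]
    exact h8
  have hInd' : K.Ind (seg d 0 i) (g⁻¹ • hh) := by
    have h9 : K.FS (fun a => g • seg d 0 i a) (one hh) := K.FS_right hgFS (fun _ : Unit => Sum.inr ())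
    have h10 : (one hh : Unit → N) = fun j => g • (one (g⁻¹ • hh)) j := by
      funext j
      exact hgh.symm
    rw [h10] at h9
    exact (K.FS_smul g).1 h9
  -- (ζ)
  have hExr : O.E x (d J) := O.E_cl x hx (d J) hr h1
  have hu0x : O.lt u0 x := hβ x hx hExr u0 hu0 hu0q
  obtain ⟨z, -, hzx, hzq, hzmax⟩ := O.max_below (c := one x) (fun _ => hx.1)
    (R := fun v => O.lt (v (Sum.inr ())) (v (Sum.inl ()))) (O.dfn_lt _ _) (x := u0) (y := d i)
    hu0x hu0q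
  let i0 : Set.Ico 0 (J + 1) := ⟨i, Nat.zero_le _, by omega⟩
  obtain ⟨y, ⟨hyx, hyq, hymax⟩, hyIso⟩ := K.Iso_dense (ap (seg d 0 (J + 1)) x)
    (R := fun v => O.lt (v (Sum.inr ())) (v (Sum.inl (Sum.inr ()))) ∧
      O.lt (v (Sum.inr ())) (v (Sum.inl (Sum.inl i0))) ∧
      ∀ w, O.lt w (v (Sum.inl (Sum.inr ()))) → O.lt w (v (Sum.inl (Sum.inl i0))) →
        ¬ O.lt (v (Sum.inr ())) w) (by
      refine (O.dfn_lt _ _).and ((O.dfn_lt _ _).and (Dfn.all1 (R := fun v w =>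
        O.lt w (v (Sum.inl (Sum.inr ()))) → O.lt w (v (Sum.inl (Sum.inl i0))) →
        ¬ O.lt (v (Sum.inr ())) w) ?_))
      exact (O.dfn_lt (Sum.inr ()) (Sum.inl (Sum.inl (Sum.inr ())))).imp
        ((O.dfn_lt (Sum.inr ()) (Sum.inl (Sum.inl (Sum.inl i0)))).imp
        (O.dfn_lt (Sum.inl (Sum.inr ())) (Sum.inr ())).not)) (x := z) ⟨hzx, hzq, hzmax⟩
  have hyx' : O.lt y x := hyx
  have hyq' : O.lt y (d i) := hyq
  have hYy : Yr (ap (Sum.elim (seg d 0 i) (seg d i (J + 1))) y) := by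
    refine ⟨(O.ltD hyx').1, x, hx.1, ⟨hx.1, tR0, ?_⟩, hyx', hyq', fun w _ hw1 hw2 => hymax w hw1 hw2⟩
    have h11 : (fun l => (ap (Sum.elim (seg d 0 i) (seg d i (J + 1)) : _ → N) x)
        (Sum.inl (clsYidx i J l))) = seg d 0 J := by
      funext l
      show (Sum.elim (seg d 0 i) (seg d i (J + 1))) (clsYidx i J l) = d l
      unfold clsYidx
      split_ifs with hl <;> rfl
    show R1 (ap (ap (fun l => (ap (Sum.elim (seg d 0 i) (seg d i (J + 1)) : _ → N) x)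
        (Sum.inl (clsYidx i J l))) x) (d J))
    rw [h11]
    exact tR1
  have hlt := c4 y hYy
  have hyP : y ∈ K.P := O.P_up hh'P hlt
  refine ⟨y, hyP, hyx', hyq', ?_, hyIso⟩
  by_contra hcon
  refine absurd hInd' (K.cl_trans (c := one y) (fun _ => hyP.1) hh'P (O.lt_cl hh'P hlt)
    (fun _ _ => hcon))

end Pool.Agent.MNM
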