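import Pool.Agent.VCM.Sat

/-! MP_84b2ae_lc, squad MNM: the working context and the basic notions.

`N` is a big saturated model, `D` a `∅`-definable set, `D0 = D ∩ acl(∅)`, `P = D \ D0` (the
realisations of the unique nonalgebraic type of `D`).  `FS c e`: the type of the tuple `c` over the
tuple `e` is finitely satisfiable in `D0`.  For a tuple `c` of `D` and `x ∈ P` the relation
`Ind c x := FS c x` is read `x` is not in the closure `cl(c)` (`c << x`). -/

open FirstOrder FirstOrder.Language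
open scoped Pointwise
open Pool.Agent.VCM

namespace Pool.Agent.MNM

variable {L : FirstOrder.Language.{0, 0}} {N : Type} [L.Structure N]

/-- the tuple `c` extended by one element -/
def ap {α : Type} (c : α → N) (x : N) : α ⊕ Unit → N := Sum.elim c (fun _ => x)

/-- the constant tuple -/
def one (x : N) : Unit → N := fun _ => x

/-- only countably many types of finite tuples -/
def Small (L : FirstOrder.Language.{0, 0}) (N : Type) [L.Structure N] : Prop :=
  ∀ n : ℕ, ∃ f : ℕ → (Fin n → N), ∀ t : Fin n → N, ∃ j, TpEq L t (f j)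

/-- the working context -/
structure Ctx (L : FirstOrder.Language.{0, 0}) (N : Type) [L.Structure N] where
  lev : Levels L N
  D : Set N
  D0 : Set N
  dfnD : Dfn L (fun v : Unit → N => v () ∈ D)
  sub : D0 ⊆ D
  cnt : D0.Countable
  inf : D0.Infinite
  alg : ∀ m ∈ D0, ∃ A : Set N, A.Finite ∧ A ⊆ D0 ∧ m ∈ A ∧ Dfn L (fun v : Unit → N => v () ∈ A)
  tv : ∀ {α κ : Type} [Finite κ] (R : (α ⊕ κ → N) → Prop), Dfn L R →
    ∀ m : α → N, (∀ i, m i ∈ D0) → ∀ x : κ → N, (∀ k, x k ∈ D) → R (Sum.elim m x) →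
    ∃ y : κ → N, (∀ k, y k ∈ D0) ∧ R (Sum.elim m y)
  lvl : D0 ⊆ lev.S 0
  uniq : ∀ x ∈ D, x ∉ D0 → ∀ y ∈ D, y ∉ D0 → TpEq L (one x) (one y)
  small : Small L N

namespace Ctx

variable (K : Ctx L N)

/-- the realisations of the unique nonalgebraic type of `D` -/
def P : Set N := {x | x ∈ K.D ∧ x ∉ K.D0}

/-- the type of `c` over `e` is finitely satisfiable in `D0` -/
def FS {α β : Type} (c : α → N) (e : β → N) : Prop :=
  ∀ R : (α ⊕ β → N) → Prop, Dfn L R → R (Sum.elim c e) →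
    ∃ c' : α → N, (∀ i, c' i ∈ K.D0) ∧ R (Sum.elim c' e)

/-- `x ∉ cl(c)` -/
def Ind {α : Type} (c : α → N) (x : N) : Prop := K.FS c (one x)

/-- `x << y`, i.e. `y ∉ cl(x)` -/
def Be (x y : N) : Prop := K.FS (one x) (one y)

/-- `R` defines closure elements: finite fibres over tuples of `D0` -/
def Clf {α : Type} (R : (α ⊕ Unit → N) → Prop) : Prop :=
  ∀ m : α → N, (∀ i, m i ∈ K.D0) → {x | x ∈ K.D ∧ R (ap m x)}.Finite

/-- `d` is special over `c`: its type is isolated among the elements of `P` outside `cl(c)` -/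
def Special {α : Type} (c : α → N) (d : N) : Prop :=
  d ∈ K.P ∧ K.Ind c d ∧ ∃ R : (α ⊕ Unit → N) → Prop, Dfn L R ∧ R (ap c d) ∧
    ∀ z ∈ K.P, K.Ind c z → R (ap c z) → TpEq L (ap c z) (ap c d)

/-- the type of `x` over `c` together with all of `D0` -/
def TpD {α : Type} (c : α → N) (x y : N) : Prop :=
  TpEq L (ap (Sum.elim (fun m : K.D0 => (m : N)) c) x) (ap (Sum.elim (fun m : K.D0 => (m : N)) c) y)

end Ctx

/-- the type of the tuple `x` over the tuple `c` is isolated -/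
def Iso (L : FirstOrder.Language.{0, 0}) {N : Type} [L.Structure N] {α β : Type}
    (c : α → N) (x : β → N) : Prop :=
  ∃ R : (α ⊕ β → N) → Prop, Dfn L R ∧ R (Sum.elim c x) ∧
    ∀ z : β → N, R (Sum.elim c z) → TpEq L (Sum.elim c z) (Sum.elim c x)

/-! ### definability helpers -/

theorem ap_inl {α : Type} (c : α → N) (x : N) (i : α) : ap c x (Sum.inl i) = c i := rfl
theorem ap_inr {α : Type} (c : α → N) (x : N) (i : Unit) : ap c x (Sum.inr i) = x := rfl

theorem ap_split {α : Type} (u : α ⊕ Unit → N) : ap (u ∘ Sum.inl) (u (Sum.inr ())) = u := by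
  funext k
  rcases k with k | k <;> rfl

theorem elim_split {α β : Type} (u : α ⊕ β → N) : Sum.elim (u ∘ Sum.inl) (u ∘ Sum.inr) = u := by
  funext k
  rcases k with k | k <;> rfl

theorem dfn_ex [Nonempty N] {α : Type} {R : (α ⊕ Unit → N) → Prop} (h : Dfn L R) :
    Dfn L (fun v : α → N => ∃ x, R (ap v x)) :=
  Dfn.ex1 (R := fun v x => R (ap v x)) (h.of_iff fun u => by rw [ap_split])

theorem dfn_all [Nonempty N] {α : Type} {R : (α ⊕ Unit → N) → Prop} (h : Dfn L R) :
    Dfn L (fun v : α → N => ∀ x, R (ap v x)) :=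
  Dfn.all1 (R := fun v x => R (ap v x)) (h.of_iff fun u => by rw [ap_split])

namespace Ctx

variable (K : Ctx L N)

include K in
theorem ne : Nonempty N := K.lev.nonempty

/-- `v i ∈ D` is definable -/
theorem dfn_D {α : Type} (i : α) : Dfn L (fun v : α → N => v i ∈ K.D) :=
  Dfn.comp K.dfnD (fun _ => i) (fun v => fun _ => v i) (fun _ _ => rfl)

theorem dfn_exD {α : Type} {R : (α ⊕ Unit → N) → Prop} (h : Dfn L R) :
    Dfn L (fun v : α → N => ∃ x ∈ K.D, R (ap v x)) := by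
  have := K.ne
  exact (dfn_ex ((K.dfn_D (Sum.inr ())).and h)).of_iff fun v => Iff.rfl

theorem dfn_allD {α : Type} {R : (α ⊕ Unit → N) → Prop} (h : Dfn L R) :
    Dfn L (fun v : α → N => ∀ x ∈ K.D, R (ap v x)) := by
  have := K.ne
  exact (dfn_all ((K.dfn_D (Sum.inr ())).imp h)).of_iff fun v => Iff.rfl

/-! ### homogeneity -/

include K in
/-- homogeneity for finite tuples -/
theorem hom {α : Type} [Finite α] {p q : α → N} (h : TpEq L p q) :
    ∃ g : AutG L N, ∀ i, g • (p i) = q i := by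
  obtain ⟨n, hn⟩ := K.lev.finite_level p
  obtain ⟨m, hm⟩ := K.lev.finite_level q
  obtain ⟨g, hg⟩ := K.lev.hom (n := max n m) p q
    (fun i => K.lev.mono (le_max_left _ _) (hn i)) (fun i => K.lev.mono (le_max_right _ _) (hm i)) h
  exact ⟨g, hg⟩

/-- homogeneity for finite tuples over `D0` -/
theorem homD {α : Type} [Finite α] {p q : α → N}
    (h : TpEq L (Sum.elim (fun m : K.D0 => (m : N)) p) (Sum.elim (fun m : K.D0 => (m : N)) q)) :
    ∃ g : AutG L N, (∀ m ∈ K.D0, g • m = m) ∧ ∀ i, g • (p i) = q i := by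
  obtain ⟨n, hn⟩ := K.lev.finite_level p
  obtain ⟨m, hm⟩ := K.lev.finite_level q
  obtain ⟨g, hg⟩ := K.lev.hom (n := max n m) _ _ (by
      rintro (i | i)
      · exact K.lev.mono (Nat.zero_le _) (K.lvl i.2)
      · exact K.lev.mono (le_max_left _ _) (hn i)) (by
      rintro (i | i)
      · exact K.lev.mono (Nat.zero_le _) (K.lvl i.2)
      · exact K.lev.mono (le_max_right _ _) (hm i)) h
  exact ⟨g, fun m hm => hg (Sum.inl ⟨m, hm⟩), fun i => hg (Sum.inr i)⟩

theorem aut_tp (g : AutG L N) {α : Type} (p : α → N) : TpEq L (fun i => g • (p i)) p :=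
  AutG.tp g p

theorem dfn_aut (g : AutG L N) {α : Type} {R : (α → N) → Prop} (h : Dfn L R) (v : α → N) :
    R (fun i => g • (v i)) ↔ R v := h.tp (AutG.tp g v)

theorem aut_D (g : AutG L N) (x : N) : g • x ∈ K.D ↔ x ∈ K.D :=
  dfn_aut g K.dfnD (fun _ => x)

theorem aut_D0 (g : AutG L N) (x : N) : g • x ∈ K.D0 ↔ x ∈ K.D0 := by
  have key : ∀ (g : AutG L N) (x : N), x ∈ K.D0 → g • x ∈ K.D0 := by
    intro g x hx
    obtain ⟨A, -, hA, hxA, hd⟩ := K.alg x hx
    exact hA ((dfn_aut g hd (fun _ => x)).2 hxA)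
  refine ⟨fun h => ?_, key g x⟩
  have := key g⁻¹ _ h
  rwa [inv_smul_smul] at this

theorem aut_P (g : AutG L N) (x : N) : g • x ∈ K.P ↔ x ∈ K.P := by
  show (g • x ∈ K.D ∧ g • x ∉ K.D0) ↔ (x ∈ K.D ∧ x ∉ K.D0)
  rw [K.aut_D, K.aut_D0]

/-- membership in `P` depends on the type -/
theorem P_tp {x y : N} (h : TpEq L (one x) (one y)) (hx : x ∈ K.P) : y ∈ K.P := by
  obtain ⟨g, hg⟩ := K.hom h
  rw [← show g • x = y from hg (), K.aut_P]
  exact hx

theorem P_D {x : N} (h : x ∈ K.P) : x ∈ K.D := h.1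

theorem uniqP {x y : N} (hx : x ∈ K.P) (hy : y ∈ K.P) : TpEq L (one x) (one y) :=
  K.uniq x hx.1 hx.2 y hy.1 hy.2

theorem aut_of_P {x y : N} (hx : x ∈ K.P) (hy : y ∈ K.P) : ∃ g : AutG L N, g • x = y := by
  obtain ⟨g, hg⟩ := K.hom (K.uniqP hx hy)
  exact ⟨g, hg ()⟩

/-! ### first properties of `FS` -/

theorem elim_smul {α β : Type} (g : AutG L N) (c : α → N) (e : β → N) :
    Sum.elim (fun i => g • c i) (fun j => g • e j) = fun k => g • (Sum.elim c e k) := by
  funext k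
  rcases k with k | k <;> rfl

theorem ap_smul {α : Type} (g : AutG L N) (c : α → N) (x : N) :
    ap (fun i => g • c i) (g • x) = fun k => g • (ap c x k) := by
  funext k
  rcases k with k | k <;> rfl

theorem FS_smul_of {α β : Type} {c : α → N} {e : β → N} (h : K.FS c e) (g : AutG L N) :
    K.FS (fun i => g • c i) (fun j => g • e j) := by
  intro R hR hc
  rw [elim_smul, dfn_aut g hR] at hc
  obtain ⟨c', h1, h2⟩ := h R hR hc
  refine ⟨fun i => g • c' i, fun i => (K.aut_D0 g _).2 (h1 i), ?_⟩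
  rw [elim_smul, dfn_aut g hR]
  exact h2

theorem FS_smul {α β : Type} {c : α → N} {e : β → N} (g : AutG L N) :
    K.FS (fun i => g • c i) (fun j => g • e j) ↔ K.FS c e := by
  refine ⟨fun h => ?_, fun h => K.FS_smul_of h g⟩
  have := K.FS_smul_of h g⁻¹
  simpa only [inv_smul_smul] using this

/-- `FS` depends only on the type -/
theorem FS_tp {α β : Type} [Finite α] [Finite β] {c c' : α → N} {e e' : β → N}
    (ht : TpEq L (Sum.elim c e) (Sum.elim c' e')) (h : K.FS c e) : K.FS c' e' := by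
  obtain ⟨g, hg⟩ := K.hom ht
  have h1 : c' = fun i => g • c i := funext fun i => (hg (Sum.inl i)).symm
  have h2 : e' = fun i => g • e i := funext fun i => (hg (Sum.inr i)).symm
  rw [h1, h2]
  exact K.FS_smul_of h g

theorem Ind_tp {α : Type} [Finite α] {c c' : α → N} {x x' : N}
    (ht : TpEq L (ap c x) (ap c' x')) (h : K.Ind c x) : K.Ind c' x' :=
  K.FS_tp ht h

theorem FS_left {α α' β : Type} {c : α → N} {e : β → N} (h : K.FS c e) (f : α' → α) :
    K.FS (c ∘ f) e := by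
  intro R hR hc
  obtain ⟨c', h1, h2⟩ := h (fun u => R (Sum.elim (u ∘ Sum.inl ∘ f) (u ∘ Sum.inr)))
    (Dfn.comp hR (Sum.map f id) (fun v => Sum.elim (v ∘ Sum.inl ∘ f) (v ∘ Sum.inr)) (by
      rintro v (k | k) <;> rfl)) hc
  exact ⟨c' ∘ f, fun i => h1 _, h2⟩

theorem FS_right {α β β' : Type} {c : α → N} {e : β → N} (h : K.FS c e) (f : β' → β) :
    K.FS c (e ∘ f) := by
  intro R hR hc
  exact h (fun u => R (Sum.elim (u ∘ Sum.inl) (u ∘ Sum.inr ∘ f)))
    (Dfn.comp hR (Sum.map id f) (fun v => Sum.elim (v ∘ Sum.inl) (v ∘ Sum.inr ∘ f)) (by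
      rintro v (k | k) <;> rfl)) hc

/-- an element of `P` is in its own closure -/
theorem not_Ind_self {α : Type} {c : α → N} (i : α) (h : c i ∈ K.P) : ¬ K.Ind c (c i) := by
  intro hc
  obtain ⟨c', h1, h2⟩ := hc (fun u => u (Sum.inl i) = u (Sum.inr ())) (Dfn.eq _ _) rfl
  apply h.2
  have h3 : c' i = c i := h2
  rw [← h3]
  exact h1 i

/-- tuples of `D0` are finitely satisfiable over everything -/
theorem FS_D0 {α β : Type} {c : α → N} (h : ∀ i, c i ∈ K.D0) (e : β → N) : K.FS c e :=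
  fun _ _ hc => ⟨c, h, hc⟩

/-- transfer of a universal statement from `D0` to `D` -/
theorem transfer {κ : Type} [Finite κ] {R : (κ → N) → Prop} (hR : Dfn L R)
    (h : ∀ m : κ → N, (∀ i, m i ∈ K.D0) → R m) (v : κ → N) (hv : ∀ i, v i ∈ K.D) : R v := by
  by_contra hcon
  obtain ⟨y, h1, h2⟩ := K.tv (α := Empty) (κ := κ) (fun u => ¬ R (u ∘ Sum.inr))
    ((Dfn.comp hR Sum.inr (fun v => v ∘ Sum.inr) (fun _ _ => rfl)).not) (fun i => i.elim)
    (fun i => i.elim) v hv hcon
  exact h2 (h y h1)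

/-- a nonempty `D0`-definable subset of `D` meets `D0` -/
theorem tv1 {α : Type} {R : (α ⊕ Unit → N) → Prop} (hR : Dfn L R) {m : α → N}
    (hm : ∀ i, m i ∈ K.D0) {x : N} (hx : x ∈ K.D) (h : R (ap m x)) : ∃ y ∈ K.D0, R (ap m y) := by
  obtain ⟨y, h1, h2⟩ := K.tv R hR m hm (fun _ : Unit => x) (fun _ => hx) h
  exact ⟨y (), h1 (), h2⟩

end Ctx

end Pool.Agent.MNM
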