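import Pool.Agent.MNM.Core

/-! MNM: elementary substructures from sets closed under witnesses. -/

open FirstOrder FirstOrder.Language
open scoped Pointwise
open Pool.Agent.VCM

namespace Pool.Agent.MNM

variable {L : FirstOrder.Language.{0, 0}} {N : Type} [L.Structure N]

/-- Mathlib: `MeetsDefinable.toElementarySubstructure`, `MeetsDefinable.closure_eq_self`.  A set
which is definable with parameters in `A` (`A.Definable₁ L D`) is of the form `{x | R (ap c x)}` with a
definable `R` and a finite tuple `c` of `A` (a formula of `L[[A]]` contains finitely many constants: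
`Formula.equivSentence`/`constantsVarsEquiv` and `fin_supp` of `VCM.FinSupp`). -/
theorem es_of_meets (A : Set N) (h : ∀ (n : ℕ) (c : Fin n → N), (∀ i, c i ∈ A) →
    ∀ R : (Fin n ⊕ Unit → N) → Prop, Dfn L R → (∃ x, R (ap c x)) → ∃ x ∈ A, R (ap c x)) :
    ∃ S : L.ElementarySubstructure N, (S : Set N) = A := by
  classical
  have hM : L.MeetsDefinable A := by
    intro D hne hD
    rw [Set.Definable₁, Set.definable_iff_finitely_definable] at hD
    obtain ⟨A0, hA0, hd⟩ := hD
    rw [Set.definable_iff_exists_formula_sum] at hd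
    obtain ⟨φ, hφ⟩ := hd
    have hA0f : Finite (A0 : Set N) := A0.finite_toSet
    obtain ⟨n, ⟨e⟩⟩ := Finite.exists_equiv_fin (A0 : Set N)
    have key : ∀ y : N, y ∈ D ↔
        φ.Realize (Sum.elim (fun a : (A0 : Set N) => (a : N)) (fun _ : Fin 1 => y)) := by
      intro y
      have h2 : (fun _ : Fin 1 => y) ∈ {x : Fin 1 → N | x 0 ∈ D} ↔
          (fun _ : Fin 1 => y) ∈ {v | φ.Realize (Sum.elim (↑) v)} := by rw [hφ]
      exact h2
    obtain ⟨x, hx⟩ := hne
    obtain ⟨y, hyA, hR⟩ := h n (fun i => (e.symm i : N)) (fun i => hA0 (e.symm i).2)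
      (fun u => φ.Realize (Sum.elim (fun a : (A0 : Set N) => u (Sum.inl (e a)))
        (fun _ : Fin 1 => u (Sum.inr ()))))
      (Dfn.real φ (Sum.elim (fun a => Sum.inl (e a)) (fun _ => Sum.inr ())) _ (by
        rintro v (b | b) <;> rfl)) ⟨x, by
        have h3 := (key x).1 hx
        simpa [ap] using h3⟩
    refine ⟨y, (key y).2 ?_, hyA⟩
    simpa [ap] using hR
  exact ⟨hM.toElementarySubstructure, hM.closure_eq_self⟩

/-- formulas over an elementary substructure: `S.subtype.map_formula` -/
theorem es_realize (S : L.ElementarySubstructure N) {α : Type} (φ : L.Formula α) (v : α → S) :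
    φ.Realize v ↔ φ.Realize (fun i => (v i : N)) :=
  (S.subtype.map_formula φ v).symm

/-- an isomorphism between elementary substructures of `N` preserves the types in `N`
(`es_realize`, `Equiv.realize_formula`) -/
theorem es_tp (S S' : L.ElementarySubstructure N) (σ : S ≃[L] S') {α : Type} (v : α → S) :
    TpEq L (fun i => (v i : N)) (fun i => (σ (v i) : N)) := by
  intro φ
  rw [← es_realize, ← es_realize (S := S') (v := fun i => σ (v i))]
  exact (σ.toElementaryEmbedding.map_formula φ v).symm

end Pool.Agent.MNM
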