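import Pool.Agent.MNM.Stz
import Pool.Agent.MNM.ES
import Pool.Agent.MNM.Cl

/-! MNM: dimension in the pregeometric case. -/

open FirstOrder FirstOrder.Language
open scoped Pointwise
open Pool.Agent.VCM

namespace Pool.Agent.MNM

variable {L : FirstOrder.Language.{0, 0}} {N : Type} [L.Structure N]

namespace Ctx

variable (K : Ctx L N)

/-- finite satisfiability over `c` follows from `x ∉ cl(c)` -/
def DTwo : Prop := ∀ (n : ℕ) (c : Fin n → N), (∀ i, c i ∈ K.D) → ∀ x ∈ K.P,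
  K.FS c (one x) → K.FS (one x) c

/-- the closure of a set -/
def ClS (A : Set N) (x : N) : Prop := ∃ (n : ℕ) (c : Fin n → N), (∀ i, c i ∈ A) ∧ ¬ K.Ind c x

private theorem not_Ind_comp {α α' : Type} {c : α → N} {x : N} (f : α' → α)
    (h : ¬ K.Ind (c ∘ f) x) : ¬ K.Ind c x := fun hc => h (K.FS_left hc f)

private theorem ClS_of {α : Type} [Finite α] {A : Set N} {c : α → N} {x : N}
    (hc : ∀ i, c i ∈ A) (h : ¬ K.Ind c x) : K.ClS A x := by
  obtain ⟨n, ⟨e⟩⟩ := Finite.exists_equiv_fin α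
  refine ⟨n, c ∘ e.symm, fun i => hc _, K.not_Ind_comp e ?_⟩
  have h1 : (c ∘ e.symm) ∘ e = c := by
    funext i
    simp
  rw [h1]
  exact h

private theorem DTwo_fin (hD : K.DTwo) {α : Type} [Finite α] {c : α → N} (hc : ∀ i, c i ∈ K.D)
    {x : N} (hx : x ∈ K.P) (h : K.FS c (one x)) : K.FS (one x) c := by
  obtain ⟨n, ⟨e⟩⟩ := Finite.exists_equiv_fin α
  have h1 := hD n (c ∘ e.symm) (fun i => hc _) x hx (K.FS_left h e.symm)
  have h2 := K.FS_right h1 e
  have h3 : (c ∘ e.symm) ∘ e = c := by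
    funext i
    simp
  rwa [h3] at h2

/-- `n := 1`, `not_Ind_self` -/
theorem ClS_mem {A : Set N} {x : N} (hx : x ∈ A) (hP : x ∈ K.P) : K.ClS A x :=
  K.ClS_of (c := one x) (fun _ => hx) (K.not_Ind_self (c := one x) () hP)

/-- Proof: put together the finitely many tuples of `B` into one finite tuple and apply `cl_trans` (and
`FS_left` for subtuples). -/
theorem ClS_trans {A B : Set N} (hA : A ⊆ K.P) (hB : B ⊆ K.P) {x : N} (hx : x ∈ K.P)
    (h : ∀ a ∈ A, K.ClS B a) (h' : K.ClS A x) : K.ClS B x := by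
  obtain ⟨n, c, hc, hx'⟩ := h'
  choose m d hd1 hd2 using fun i => h (c i) (hc i)
  refine K.ClS_of (c := fun p : Σ i : Fin n, Fin (m i) => d p.1 p.2) (fun p => hd1 p.1 p.2) ?_
  refine K.cl_trans (c := c) (fun i => (hA (hc i)).1) hx hx' fun i _ => ?_
  exact K.not_Ind_comp (fun k : Fin (m i) => (⟨i, k⟩ : Σ i : Fin n, Fin (m i))) (hd2 i)

/-- Proof: let `c` be a finite tuple of `insert b A` with `¬ Ind c x`; enlarging and reindexing we may
take it of the form `ap c' b` with `c'` a finite tuple of `A`.  Suppose `¬ ClS (insert x A) b`; then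
`Ind (ap c' x) b`, so by `DTwo` `FS (one b) (ap c' x)`.  `¬ ClS A x` gives
`FS c' (one x)`.  `FS_trans` gives `FS (Sum.elim (one b) c') (one x)`, i.e. `Ind (ap c' b) x`
(reindexing): contradiction. -/
theorem ClS_exch (hD : K.DTwo) {A : Set N} (hA : A ⊆ K.P) {b x : N} (hb : b ∈ K.P) (hx : x ∈ K.P)
    (h : K.ClS (insert b A) x) (h' : ¬ K.ClS A x) : K.ClS (insert x A) b := by
  classical
  obtain ⟨n, c, hc, hx'⟩ := h
  by_contra hcon
  let c' : {i // c i ∈ A} → N := fun i => c i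
  have e1 : ¬ K.Ind (ap c' b) x := by
    refine K.not_Ind_comp (fun i : Fin n => if hi : c i ∈ A then Sum.inl ⟨i, hi⟩
      else Sum.inr ()) ?_
    have h1 : (ap c' b) ∘ (fun i : Fin n => if hi : c i ∈ A then Sum.inl ⟨i, hi⟩
        else Sum.inr ()) = c := by
      funext i
      rw [Function.comp_apply]
      split_ifs with hi
      · rfl
      · rcases hc i with h2 | h2
        · exact h2.symm
        · exact absurd h2 hi
    rw [h1]
    exact hx'
  have e2 : K.Ind (ap c' x) b := by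
    by_contra h2
    refine hcon (K.ClS_of (c := ap c' x) ?_ h2)
    rintro (i | i)
    · exact Set.mem_insert_of_mem _ i.2
    · exact Set.mem_insert _ _
  have e3 : K.Ind c' x := by
    by_contra h2
    exact h' (K.ClS_of (c := c') (fun i => i.2) h2)
  have e4 : K.FS (one b) (ap c' x) := K.DTwo_fin hD (by
    rintro (i | i)
    · exact (hA i.2).1
    · exact hx.1) hb e2
  have e5 : K.FS (Sum.elim (one b) c') (one x) := K.FS_trans e3 e4
  apply e1
  have e6 := K.FS_left e5 (Sum.swap : {i // c i ∈ A} ⊕ Unit → Unit ⊕ {i // c i ∈ A})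
  have e7 : (Sum.elim (one b) c') ∘ (Sum.swap : {i // c i ∈ A} ⊕ Unit → Unit ⊕ {i // c i ∈ A}) =
      ap c' b := by
    funext k
    rcases k with k | k <;> rfl
  rw [e7] at e6
  exact e6

/-- `S` has dimension `k` -/
def HasDim (S : Set N) (k : ℕ) : Prop :=
  ∃ c : Fin k → N, (∀ i, c i ∈ S ∧ c i ∈ K.P) ∧ (∀ i, ¬ K.ClS {x | ∃ j < i, x = c j} (c i)) ∧
    ∀ x ∈ S, x ∈ K.P → K.ClS (Set.range c) x

private theorem HasDim_le (hD : K.DTwo) (S S' : L.ElementarySubstructure N) (σ : S ≃[L] S')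
    {k l : ℕ} (h : K.HasDim S k) (h' : K.HasDim S' l) : k ≤ l := by
  obtain ⟨c, hc1, hc2, -⟩ := h
  obtain ⟨d, hd1, -, hd3⟩ := h'
  have hP : ∀ z (hz : z ∈ S), z ∈ K.P → (σ ⟨z, hz⟩ : N) ∈ K.P := by
    intro z hz hzP
    exact K.P_tp (es_tp S S' σ (fun _ : Unit => (⟨z, hz⟩ : S))) hzP
  let cs : Fin k → S := fun i => ⟨c i, (hc1 i).1⟩
  let c' : Fin k → {x // x ∈ K.P} := fun i => ⟨(σ (cs i) : N), hP _ _ (hc1 i).2⟩
  let d' : Fin l → {x // x ∈ K.P} := fun i => ⟨d i, (hd1 i).2⟩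
  have himP : ∀ A : Set {x // x ∈ K.P}, Subtype.val '' A ⊆ K.P := by
    rintro A _ ⟨y, -, rfl⟩
    exact y.2
  refine steinitz (α := {x // x ∈ K.P}) (fun A x => K.ClS (Subtype.val '' A) x) ?_ ?_ ?_ k l c' d'
    ?_ ?_
  · intro A a ha
    exact K.ClS_mem ⟨a, ha, rfl⟩ a.2
  · intro A B x hAB hx
    refine K.ClS_trans (himP A) (himP B) x.2 ?_ hx
    rintro _ ⟨y, hy, rfl⟩
    exact hAB y hy
  · intro A b x h1 h2
    rw [Set.image_insert_eq] at h1 ⊢
    exact K.ClS_exch hD (himP A) b.2 x.2 h1 h2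
  · intro i hcl
    obtain ⟨n, e, he, hne⟩ := hcl
    have he' : ∀ t, ∃ j < i, e t = (σ (cs j) : N) := by
      intro t
      obtain ⟨y, ⟨j, hj, hy⟩, hye⟩ := he t
      exact ⟨j, hj, by rw [← hye, hy]⟩
    choose j hj1 hj2 using he'
    refine hc2 i ⟨n, fun t => c (j t), fun t => ⟨j t, hj1 t, rfl⟩, fun hind => hne ?_⟩
    refine K.Ind_tp ?_ hind
    have h1 := es_tp S S' σ (Sum.elim (fun t => cs (j t)) (fun _ => cs i) : Fin n ⊕ Unit → S)
    have e1 : (fun u => ((Sum.elim (fun t => cs (j t)) (fun _ => cs i) :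
        Fin n ⊕ Unit → S) u : N)) = ap (fun t => c (j t)) (c i) := by
      funext u
      rcases u with u | u <;> rfl
    have e2 : (fun u => (σ ((Sum.elim (fun t => cs (j t)) (fun _ => cs i) :
        Fin n ⊕ Unit → S) u) : N)) = ap e ((c' i : {x // x ∈ K.P}) : N) := by
      funext u
      rcases u with u | u
      · exact (hj2 u).symm
      · rfl
    rw [e1, e2] at h1
    exact h1
  · intro i
    have h1 : Subtype.val '' Set.range d' = Set.range d := by
      ext x
      constructor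
      · rintro ⟨_, ⟨t, rfl⟩, rfl⟩
        exact ⟨t, rfl⟩
      · rintro ⟨t, rfl⟩
        exact ⟨_, ⟨t, rfl⟩, rfl⟩
    show K.ClS (Subtype.val '' Set.range d') _
    rw [h1]
    exact hd3 _ (σ (cs i)).2 (c' i).2

/-- Proof: `steinitz` for the closure operator on the type `K.P` given by `ClS` of the images of the
sets.  By symmetry it is enough to show `k ≤ l`.  Let `c`, `d` be given by `h`, `h'`.  The elements
`σ (c i)` are in `P` (`es_tp`, `P_tp`) and satisfy the independence condition: if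
`ClS {σ (c j) | j < i} (σ (c i))`, then the tuple is of the form `σ ∘ e`, `e` a tuple of `{c j | j < i}`,
and `¬ Ind e (c i)` by `FS_tp` and `es_tp`.  They are in `ClS (Set.range d)`. -/
theorem HasDim_iso (hD : K.DTwo) (S S' : L.ElementarySubstructure N) (σ : S ≃[L] S') {k l : ℕ}
    (h : K.HasDim S k) (h' : K.HasDim S' l) : k = l :=
  le_antisymm (K.HasDim_le hD S S' σ h h') (K.HasDim_le hD S' S σ.symm h' h)

end Ctx

end Pool.Agent.MNM
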