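import Pool.Agent.MNM.Dim
import Pool.Agent.MNM.Atomic
import Pool.Agent.MNM.BMod

/-! MNM: models of finite dimension in the pregeometric case. -/

open FirstOrder FirstOrder.Language
open scoped Pointwise
open Pool.Agent.VCM

namespace Pool.Agent.MNM

variable {L : FirstOrder.Language.{0, 0}} {N : Type} [L.Structure N]

/-- Independent sequences.  Induction on `k`: let `c` be given for `k`; by `K.exists_coheir c` (relation
`True`) there is `x ∈ P` with `FS (one x) c`; take `Fin.cons x c`.  For `i = 0`: `ClS ∅ x` is false (the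
empty tuple is finitely satisfiable over everything).  For `i + 1`: the condition for `c` says that
`FS (c_0, …, c_{i-1}) (one (c_i))`, and `FS (one x) (c_0, …, c_i)` (`FS_right`), so by `FS_trans`
`FS (x, c_0, …, c_{i-1}) (one (c_i))`, which gives `Ind e (c_i)` for all finite tuples `e` of
`{x, c_0, …, c_{i-1}}` (`FS_left`). -/
theorem indep_ex (K : Ctx L N) (k : ℕ) : ∃ c : Fin k → N, (∀ i, c i ∈ K.P) ∧
    ∀ i, ¬ K.ClS {x | ∃ j < i, x = c j} (c i) := by
  classical
  induction k with
  | zero => exact ⟨fun i => i.elim0, fun i => i.elim0, fun i => i.elim0⟩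
  | succ k ih =>
    obtain ⟨c, hc1, hc2⟩ := ih
    obtain ⟨x, hx, -, hFS⟩ := K.exists_coheir c (R := fun _ => True) Dfn.true'
      (K.inf.mono (fun x hx => ⟨hx, trivial⟩))
    refine ⟨Fin.cons x c, fun i => ?_, fun i => ?_⟩
    · refine Fin.cases ?_ (fun j => ?_) i
      · exact hx
      · exact hc1 j
    · refine Fin.cases ?_ (fun i => ?_) i
      · rintro ⟨n, e, he, hne⟩
        obtain hn | hn := isEmpty_or_nonempty (Fin n)
        · exact hne (K.FS_D0 (fun i => isEmptyElim i) _)
        · obtain ⟨j, hj, -⟩ := he hn.some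
          exact absurd hj (Fin.not_lt_zero j)
      · rintro ⟨n, e, he, hne⟩
        rw [Fin.cons_succ] at hne
        -- the tuple of the earlier elements
        let b : {j : Fin k // j < i} → N := fun j => c j
        have h1 : K.FS b (one (c i)) := by
          by_contra h2
          obtain ⟨m, ⟨f⟩⟩ := Finite.exists_equiv_fin {j : Fin k // j < i}
          refine hc2 i ⟨m, b ∘ f.symm, fun t => ⟨(f.symm t).1, (f.symm t).2, rfl⟩, fun h3 => h2 ?_⟩
          have h4 := K.FS_left h3 f
          have h5 : (b ∘ f.symm) ∘ f = b := by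
            funext t
            simp
          rwa [h5] at h4
        have h2 : K.FS (one x) (Sum.elim b (one (c i))) := by
          have h3 := K.FS_right hFS (Sum.elim (fun j => j.1) (fun _ => i) :
            {j : Fin k // j < i} ⊕ Unit → Fin k)
          have h4 : c ∘ (Sum.elim (fun j => j.1) (fun _ => i) :
            {j : Fin k // j < i} ⊕ Unit → Fin k) = Sum.elim b (one (c i)) := by
            funext u
            rcases u with u | u <;> rfl
          rwa [h4] at h3
        have h3 : K.FS (Sum.elim (one x) b) (one (c i)) := K.FS_trans h1 h2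
        apply hne
        have he' : ∀ t, ∃ u : Unit ⊕ {j : Fin k // j < i}, e t = Sum.elim (one x) b u := by
          intro t
          obtain ⟨j, hj, hjt⟩ := he t
          revert hj hjt
          refine Fin.cases ?_ (fun j => ?_) j
          · intro _ h
            exact ⟨Sum.inl (), h⟩
          · intro hj h
            exact ⟨Sum.inr ⟨j, Fin.succ_lt_succ_iff.1 hj⟩, h⟩
        choose u hu using he'
        have h4 := K.FS_left h3 u
        have h5 : Sum.elim (one x) b ∘ u = e := by
          funext t
          exact (hu t).symm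
        rw [h5] at h4
        exact h4

/-- Proof: `atomic_ex` for the tuple of `indep_ex`; for `x ∈ P` in `S`: `¬ FS (one x) c`
(`not_FS_of_iso`), so `¬ Ind c x` by `DTwo`. -/
theorem hasDim_ex (K : Ctx L N) (hL : L.card ≤ Cardinal.aleph0) (hD : K.DTwo) (k : ℕ) :
    ∃ S : L.ElementarySubstructure N, (S : Set N).Countable ∧ K.HasDim S k := by
  obtain ⟨c, hc1, hc2⟩ := indep_ex K k
  obtain ⟨S, hS1, hS2, hS3⟩ := atomic_ex K hL c
  refine ⟨S, hS1, c, fun i => ⟨hS2 i, hc1 i⟩, hc2, fun x hx hxP => ?_⟩
  refine ⟨k, c, fun i => ⟨i, rfl⟩, fun hind => ?_⟩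
  exact not_FS_of_iso K hxP (hS3 x hx) (hD k c (fun i => (hc1 i).1) x hxP hind)

end Pool.Agent.MNM
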