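import Pool.Agent.MNM.Dim
import Pool.Agent.MNM.FSX

/-! MNM: the condition on finite sets meeting all infinite instances implies `DTwo`. -/

open FirstOrder FirstOrder.Language
open scoped Pointwise
open Pool.Agent.VCM

namespace Pool.Agent.MNM

variable {L : FirstOrder.Language.{0, 0}} {N : Type} [L.Structure N]

/-- Proof: let `FS c (one x)` and suppose `¬ FS (one x) c`: there is a definable `R (y; c)` with
`R (x; c)` and no solution `y ∈ D0`.  Take `F` for `fun u => R (Sum.elim (one (u (inr ()))) (u ∘ inl))`.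
By `FS c (one x)` applied to `R (x; c) ∧ ∀ f ∈ F, ¬ R (f; c)` (parameters `F ⊆ D0`: use `FS_param` with a
tuple enumerating `F`) there is `m` in `D0` with `R (x; m)` and `¬ R (f; m)` for `f ∈ F`.  The set
`{y ∈ D0 | R (y; m)}` is infinite: otherwise, removing its finitely many elements (parameters), the
relation `R (y; m) ∧ y ∉ (this finite set)` holds at `x` and has no solution in `D0`, contradicting
`K.tv1`.  So `F` meets it: contradiction. -/
theorem dtwo_of (K : Ctx L N)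
    (h : ∀ (n : ℕ) (R : (Fin n ⊕ Unit → N) → Prop), Dfn L R → ∃ F : Set N, F.Finite ∧ F ⊆ K.D0 ∧
      ∀ m : Fin n → N, (∀ i, m i ∈ K.D0) → {y | y ∈ K.D0 ∧ R (ap m y)}.Infinite →
        ∃ y ∈ F, R (ap m y)) : K.DTwo := by
  classical
  intro n c hc x hx hFS R hR hRx
  by_contra hcon
  push Not at hcon
  let R' : (Fin n ⊕ Unit → N) → Prop := fun u => R (Sum.elim (one (u (Sum.inr ()))) (u ∘ Sum.inl))
  have hR' : Dfn L R' :=
    Dfn.comp hR Sum.swap (fun u => Sum.elim (one (u (Sum.inr ()))) (u ∘ Sum.inl)) (by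
      rintro v (k | k) <;> rfl)
  obtain ⟨F, hFf, hFD, hF⟩ := h n R' hR'
  have hFfin : Finite F := hFf
  have hFS' := K.FS_param hFS (m := fun f : F => (f : N)) (fun f => hFD f.2)
  obtain ⟨m, hm, hm1, hm2⟩ := hFS'
    (fun u : Fin n ⊕ (Unit ⊕ F) → N =>
      R (Sum.elim (one (u (Sum.inr (Sum.inl ())))) (u ∘ Sum.inl)) ∧
      ∀ f : F, ¬ R (Sum.elim (one (u (Sum.inr (Sum.inr f)))) (u ∘ Sum.inl)))
    (by
      refine Dfn.and ?_ (Dfn.finiteAll fun f => Dfn.not ?_)
      · exact Dfn.comp hR (Sum.elim (fun _ => Sum.inr (Sum.inl ())) Sum.inl)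
          (fun u => Sum.elim (one (u (Sum.inr (Sum.inl ())))) (u ∘ Sum.inl)) (by
            rintro v (k | k) <;> rfl)
      · exact Dfn.comp hR (Sum.elim (fun _ => Sum.inr (Sum.inr f)) Sum.inl)
          (fun u => Sum.elim (one (u (Sum.inr (Sum.inr f)))) (u ∘ Sum.inl)) (by
            rintro v (k | k) <;> rfl))
    ⟨hRx, fun f hf => hcon (one (f : N)) (fun _ => hFD f.2) hf⟩
  have hinf : {y | y ∈ K.D0 ∧ R' (ap m y)}.Infinite := by
    intro hfin
    have hfin' : Finite ↥{y | y ∈ K.D0 ∧ R' (ap m y)} := hfin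
    obtain ⟨y, hy, hy1, hy2⟩ := K.tv1
      (α := Fin n ⊕ ↥{y | y ∈ K.D0 ∧ R' (ap m y)})
      (R := fun u => R' (ap (u ∘ Sum.inl ∘ Sum.inl) (u (Sum.inr ()))) ∧
        ∀ f : ↥{y | y ∈ K.D0 ∧ R' (ap m y)}, ¬ u (Sum.inr ()) = u (Sum.inl (Sum.inr f)))
      (by
        refine Dfn.and ?_ (Dfn.finiteAll fun f => (Dfn.eq _ _).not)
        exact Dfn.comp hR' (Sum.map Sum.inl id)
          (fun u => ap (u ∘ Sum.inl ∘ Sum.inl) (u (Sum.inr ()))) (by
            rintro v (k | k) <;> rfl))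
      (m := Sum.elim m (fun f => (f : N)))
      (by
        rintro (i | f)
        · exact hm i
        · exact f.2.1)
      hx.1 ⟨hm1, fun f hf => hx.2 (by
        have hf' : x = (f : N) := hf
        rw [hf']
        exact f.2.1)⟩
    exact hy2 ⟨y, hy, hy1⟩ rfl
  obtain ⟨y, hyF, hyR⟩ := hF m hm hinf
  exact hm2 ⟨y, hyF⟩ hyR

end Pool.Agent.MNM
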