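import Pool.Agent.MNM.P1
import Pool.Agent.MNM.SpecEx
import Pool.Agent.MNM.IsoT

/-! MNM: the first exchange lemma for special extensions. -/

open FirstOrder FirstOrder.Language
open scoped Pointwise
open Pool.Agent.VCM

namespace Pool.Agent.MNM.Ord

variable {L : FirstOrder.Language.{0, 0}} {N : Type} [L.Structure N] {K : Ctx L N} (O : Ord K)

include O in
/-- `g` special over `c`, `x` isolated over `(c, g)` and `x ∈ cl(c)`: then `x` is isolated over `c`.
Proof: let `θ ((c, g), x)` isolate the type of `x` over `(c, g)` and let `τ (c, g)` witness that `g`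
is special over `c`.  Put `χ (c, y) := y ∈ D ∧ ¬ Pi {z | z ∈ D ∧ θ ((c, z), y) ∧ τ (c, z)}`
(definable: `dfn_Pi`).
`χ (c, x)`: by `Q1` for the tuple `(c, x)`: `g ∈ P` is in the set and `K.Ind (c, x) g` by `Ind_app`
(with the one-element tuple `one x` in front: reindex with `FS_left`).
If `χ (c, y)`: by `Q2` (tuple `(c, y)`, all in `D`) there is `z ∈ P` with `θ ((c, z), y)`,
`τ (c, z)` and `Ind (c, y) z`, so `Ind c z` and `TpEq (ap c z) (ap c g)`; an automorphism `a` fixes
`c` and maps `z` to `g` (`K.hom`), so `θ ((c, g), a y)`, hence `(c, g, a y) ≡ (c, g, x)` and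
`(c, y) ≡ (c, a y) ≡ (c, x)`. -/
theorem E2 {α : Type} [Finite α] {c : α → N} (hc : ∀ i, c i ∈ K.D) {g x : N}
    (hg : K.Special c g) (hx : x ∈ K.P) (h : Iso L (ap c g) (one x)) (hcl : ¬ K.Ind c x) :
    Iso L c (one x) := by
  obtain ⟨θ, hθ, hθx, hθu⟩ := h
  obtain ⟨hgP, hgI, τ, hτ, hτg, hτu⟩ := hg
  -- the relation on `((c, y), z)`
  let R : ((α ⊕ Unit) ⊕ Unit → N) → Prop := fun u =>
    u (Sum.inr ()) ∈ K.D ∧
      θ (Sum.elim (ap (u ∘ Sum.inl ∘ Sum.inl) (u (Sum.inr ()))) (one (u (Sum.inl (Sum.inr ()))))) ∧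
      τ (ap (u ∘ Sum.inl ∘ Sum.inl) (u (Sum.inr ())))
  have hR : Dfn L R := by
    refine (K.dfn_D _).and (Dfn.and ?_ ?_)
    · refine Dfn.comp hθ
        (Sum.elim (Sum.elim (fun i => Sum.inl (Sum.inl i)) (fun _ => Sum.inr ()))
          (fun _ => Sum.inl (Sum.inr ())))
        (fun u => Sum.elim (ap (u ∘ Sum.inl ∘ Sum.inl) (u (Sum.inr ())))
          (one (u (Sum.inl (Sum.inr ()))))) ?_
      rintro v ((k | k) | k) <;> rfl
    · refine Dfn.comp hτ (Sum.elim (fun i => Sum.inl (Sum.inl i)) (fun _ => Sum.inr ()))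
        (fun u => ap (u ∘ Sum.inl ∘ Sum.inl) (u (Sum.inr ()))) ?_
      rintro v (k | k) <;> rfl
  have hRap : ∀ (d : α → N) (y z : N), R (ap (ap d y) z) ↔
      (z ∈ K.D ∧ θ (Sum.elim (ap d z) (one y)) ∧ τ (ap d z)) := fun d y z => Iff.rfl
  refine ⟨fun v : α ⊕ Unit → N => v (Sum.inr ()) ∈ K.D ∧ ¬ O.Pi (fun z => R (ap v z)),
    (K.dfn_D _).and (O.dfn_Pi hR).not, ⟨hx.1, ?_⟩, ?_⟩
  · -- `χ (c, x)`
    have hcx : ∀ i, (ap c x) i ∈ K.D := by
      rintro (i | i)
      · exact hc i
      · exact hx.1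
    refine O.Q1 hcx hR hgP ((hRap c x g).2 ⟨hgP.1, hθx, hτg⟩) ?_
    have h1 := K.Ind_app (c := c) (x := one x) (g := g) hc (fun _ => hx.1) hgP hgI
      (fun _ _ => hcl)
    have h2 := K.FS_left h1 (Sum.elim Sum.inr (fun _ => Sum.inl ()) : α ⊕ Unit → Unit ⊕ α)
    have e : (Sum.elim (one x) c) ∘ (Sum.elim Sum.inr (fun _ => Sum.inl ()) : α ⊕ Unit → Unit ⊕ α)
        = ap c x := by
      funext k
      rcases k with k | k <;> rfl
    rw [e] at h2
    exact h2
  · intro z hz
    obtain ⟨hzD, hz2⟩ := hz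
    have hcz : ∀ i, (Sum.elim c z) i ∈ K.D := by
      rintro (i | i)
      · exact hc i
      · exact hzD
    obtain ⟨w, hwP, hRw, hIw⟩ := O.Q2 hcz hR hz2
    obtain ⟨-, hθw, hτw⟩ := hRw
    have hIcw : K.Ind c w := K.FS_left hIw Sum.inl
    have ht := hτu w hwP hIcw hτw
    obtain ⟨a, ha⟩ := K.hom ht
    have hac : ∀ i, a • (c i) = c i := fun i => ha (Sum.inl i)
    have haw : a • w = g := ha (Sum.inr ())
    have hθa : θ (Sum.elim (ap c g) (one (a • (z ())))) := by
      have h3 := (Ctx.dfn_aut a hθ (Sum.elim (ap c w) (one (z ())))).2 hθw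
      have e : (fun i => a • ((Sum.elim (ap c w) (one (z ()))) i)) =
          Sum.elim (ap c g) (one (a • (z ()))) := by
        funext k
        rcases k with (k | k) | k
        · exact hac k
        · exact haw
        · rfl
      rw [e] at h3
      exact h3
    have h4 := hθu _ hθa
    -- restrict to `(c, x)`
    have h5 : TpEq L (Sum.elim c (one (a • (z ())))) (Sum.elim c (one x)) := by
      intro φ
      have h6 := h4 (φ.relabel (Sum.elim (fun i => Sum.inl (Sum.inl i)) (fun _ => Sum.inr ())))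
      rw [Formula.realize_relabel, Formula.realize_relabel] at h6
      have e1 : ∀ y : N, (Sum.elim (ap c g) (one y)) ∘
          (Sum.elim (fun i => Sum.inl (Sum.inl i)) (fun _ => Sum.inr ()) :
            α ⊕ Unit → (α ⊕ Unit) ⊕ Unit) = Sum.elim c (one y) := by
        intro y
        funext k
        rcases k with k | k <;> rfl
      rw [e1, e1] at h6
      exact h6
    have h7 : TpEq L (Sum.elim c (one (a • (z ())))) (Sum.elim c z) := by
      have h8 := Ctx.aut_tp a (Sum.elim c z)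
      have e : (fun i => a • ((Sum.elim c z) i)) = Sum.elim c (one (a • (z ()))) := by
        funext k
        rcases k with k | k
        · exact hac k
        · rfl
      rw [e] at h8
      exact h8
    intro φ
    exact (h7 φ).symm.trans (h5 φ)

end Pool.Agent.MNM.Ord
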