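import Pool.Agent.MNM.Core

/-! MNM: finite satisfiability in `D0`, saturation (part A). -/

open FirstOrder FirstOrder.Language
open scoped Pointwise
open Pool.Agent.VCM

namespace Pool.Agent.MNM.Ctx

variable {L : FirstOrder.Language.{0, 0}} {N : Type} [L.Structure N] (K : Ctx L N)

/-- A `D0`-definable subset of `D` contained in `D0` is finite.
Proof: saturation.  If the set is infinite, the family of relations `x ∈ D`, `R (ap m x)`,
`x ≠ m'` (`m' ∈ D0`) is finitely satisfiable; all of them are definable over `D0 ⊆ lev.S 0`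
(`DfnO.of_dfn`, `DfnO.of_dfn0`), so `K.lev.sat_rel 0` (with `κ := Unit`) gives `x ∈ D \ D0` with
`R (ap m x)`, a contradiction. -/
theorem fin_of_sub {γ : Type} {m : γ → N} (hm : ∀ i, m i ∈ K.D0) {R : (γ ⊕ Unit → N) → Prop}
    (hR : Dfn L R) (h : ∀ x ∈ K.D, R (ap m x) → x ∈ K.D0) :
    {x | x ∈ K.D ∧ R (ap m x)}.Finite := by
  classical
  by_contra hcon
  have hinf : {x | x ∈ K.D ∧ R (ap m x)}.Infinite := hcon
  let ρ : Option K.D0 → (Unit → N) → Prop := fun i x =>
    match i with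
    | none => x () ∈ K.D ∧ R (ap m (x ()))
    | some d => x () ≠ (d : N)
  obtain ⟨x, -, hx⟩ := K.lev.sat_rel 0 (κ := Unit) (I := Option K.D0)
    (fun _ => (⟨K.lev.ne.some, K.lev.ne.some_mem⟩, 0)) (fun _ _ _ => rfl) ρ (by
      rintro (_ | d)
      · refine DfnO.and (DfnO.of_dfn0 K.dfnD) ?_
        exact (DfnO.of_dfn hR m (fun i => K.lvl (hm i))).of_iff fun x => Iff.rfl
      · have := DfnO.of_dfn (L := L) (B := K.lev.S 0) (κ := Unit)
          (R := fun u : Unit ⊕ Unit → N => ¬ u (Sum.inr ()) = u (Sum.inl ()))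
          (Dfn.eq _ _).not (fun _ => (d : N)) (fun _ => K.lvl d.2)
        exact this.of_iff fun x => Iff.rfl) (by
      intro F
      have hfin : ((fun i : Option K.D0 => match i with
        | none => K.lev.ne.some
        | some d => (d : N)) '' (F : Set (Option K.D0))).Finite := F.finite_toSet.image _
      obtain ⟨x, hx1, hx2⟩ := (hinf.sdiff hfin).nonempty
      refine ⟨fun _ => x, ?_⟩
      rintro (_ | d) hi
      · exact hx1
      · intro he
        exact hx2 ⟨some d, hi, he.symm⟩)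
  have h1 := hx none
  have h2 : x () ∈ K.D0 := h _ h1.1 h1.2
  exact hx (some ⟨x (), h2⟩) rfl

/-- A finite `D0`-definable subset of `D` is contained in `D0`.
Proof: let `F` be the (finite) set of its elements in `D0`; if `x` is in the set and not in `D0`,
then the relation `R (ap m x) ∧ x ∉ F` (parameters `m` and the elements of `F`; use the index type
`γ ⊕ F`) holds at `x`, so by `K.tv1` it holds at some `y ∈ D0`: contradiction. -/
theorem sub_of_fin {γ : Type} {m : γ → N} (hm : ∀ i, m i ∈ K.D0) {R : (γ ⊕ Unit → N) → Prop}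
    (hR : Dfn L R) (h : {x | x ∈ K.D ∧ R (ap m x)}.Finite) :
    ∀ x ∈ K.D, R (ap m x) → x ∈ K.D0 := by
  classical
  intro x hx hRx
  by_contra hx0
  have hF : ({x | x ∈ K.D ∧ R (ap m x)} ∩ K.D0).Finite := h.inter_of_left _
  have : Finite ↥({x | x ∈ K.D ∧ R (ap m x)} ∩ K.D0) := hF
  obtain ⟨y, hy, hy1, hy2⟩ := K.tv1
    (α := γ ⊕ ↥({x | x ∈ K.D ∧ R (ap m x)} ∩ K.D0))
    (R := fun u => R (ap (u ∘ Sum.inl ∘ Sum.inl) (u (Sum.inr ()))) ∧
      ∀ f : ↥({x | x ∈ K.D ∧ R (ap m x)} ∩ K.D0), ¬ u (Sum.inr ()) = u (Sum.inl (Sum.inr f)))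
    (by
      refine Dfn.and ?_ (Dfn.finiteAll fun f => (Dfn.eq _ _).not)
      exact Dfn.comp hR (Sum.map Sum.inl id)
        (fun u => ap (u ∘ Sum.inl ∘ Sum.inl) (u (Sum.inr ()))) (by
          rintro v (k | k) <;> rfl))
    (m := Sum.elim m (fun f => (f : N)))
    (by
      rintro (i | f)
      · exact hm i
      · exact f.2.2)
    hx ⟨hRx, fun f hf => hx0 (by
      have hf' : x = (f : N) := hf
      rw [hf']
      exact f.2.2)⟩
  exact hy2 ⟨y, ⟨K.sub hy, hy1⟩, hy⟩ rfl

/-- An `e`-definable set with infinitely many elements in `D0` contains an element of `P` which is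
finitely satisfiable over `e`.
Proof: saturation: the relations `x ∈ D`, `R (ap e x)`, `x ≠ m` (`m ∈ D0`), `¬ S (x; e)` for all
definable `S` with no solution in `D0` (i.e. `S (one x', e)` false for `x' ∈ D0`) are finitely
satisfiable by elements of `D0`. -/
theorem exists_coheir {β : Type} [Finite β] (e : β → N) {R : (β ⊕ Unit → N) → Prop}
    (hR : Dfn L R) (h : {x | x ∈ K.D0 ∧ R (ap e x)}.Infinite) :
    ∃ x ∈ K.P, R (ap e x) ∧ K.FS (one x) e := by
  classical
  obtain ⟨n, hn⟩ := K.lev.finite_level e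
  let J := {φ : L.Formula (Unit ⊕ β) // ∀ y ∈ K.D0, ¬ φ.Realize (Sum.elim (one y) e)}
  let ρ : Option K.D0 ⊕ J → (Unit → N) → Prop := fun i x =>
    match i with
    | Sum.inl none => x () ∈ K.D ∧ R (ap e (x ()))
    | Sum.inl (some d) => x () ≠ (d : N)
    | Sum.inr φ => ¬ φ.1.Realize (Sum.elim x e)
  obtain ⟨x, -, hx⟩ := K.lev.sat_rel n (κ := Unit) (I := Option K.D0 ⊕ J)
    (fun _ => (⟨K.lev.ne.some, K.lev.mono (Nat.zero_le n) K.lev.ne.some_mem⟩, 0))
    (fun _ _ _ => rfl) ρ (by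
      rintro ((_ | d) | φ)
      · refine DfnO.and (DfnO.of_dfn0 K.dfnD) ?_
        exact (DfnO.of_dfn hR e hn).of_iff fun x => Iff.rfl
      · have := DfnO.of_dfn (L := L) (B := K.lev.S n) (κ := Unit)
          (R := fun u : Unit ⊕ Unit → N => ¬ u (Sum.inr ()) = u (Sum.inl ()))
          (Dfn.eq _ _).not (fun _ => (d : N))
          (fun _ => K.lev.mono (Nat.zero_le n) (K.lvl d.2))
        exact this.of_iff fun x => Iff.rfl
      · have := DfnO.of_dfn (L := L) (B := K.lev.S n) (κ := Unit)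
          (R := fun u : β ⊕ Unit → N => ¬ φ.1.Realize (Sum.elim (u ∘ Sum.inr) (u ∘ Sum.inl)))
          (Dfn.real φ.1 Sum.swap _ (by rintro v (k | k) <;> rfl)).not e hn
        exact this.of_iff fun x => Iff.rfl) (by
      intro F
      have hfin : ((fun i : Option K.D0 ⊕ J => match i with
        | Sum.inl (some d) => (d : N)
        | _ => K.lev.ne.some) '' (F : Set (Option K.D0 ⊕ J))).Finite := F.finite_toSet.image _
      obtain ⟨x, hx1, hx2⟩ := (h.sdiff hfin).nonempty
      refine ⟨fun _ => x, ?_⟩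
      rintro ((_ | d) | φ) hi
      · exact ⟨K.sub hx1.1, hx1.2⟩
      · intro he
        exact hx2 ⟨Sum.inl (some d), hi, he.symm⟩
      · exact φ.2 x hx1.1)
  have h1 := hx (Sum.inl none)
  refine ⟨x (), ⟨h1.1, fun h2 => hx (Sum.inl (some ⟨x (), h2⟩)) rfl⟩, h1.2, ?_⟩
  intro R' hR' hc
  by_contra hcon
  push Not at hcon
  obtain ⟨φ, hφ⟩ := hR'
  have h3 := hx (Sum.inr ⟨φ, fun y hy hr => hcon (one y) (fun _ => hy) ((hφ _).1 hr)⟩)
  exact h3 ((hφ _).2 hc)

/-- every tuple of `D` is finitely satisfiable over the empty tuple (`K.tv`) -/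
theorem FS_empty {α β : Type} [Finite α] [IsEmpty β] {c : α → N} (hc : ∀ i, c i ∈ K.D)
    (e : β → N) : K.FS c e := by
  intro R hR h
  obtain ⟨y, hy1, hy2⟩ := K.tv (α := β) (κ := α)
    (fun u => R (Sum.elim (u ∘ Sum.inr) (u ∘ Sum.inl)))
    (Dfn.comp hR Sum.swap (fun u => Sum.elim (u ∘ Sum.inr) (u ∘ Sum.inl)) (by
      rintro v (k | k) <;> rfl)) e (fun i => isEmptyElim i) c hc h
  exact ⟨y, hy1, hy2⟩

end Pool.Agent.MNM.Ctx
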