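import Pool.Agent.MNM.Core

/-! MNM: finite satisfiability in `D0`: adding parameters (part B). -/

open FirstOrder FirstOrder.Language
open scoped Pointwise
open Pool.Agent.VCM

namespace Pool.Agent.MNM.Ctx

variable {L : FirstOrder.Language.{0, 0}} {N : Type} [L.Structure N] (K : Ctx L N)

/-- Parameters from `D0` may be added.
Proof: let `R (c; e, m)` hold, `R` definable, and suppose no `c' ∈ D0` satisfies `R (c'; e, m)`.
`m` is a finite tuple of elements of `D0`, each in a finite definable set (`K.alg`), so only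
finitely many tuples `m'` have the coordinates in these finite sets.  For each such `m'` with
`¬ TpEq (e, m') (e, m)` choose a definable relation true of `(e, m)` and false of `(e, m')`; the
conjunction with the finite definable sets is a definable `B (e, z)` with
`B (e, m') → TpEq (e, m') (e, m)`, `B (e, m)`.
Let `R' (c; e) := ∃ z, B (e, z) ∧ R (c; e, z)` (definable by `Dfn.exT`).  `R' (c; e)` holds, so by
`h` there is `c' ∈ D0` and `z` with `B (e, z)`, `R (c'; e, z)`.  By `K.hom` there is an automorphism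
`g` with `g e = e`, `g z = m`; then `R (g c'; e, m)` and `g c' ∈ D0` (`K.aut_D0`). -/
theorem FS_param {α β γ : Type} [Finite α] [Finite β] [Finite γ] {c : α → N} {e : β → N}
    (h : K.FS c e) {m : γ → N} (hm : ∀ i, m i ∈ K.D0) : K.FS c (Sum.elim e m) := by
  classical
  intro R hR hc
  have hne : Nonempty N := K.ne
  choose A hA1 hA2 hA3 hA4 using fun i => K.alg (m i) (hm i)
  have hZ : (Set.pi Set.univ A).Finite := Set.Finite.pi fun i => hA1 i
  have hch : ∀ z : γ → N, ∃ ψ : L.Formula (β ⊕ γ), ψ.Realize (Sum.elim e m) ∧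
      (ψ.Realize (Sum.elim e z) → TpEq L (Sum.elim e z) (Sum.elim e m)) := by
    intro z
    by_cases ht : TpEq L (Sum.elim e z) (Sum.elim e m)
    · exact ⟨⊤, by simp, fun _ => ht⟩
    · have ht' := ht
      unfold TpEq at ht'
      push Not at ht'
      obtain ⟨φ, hφ⟩ := ht'
      rcases hφ with hφ | hφ
      · exact ⟨φ.not, by rw [Formula.realize_not]; exact hφ.2,
          fun h2 => absurd hφ.1 (by rwa [Formula.realize_not] at h2)⟩
      · exact ⟨φ, hφ.2, fun h2 => absurd h2 hφ.1⟩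
  choose ψ hψ1 hψ2 using hch
  let B : (β ⊕ γ → N) → Prop := fun u =>
    (∀ i, u (Sum.inr i) ∈ A i) ∧ ∀ z ∈ hZ.toFinset, (ψ z).Realize u
  have hB : Dfn L B := by
    refine Dfn.and (Dfn.finiteAll fun i => ?_) (Dfn.finsetAll _ fun z _ => Dfn.formula _)
    exact Dfn.comp (hA4 i) (fun _ => Sum.inr i) (fun v => fun _ => v (Sum.inr i)) (fun _ _ => rfl)
  have hBm : B (Sum.elim e m) := ⟨fun i => hA3 i, fun z _ => hψ1 z⟩
  have hBz : ∀ z, B (Sum.elim e z) → TpEq L (Sum.elim e z) (Sum.elim e m) := by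
    intro z hz
    refine hψ2 z (hz.2 z ?_)
    rw [Set.Finite.mem_toFinset]
    exact fun i _ => hz.1 i
  obtain ⟨c', hc', z, hz1, hz2⟩ := h
    (fun v => ∃ z : γ → N, B (Sum.elim (v ∘ Sum.inr) z) ∧
      R (Sum.elim (v ∘ Sum.inl) (Sum.elim (v ∘ Sum.inr) z)))
    (by
      refine Dfn.exT (R := fun (v : α ⊕ β → N) (z : γ → N) => B (Sum.elim (v ∘ Sum.inr) z) ∧
        R (Sum.elim (v ∘ Sum.inl) (Sum.elim (v ∘ Sum.inr) z))) (Dfn.and ?_ ?_)
      · exact Dfn.comp hB (Sum.elim (fun b => Sum.inl (Sum.inr b)) (fun c => Sum.inr c))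
          (fun u : (α ⊕ β) ⊕ γ → N => Sum.elim ((u ∘ Sum.inl) ∘ Sum.inr) (u ∘ Sum.inr))
          (by rintro v (k | k) <;> rfl)
      · exact Dfn.comp hR (Sum.elim (fun a => Sum.inl (Sum.inl a))
            (Sum.elim (fun b => Sum.inl (Sum.inr b)) (fun c => Sum.inr c)))
          (fun u : (α ⊕ β) ⊕ γ → N => Sum.elim ((u ∘ Sum.inl) ∘ Sum.inl)
            (Sum.elim ((u ∘ Sum.inl) ∘ Sum.inr) (u ∘ Sum.inr)))
          (by rintro v (k | k | k) <;> rfl))
    ⟨m, hBm, hc⟩
  obtain ⟨g, hg⟩ := K.hom (hBz z hz1)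
  refine ⟨fun i => g • c' i, fun i => (K.aut_D0 g _).2 (hc' i), ?_⟩
  have h1 := (dfn_aut g hR (Sum.elim c' (Sum.elim e z))).2 hz2
  have h2 : (fun i => g • (Sum.elim c' (Sum.elim e z) i)) =
      Sum.elim (fun i => g • c' i) (Sum.elim e m) := by
    funext k
    rcases k with k | k | k
    · rfl
    · exact hg (Sum.inl k)
    · exact hg (Sum.inr k)
  rw [h2] at h1
  exact h1

end Pool.Agent.MNM.Ctx
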