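import Pool.Agent.MNM.FclB

/-! MNM: the classes `F(a)`: symmetry. -/

open FirstOrder FirstOrder.Language
open scoped Pointwise
open Pool.Agent.VCM

namespace Pool.Agent.MNM.Ctx

variable {L : FirstOrder.Language.{0, 0}} {N : Type} [L.Structure N] (K : Ctx L N)

private theorem exists_pow (g : AutG L N) {γ : Type} [Finite γ] (m : γ → N)
    (hm : ∀ i, m i ∈ K.D0) : ∃ k : ℕ, ∀ i, g ^ (k + 1) • m i = m i := by
  choose A hf hs hmem hd using fun i => K.alg (m i) (hm i)
  have hinv : ∀ (i : γ) (k : ℕ), g ^ k • m i ∈ A i := by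
    intro i k
    exact (dfn_aut (g ^ k) (hd i) (fun _ => m i)).2 (hmem i)
  have : ∀ i, Finite (A i) := fun i => (hf i).to_subtype
  obtain ⟨k1, k2, hne, he⟩ := Finite.exists_ne_map_eq_of_infinite
    (fun k : ℕ => fun i : γ => (⟨g ^ k • m i, hinv i k⟩ : A i))
  have key : ∀ k1 k2 : ℕ, k1 < k2 → (∀ i, g ^ k1 • m i = g ^ k2 • m i) →
      ∃ k : ℕ, ∀ i, g ^ (k + 1) • m i = m i := by
    intro k1 k2 hlt h
    refine ⟨k2 - k1 - 1, fun i => ?_⟩
    have e : k2 = k1 + (k2 - k1 - 1 + 1) := by omega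
    have h1 := h i
    rw [e, pow_add, mul_smul] at h1
    have h2 := (smul_left_cancel_iff (g ^ k1)).1 h1
    exact h2.symm
  have he' : ∀ i, g ^ k1 • m i = g ^ k2 • m i := fun i =>
    congrArg Subtype.val (congrFun he i)
  rcases lt_or_gt_of_ne hne with hlt | hlt
  · exact key k1 k2 hlt he'
  · exact key k2 k1 hlt (fun i => (he' i).symm)

/-- Proof: let `g • a = x` (`aut_of_P`).  `Fc a (g a)` implies `Fc (g^i a) (g^(i+1) a)` (`Fc_aut`), so
`Fc (g a) (g^k a)` for all `k ≥ 1` (`Fc_trans`, `Fc_refl`).  Let `R (ap m a)` with `m` in `D0` a finite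
tuple; all coordinates lie in a finite set `A` which is invariant under automorphisms (`K.alg`), so
there is `k ≥ 1` with `g^k • m i = m i` for all `i` (pigeonhole on the maps `i ↦ g^k • m i`, or the
order of the permutation of `A`).  Then `R (ap m (g^k a))` (`dfn_aut`), and `Fc (g a) (g^k a)` gives
`z`. -/
theorem Fc_symm {a x : N} (ha : a ∈ K.P) (h : K.Fc a x) : K.Fc x a := by
  obtain ⟨g, rfl⟩ := K.aut_of_P ha h.1
  have h1 : ∀ i : ℕ, K.Fc (g ^ i • a) (g ^ i • (g • a)) := fun i => (K.Fc_aut (g ^ i) a (g • a)).2 h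
  have hP : ∀ i : ℕ, g ^ i • a ∈ K.P := fun i => (K.aut_P _ a).2 ha
  have h2 : ∀ k : ℕ, K.Fc (g • a) (g ^ (k + 1) • a) := by
    intro k
    induction k with
    | zero =>
      rw [zero_add, pow_one]
      exact K.Fc_refl h.1
    | succ k ih =>
      refine K.Fc_trans h.1 ih ?_
      have := h1 (k + 1)
      rw [smul_smul, ← pow_succ] at this
      exact this
  refine ⟨ha, fun γ _ m hm R hR hr => ?_⟩
  obtain ⟨k, hk⟩ := exists_pow K g m hm
  have h3 : R (ap m (g ^ (k + 1) • a)) := by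
    have e : ap m (g ^ (k + 1) • a) = fun j => g ^ (k + 1) • (ap m a j) := by
      rw [← ap_smul]
      congr 1
      funext i
      exact (hk i).symm
    rw [e, dfn_aut _ hR]
    exact hr
  exact (h2 k).2 γ m hm R hR h3

end Pool.Agent.MNM.Ctx
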