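import Pool.Agent.MNM.Cl

/-! MNM: the classes `F(a)` (closures of `SI(a)` in the topology of `D0`-definable sets): definitions, `P2` relations. -/

open FirstOrder FirstOrder.Language
open scoped Pointwise
open Pool.Agent.VCM

namespace Pool.Agent.MNM.Ctx

variable {L : FirstOrder.Language.{0, 0}} {N : Type} [L.Structure N] (K : Ctx L N)

/-- finite columns over `D0` -/
def P2 (ψ : N → N → Prop) : Prop := ∀ y ∈ K.D0, {x | x ∈ K.D ∧ ψ x y}.Finite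

/-- `x` is in the closure of `SI(a) = {z ∈ P | ¬ Be z a}` for the topology of `D0`-definable sets -/
def Fc (a x : N) : Prop :=
  x ∈ K.P ∧ ∀ (γ : Type) [Finite γ] (m : γ → N), (∀ i, m i ∈ K.D0) →
    ∀ R : (γ ⊕ Unit → N) → Prop, Dfn L R → R (ap m x) → ∃ z ∈ K.P, ¬ K.Be z a ∧ R (ap m z)

private theorem dfn_swap {ψ : N → N → Prop} (hψ : Dfn L (fun v : Fin 2 → N => ψ (v 0) (v 1))) :
    Dfn L (fun u : Unit ⊕ Unit → N => ψ (u (Sum.inr ())) (u (Sum.inl ()))) := by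
  refine Dfn.comp hψ (fun i : Fin 2 => if i = 0 then Sum.inr () else Sum.inl ())
    (fun u i => if i = 0 then u (Sum.inr ()) else u (Sum.inl ())) ?_
  intro v b
  split_ifs <;> rfl

/-- `P2` relations describe `SI(a)`: this is `not_Ind_iff` for the tuple `one z` and the element `a`,
with the variables renamed (`R (ap (one z) a) ↔ ψ a z`). -/
theorem SI_iff {a z : N} (ha : a ∈ K.P) :
    ¬ K.Be z a ↔ ∃ ψ : N → N → Prop, Dfn L (fun v : Fin 2 → N => ψ (v 0) (v 1)) ∧ K.P2 ψ ∧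
      ψ a z := by
  have h0 : ¬ K.Be z a ↔ ¬ K.Ind (one z) a := Iff.rfl
  rw [h0, K.not_Ind_iff ha]
  constructor
  · rintro ⟨R, hR, hc, h⟩
    refine ⟨fun x y => R (ap (one y) x), ?_, fun y hy => hc (one y) (fun _ => hy), h⟩
    refine Dfn.comp hR (Sum.elim (fun _ => 1) (fun _ => 0)) (fun v => ap (one (v 1)) (v 0)) ?_
    rintro v (k | k) <;> rfl
  · rintro ⟨ψ, hψ, h2, h⟩
    exact ⟨fun u => ψ (u (Sum.inr ())) (u (Sum.inl ())), dfn_swap hψ,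
      fun m hm => h2 (m ()) (hm ()), h⟩

/-- if `ψ` is `P2` and `ψ a y` with `a ∈ P`, `y ∈ D`, then `y ∈ P` and `¬ Be y a`.
(`y ∈ D0` is impossible: `sub_of_fin` for the finite set `{x ∈ D | ψ x y}`.) -/
theorem P2_mem {ψ : N → N → Prop} (hψ : Dfn L (fun v : Fin 2 → N => ψ (v 0) (v 1)))
    (h2 : K.P2 ψ) {a y : N} (ha : a ∈ K.P) (hy : y ∈ K.D) (h : ψ a y) :
    y ∈ K.P ∧ ¬ K.Be y a := by
  refine ⟨⟨hy, fun h0 => ?_⟩, (K.SI_iff ha).2 ⟨ψ, hψ, h2, h⟩⟩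
  exact ha.2 (K.sub_of_fin (γ := Unit) (m := one y) (fun _ => h0) (dfn_swap hψ) (h2 y h0) a
    ha.1 h)

theorem Fc_of_SI {a x : N} (hx : x ∈ K.P) (h : ¬ K.Be x a) : K.Fc a x :=
  ⟨hx, fun _ _ _ _ _ _ hR => ⟨x, hx, h, hR⟩⟩

theorem Fc_refl {a : N} (ha : a ∈ K.P) : K.Fc a a :=
  K.Fc_of_SI ha (K.not_Ind_self (c := one a) () ha)

end Pool.Agent.MNM.Ctx
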