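import Pool.Agent.MNM.FclA

/-! MNM: the classes `F(a)`: automorphisms, transitivity. -/

open FirstOrder FirstOrder.Language
open scoped Pointwise
open Pool.Agent.VCM

namespace Pool.Agent.MNM.Ctx

variable {L : FirstOrder.Language.{0, 0}} {N : Type} [L.Structure N] (K : Ctx L N)

/-- invariance under automorphisms (`dfn_aut`, `FS_smul`, `aut_D0`, `aut_P`) -/
theorem Fc_aut (g : AutG L N) (a x : N) : K.Fc (g • a) (g • x) ↔ K.Fc a x := by
  have key : ∀ (g : AutG L N) (a x : N), K.Fc a x → K.Fc (g • a) (g • x) := by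
    intro g a x h
    refine ⟨(K.aut_P g x).2 h.1, fun γ _ m hm R hR hx => ?_⟩
    have e1 : ap m (g • x) = fun k => g • (ap (fun i => g⁻¹ • m i) x k) := by
      rw [← ap_smul]
      congr 1
      funext i
      rw [smul_inv_smul]
    rw [e1, dfn_aut g hR] at hx
    obtain ⟨z, hz, hb, hr⟩ := h.2 γ (fun i => g⁻¹ • m i) (fun i => (K.aut_D0 g⁻¹ _).2 (hm i))
      R hR hx
    refine ⟨g • z, (K.aut_P g z).2 hz, fun hbe => hb ?_, ?_⟩
    · have h1 : K.FS (fun i => g • (one z) i) (fun j => g • (one a) j) := hbe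
      exact (K.FS_smul g).1 h1
    · have e2 : ap m (g • z) = fun k => g • (ap (fun i => g⁻¹ • m i) z k) := by
        rw [← ap_smul]
        congr 1
        funext i
        rw [smul_inv_smul]
      rw [e2, dfn_aut g hR]
      exact hr
  refine ⟨fun h => ?_, key g a x⟩
  have := key g⁻¹ _ _ h
  rwa [inv_smul_smul, inv_smul_smul] at this

/-- Proof: let `R (ap m y)`.  By `Fc x y` there is `z' ∈ P` with `R (ap m z')`, `¬ Be z' x`; by `SI_iff`
take a `P2` relation `ψ` with `ψ x z'`.  The relation `∃ z ∈ D, R (ap m z) ∧ ψ w z` holds for `w = x`,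
so by `Fc a x` for some `w ∈ P` with `¬ Be w a`; `z` is given; by `P2_mem`: `z ∈ P`, `¬ Be z w`, and
`Be_trans` gives `¬ Be z a`. -/
theorem Fc_trans {a x y : N} (ha : a ∈ K.P) (hx : K.Fc a x) (hy : K.Fc x y) : K.Fc a y := by
  have := K.ne
  refine ⟨hy.1, fun γ _ m hm R hR hr => ?_⟩
  obtain ⟨z', hz', hb', hr'⟩ := hy.2 γ m hm R hR hr
  obtain ⟨ψ, hψ, h2, h⟩ := (K.SI_iff hx.1).1 hb'
  obtain ⟨w, hw, hbw, z, hzD, hrz, hpz⟩ := hx.2 γ m hm
    (fun u => ∃ z, z ∈ K.D ∧ R (ap (u ∘ Sum.inl) z) ∧ ψ (u (Sum.inr ())) z) (by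
      refine Dfn.ex1 (R := fun (u : γ ⊕ Unit → N) z =>
        z ∈ K.D ∧ R (ap (u ∘ Sum.inl) z) ∧ ψ (u (Sum.inr ())) z) ?_
      refine Dfn.and (K.dfn_D (Sum.inr ())) (Dfn.and ?_ ?_)
      · refine Dfn.comp hR (Sum.elim (fun i => Sum.inl (Sum.inl i)) (fun _ => Sum.inr ()))
          (fun v => ap ((v ∘ Sum.inl) ∘ Sum.inl) (v (Sum.inr ()))) ?_
        rintro v (k | k) <;> rfl
      · refine Dfn.comp hψ (fun i : Fin 2 => if i = 0 then Sum.inl (Sum.inr ()) else Sum.inr ())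
          (fun v i => if i = 0 then v (Sum.inl (Sum.inr ())) else v (Sum.inr ())) ?_
        intro v b
        split_ifs <;> rfl)
    ⟨z', hz'.1, hr', h⟩
  obtain ⟨hzP, hbz⟩ := K.P2_mem hψ h2 hw hzD hpz
  exact ⟨z, hzP, K.Be_trans ha hw hzP hbw hbz, hrz⟩

end Pool.Agent.MNM.Ctx
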