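import Pool.Agent.MNM.Core

/-! MNM: isolated types (part A). -/

open FirstOrder FirstOrder.Language
open scoped Pointwise
open Pool.Agent.VCM

namespace Pool.Agent.MNM.Ctx

variable {L : FirstOrder.Language.{0, 0}} {N : Type} [L.Structure N] (K : Ctx L N)

include K in
/-- Transitivity.  Proof: if `R (c, x)` isolates the type of `x` over `c` and `S ((c, x), y)` the
type of `y` over `(c, x)`, then `R (c, x) ∧ S ((c, x), y)` isolates the type of `(x, y)` over `c`:
if `R (c, x') ∧ S ((c, x'), y')`, an automorphism `g` fixes `c` and maps `x'` to `x` (`K.hom`), so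
`S ((c, x), g y')`, hence `(c, x', y') ≡ (c, x, g y') ≡ (c, x, y)`. -/
theorem Iso_trans {α β γ : Type} [Finite α] [Finite β] [Finite γ] {c : α → N} {x : β → N}
    {y : γ → N} (h : Iso L c x) (h' : Iso L (Sum.elim c x) y) : Iso L c (Sum.elim x y) := by
  obtain ⟨R, hR, h1, h2⟩ := h
  obtain ⟨S, hS, h3, h4⟩ := h'
  refine ⟨fun u => R (Sum.elim (u ∘ Sum.inl) (u ∘ Sum.inr ∘ Sum.inl)) ∧
    S (Sum.elim (Sum.elim (u ∘ Sum.inl) (u ∘ Sum.inr ∘ Sum.inl)) (u ∘ Sum.inr ∘ Sum.inr)),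
    ?_, ⟨h1, h3⟩, ?_⟩
  · refine Dfn.and ?_ ?_
    · exact Dfn.comp hR (Sum.elim Sum.inl (Sum.inr ∘ Sum.inl)) _ (by
        rintro v (k | k) <;> rfl)
    · exact Dfn.comp hS (Sum.elim (Sum.elim Sum.inl (Sum.inr ∘ Sum.inl)) (Sum.inr ∘ Sum.inr)) _ (by
        rintro v ((k | k) | k) <;> rfl)
  · intro z hz
    obtain ⟨hz1, hz2⟩ := hz
    set x' : β → N := z ∘ Sum.inl with hx'
    set y' : γ → N := z ∘ Sum.inr with hy'
    have hz1' : R (Sum.elim c x') := hz1
    have hz2' : S (Sum.elim (Sum.elim c x') y') := hz2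
    obtain ⟨g, hg⟩ := K.hom (h2 x' hz1')
    have e1 : (fun k => g • (Sum.elim c x' k)) = Sum.elim c x := funext hg
    have h5 : S (Sum.elim (Sum.elim c x) (fun j => g • y' j)) := by
      have := (dfn_aut g hS (Sum.elim (Sum.elim c x') y')).2 hz2'
      rw [← elim_smul, e1] at this
      exact this
    have h6 := h4 _ h5
    have h7 : TpEq L (fun k => g • (Sum.elim (Sum.elim c x') y' k)) (Sum.elim (Sum.elim c x') y') :=
      AutG.tp g _
    rw [← elim_smul, e1] at h7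
    have h8 := (h7.symm.trans h6).comp
      (Sum.elim (Sum.inl ∘ Sum.inl) (Sum.elim (Sum.inl ∘ Sum.inr) Sum.inr) :
        α ⊕ (β ⊕ γ) → (α ⊕ β) ⊕ γ)
    have e2 : Sum.elim c z = Sum.elim (Sum.elim c x') y' ∘
        (Sum.elim (Sum.inl ∘ Sum.inl) (Sum.elim (Sum.inl ∘ Sum.inr) Sum.inr) :
        α ⊕ (β ⊕ γ) → (α ⊕ β) ⊕ γ) := by
      funext k
      rcases k with k | k | k <;> rfl
    have e3 : Sum.elim c (Sum.elim x y) = Sum.elim (Sum.elim c x) y ∘
        (Sum.elim (Sum.inl ∘ Sum.inl) (Sum.elim (Sum.inl ∘ Sum.inr) Sum.inr) :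
        α ⊕ (β ⊕ γ) → (α ⊕ β) ⊕ γ) := by
      funext k
      rcases k with k | k | k <;> rfl
    rw [e2, e3]
    exact h8

include K in
/-- Subtuples.  Proof: `R' (c, y) := ∃ x : β → N, R (c, x) ∧ ∀ i, y i = x (f i)`. -/
theorem Iso_sub {α β β' : Type} [Finite α] [Finite β] [Finite β'] {c : α → N} {x : β → N}
    (h : Iso L c x) (f : β' → β) : Iso L c (x ∘ f) := by
  have := K.ne
  obtain ⟨R, hR, h1, h2⟩ := h
  refine ⟨fun u => ∃ w : β → N, R (Sum.elim (u ∘ Sum.inl) w) ∧ ∀ i, u (Sum.inr i) = w (f i),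
    ?_, ⟨x, h1, fun i => rfl⟩, ?_⟩
  · refine Dfn.exT (R := fun (u : α ⊕ β' → N) (w : β → N) =>
      R (Sum.elim (u ∘ Sum.inl) w) ∧ ∀ i, u (Sum.inr i) = w (f i)) ?_
    refine Dfn.and ?_ ?_
    · exact Dfn.comp hR (Sum.elim (Sum.inl ∘ Sum.inl) Sum.inr) _ (by
        rintro v (k | k) <;> rfl)
    · exact Dfn.finiteAll fun i => Dfn.eq (Sum.inl (Sum.inr i)) (Sum.inr (f i))
  · rintro z ⟨w, hw1, hw2⟩
    have h3 := (h2 w hw1).comp (Sum.map id f : α ⊕ β' → α ⊕ β)
    have e1 : Sum.elim c z = Sum.elim c w ∘ (Sum.map id f : α ⊕ β' → α ⊕ β) := by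
      funext k
      rcases k with k | k
      · rfl
      · exact hw2 k
    have e2 : Sum.elim c (x ∘ f) = Sum.elim c x ∘ (Sum.map id f : α ⊕ β' → α ⊕ β) := by
      funext k
      rcases k with k | k <;> rfl
    rw [e1, e2]
    exact h3

include K in
/-- The base may be replaced by an isolated tuple which is contained in it up to definable
equality; this is the form used: if `x` is isolated over `c`, and `d` is a subtuple reindexing of
`c` (`d = c ∘ f` with `f` surjective onto the coordinates used), then isolated over `d`.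
Here: reindexing of the base by a surjection `f` (so that `c` is recovered from `c ∘ f`). -/
theorem Iso_base {α α' β : Type} [Finite α] [Finite α'] [Finite β] {c : α → N} {x : β → N}
    (h : Iso L c x) (f : α' → α) (hf : Function.Surjective f) : Iso L (c ∘ f) x := by
  obtain ⟨R, hR, h1, h2⟩ := h
  obtain ⟨g, hg⟩ := hf.hasRightInverse
  have key : ∀ z : β → N, Sum.elim ((c ∘ f) ∘ g) z = Sum.elim c z := by
    intro z
    funext k
    rcases k with k | k
    · exact congrArg c (hg k)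
    · rfl
  refine ⟨fun u => R (Sum.elim ((u ∘ Sum.inl) ∘ g) (u ∘ Sum.inr)), ?_, ?_, ?_⟩
  · exact Dfn.comp hR (Sum.map g id) _ (by
      rintro v (k | k) <;> rfl)
  · change R (Sum.elim ((c ∘ f) ∘ g) x)
    rw [key]
    exact h1
  · intro z hz
    have hz' : R (Sum.elim ((c ∘ f) ∘ g) z) := hz
    rw [key] at hz'
    have h3 := (h2 z hz').comp (Sum.map f id : α' ⊕ β → α ⊕ β)
    have e : ∀ z : β → N, Sum.elim (c ∘ f) z = Sum.elim c z ∘ (Sum.map f id : α' ⊕ β → α ⊕ β) := by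
      intro z
      funext k
      rcases k with k | k <;> rfl
    rw [e, e]
    exact h3

include K in
/-- `(x, y)` isolated over `c` implies `y` isolated over `(c, x)`: the same relation -/
theorem Iso_over {α β γ : Type} [Finite α] [Finite β] [Finite γ] {c : α → N} {x : β → N}
    {y : γ → N} (h : Iso L c (Sum.elim x y)) : Iso L (Sum.elim c x) y := by
  obtain ⟨R, hR, h1, h2⟩ := h
  refine ⟨fun u => R (Sum.elim (u ∘ Sum.inl ∘ Sum.inl)
    (Sum.elim (u ∘ Sum.inl ∘ Sum.inr) (u ∘ Sum.inr))), ?_, h1, ?_⟩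
  · exact Dfn.comp hR (Sum.elim (Sum.inl ∘ Sum.inl) (Sum.elim (Sum.inl ∘ Sum.inr) Sum.inr)) _ (by
      rintro v (k | k | k) <;> rfl)
  · intro z hz
    have h3 := (h2 (Sum.elim x z) hz).comp
      (Sum.elim (Sum.elim Sum.inl (Sum.inr ∘ Sum.inl)) (Sum.inr ∘ Sum.inr) :
        (α ⊕ β) ⊕ γ → α ⊕ (β ⊕ γ))
    have e : ∀ z : γ → N, Sum.elim (Sum.elim c x) z = Sum.elim c (Sum.elim x z) ∘
      (Sum.elim (Sum.elim Sum.inl (Sum.inr ∘ Sum.inl)) (Sum.inr ∘ Sum.inr) :
        (α ⊕ β) ⊕ γ → α ⊕ (β ⊕ γ)) := by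
      intro z
      funext k
      rcases k with (k | k) | k <;> rfl
    rw [e, e]
    exact h3

include K in
/-- invariance under change of the type of `(c, x)` -/
theorem Iso_tp {α β : Type} [Finite α] [Finite β] {c c' : α → N} {x x' : β → N}
    (h : Iso L c x) (ht : TpEq L (Sum.elim c x) (Sum.elim c' x')) : Iso L c' x' := by
  obtain ⟨R, hR, h1, h2⟩ := h
  refine ⟨R, hR, (hR.tp ht).1 h1, ?_⟩
  intro z hz
  obtain ⟨g, hg⟩ := K.hom ht.symm
  have e1 : (fun i => g • c' i) = c := funext fun i => hg (Sum.inl i)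
  have h3 : R (Sum.elim c (fun j => g • z j)) := by
    have := (dfn_aut g hR (Sum.elim c' z)).2 hz
    rw [← elim_smul, e1] at this
    exact this
  have h4 := h2 _ h3
  have h5 : TpEq L (fun k => g • (Sum.elim c' z k)) (Sum.elim c' z) := AutG.tp g _
  rw [← elim_smul, e1] at h5
  exact (h5.symm.trans h4).trans ht

end Pool.Agent.MNM.Ctx
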