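import Pool.Agent.MNM.Fcl
import Pool.Agent.MNM.Baire

/-! MNM: a `P2` relation which is dense in an open part of `F(a)`. -/

open FirstOrder FirstOrder.Language
open scoped Pointwise
open Pool.Agent.VCM

namespace Pool.Agent.MNM.Ctx

variable {L : FirstOrder.Language.{0, 0}} {N : Type} [L.Structure N] (K : Ctx L N)

/-- reduction to finitely many parameters -/
private theorem lamA_fin {α : Type} {T : (α ⊕ Unit → N) → Prop} (hT : Dfn L T) (p : α → N) :
    ∃ (n : ℕ) (s : Fin n → α) (R : (Fin n ⊕ Unit → N) → Prop), Dfn L R ∧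
      ∀ x : N, R (ap (p ∘ s) x) ↔ T (ap p x) := by
  classical
  obtain ⟨φ, hφ⟩ := hT
  obtain ⟨F, ψ, hψ⟩ := fin_supp φ
  let e : F.toLeft ≃ Fin (Fintype.card F.toLeft) := Fintype.equivFin F.toLeft
  let g : F → Fin (Fintype.card F.toLeft) ⊕ Unit := fun a => match a with
    | ⟨Sum.inl a, h⟩ => Sum.inl (e ⟨a, Finset.mem_toLeft.2 h⟩)
    | ⟨Sum.inr _, _⟩ => Sum.inr ()
  refine ⟨Fintype.card F.toLeft, fun i => (e.symm i).1, fun u => ψ.Realize (fun a => u (g a)),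
    Dfn.real ψ g (fun u a => u (g a)) (fun _ _ => rfl), fun x => ?_⟩
  rw [← hφ, hψ]
  have h1 : (fun a : F => ap (p ∘ fun i => (e.symm i).1) x (g a)) = fun a : F => ap p x a := by
    funext a
    rcases a with ⟨a | a, h⟩
    · show p (e.symm (e ⟨a, _⟩)).1 = p a
      rw [e.symm_apply_apply]
    · rfl
  show ψ.Realize (fun a : F => ap (p ∘ fun i => (e.symm i).1) x (g a)) ↔
    ψ.Realize (fun a : F => ap p x a)
  rw [h1]

/-- the basic open sets -/
private def LamAU : Set ((Unit → N) → Prop) :=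
  {U | ∃ (n : ℕ) (m : Fin n → N) (R : (Fin n ⊕ Unit → N) → Prop), (∀ i, m i ∈ K.D0) ∧ Dfn L R ∧
    ∀ v, U v ↔ R (ap m (v ()))}

private theorem lamAU_of {α : Type} {m : α → N} (hm : ∀ i, m i ∈ K.D0)
    {R : (α ⊕ Unit → N) → Prop} (hR : Dfn L R) : (fun v => R (ap m (v ()))) ∈ K.LamAU := by
  obtain ⟨n, s, R', hR', h⟩ := lamA_fin hR m
  exact ⟨n, m ∘ s, R', fun i => hm _, hR', fun v => (h (v ())).symm⟩

private theorem lamAU_and {U V : (Unit → N) → Prop} (hU : U ∈ K.LamAU) (hV : V ∈ K.LamAU) :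
    (fun v => U v ∧ V v) ∈ K.LamAU := by
  obtain ⟨n, m, R, hm, hR, h⟩ := hU
  obtain ⟨n', m', R', hm', hR', h'⟩ := hV
  have h2 : Dfn L (fun u : (Fin n ⊕ Fin n') ⊕ Unit → N =>
        R (ap (u ∘ Sum.inl ∘ Sum.inl) (u (Sum.inr ()))) ∧
        R' (ap (u ∘ Sum.inl ∘ Sum.inr) (u (Sum.inr ())))) := by
    refine (Dfn.comp hR (Sum.map Sum.inl id) _ ?_).and (Dfn.comp hR' (Sum.map Sum.inr id) _ ?_)
    · rintro v (k | k) <;> rfl
    · rintro v (k | k) <;> rfl
  have h3 : ∀ i, Sum.elim m m' i ∈ K.D0 := by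
    rintro (i | i)
    · exact hm i
    · exact hm' i
  have h4 := K.lamAU_of h3 h2
  have h1 : (fun v : Unit → N => U v ∧ V v) = fun v =>
      R (ap m (v ())) ∧ R' (ap m' (v ())) := by
    funext v
    exact propext (and_congr (h v) (h' v))
  rw [h1]
  exact h4

private theorem lamAU_dfnO {U : (Unit → N) → Prop} (hU : U ∈ K.LamAU) (n : ℕ) :
    DfnO L (K.lev.S n) U := by
  obtain ⟨k, m, R, hm, hR, h⟩ := hU
  refine (DfnO.of_dfn hR m fun i => K.lev.mono (Nat.zero_le _) (K.lvl (hm i))).of_iff fun v => ?_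
  rw [h v]
  rfl

/-- the relations which describe `F(a)` -/
private theorem lamA_Fc {a x : N}
    (h : ∀ ρ : (Unit → N) → Prop, DfnO L (K.lev.S 0) ρ → (∀ y, K.Fc a y → ρ (one y)) →
      ρ (one x)) : K.Fc a x := by
  refine ⟨⟨?_, ?_⟩, ?_⟩
  · exact h (fun v => v () ∈ K.D) (DfnO.of_dfn0 K.dfnD) fun y hy => hy.1.1
  · intro hx
    have h1 : DfnO L (K.lev.S 0) (fun v : Unit → N => v () ≠ x) := by
      refine ((DfnO.of_dfn (κ := Unit) (R := fun u : Unit ⊕ Unit → N =>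
        u (Sum.inr ()) = u (Sum.inl ())) (Dfn.eq _ _) (one x)
        (fun _ => K.lvl hx)).not).of_iff fun v => ?_
      rfl
    exact h _ h1 (fun y hy hyx => hy.1.2 (by
      have h2 : y = x := hyx
      rw [h2]
      exact hx)) rfl
  · intro γ _ m hm R hR hRx
    by_contra hcon
    have h1 : DfnO L (K.lev.S 0) (fun v : Unit → N => ¬ R (ap m (v ()))) := by
      refine ((DfnO.of_dfn hR m fun i => K.lvl (hm i)).not).of_iff fun v => ?_
      rfl
    exact h _ h1 (fun y hy hRy => hcon (hy.2 γ m hm R hR hRy)) hRx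

/-- Proof.  Apply `K.baire` with the tuple `c := one a`, a level `n` containing nothing special
(`n := 0`; all sets are definable over `D0 ⊆ lev.S 0`), the closed set
`F(a)`, described by the relations: `v () ∈ D`, `v () ≠ m` (`m ∈ D0`), and `R (ap m (v ()))` for all
`(γ, m, R)` (`γ = Fin n`, to stay in a small index type) which hold on all of `F(a)` [an element
satisfying all of them is in `F(a)`: if `R (ap m x)` and no `z ∈ P` with `¬ Be z a` satisfies
`R (ap m z)`, then `¬ R (ap m ·)` holds on `F(a)`], and `𝒰` := the sets `R (ap m ·)` (`m` a finite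
tuple of `D0`), `U₀ := True` (`Fc a a`).
We get `U = R (ap m ·)` meeting `F(a)` and `x₀` such that every `V ∈ 𝒰`, `V ⊆ U` which meets `F(a)`
contains some `y ∈ F(a)` with `TpEq (ap (one a) y) (ap (one a) x₀)`.
Take `x₁ ∈ P` with `¬ Be x₁ a`, `R (ap m x₁)` (definition of `F(a)`), and by `SI_iff` a `P2` relation
`θ` with `θ a x₁`.  By saturation (level containing `a`) there is `x₀'` with the same type as `x₀` over
`a` and the same type as `x₁` over `D0` (finite satisfiability: for a `D0`-definable `S ∋ x₁` the set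
`V := R ∧ S` meets `F(a)` (in `x₁`, `Fc_of_SI`), so it contains `y ∈ F(a)` of the type of `x₀`
over `a`).
Let `V ⊆ U` meet `F(a)`, `V = R' (ap m' ·)`.  Take `y ∈ V` with the type of `x₀` (so of `x₀'`) over `a`,
an automorphism `k` with `k a = a`, `k x₀' = y` (`K.hom`) and an automorphism `h` fixing `D0` with
`h x₁ = x₀'` (`K.homD`).  Put `a'' := k (h a)`; then `θ a'' y`, and `a''` has the same type as `a` over
`D0` (for `m ∈ D0`: `R (m, k (h a)) ↔ R (k⁻¹ m, h a) ↔ R (k⁻¹ m, a) ↔ R (m, k a) = R (m, a)`).  Take an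
automorphism `l` fixing `D0` with `l a'' = a`: then `θ a (l y)` and `l y ∈ V`. -/
theorem lam_local {a : N} (ha : a ∈ K.P) :
    ∃ θ : N → N → Prop, Dfn L (fun v : Fin 2 → N => θ (v 0) (v 1)) ∧ K.P2 θ ∧
      ∃ (n : ℕ) (m : Fin n → N) (R : (Fin n ⊕ Unit → N) → Prop), (∀ i, m i ∈ K.D0) ∧ Dfn L R ∧
        (∃ x, K.Fc a x ∧ R (ap m x)) ∧
        ∀ (γ : Type) [Finite γ] (m' : γ → N) (R' : (γ ⊕ Unit → N) → Prop), (∀ i, m' i ∈ K.D0) →
          Dfn L R' → (∀ x : N, R' (ap m' x) → R (ap m x)) → (∃ x, K.Fc a x ∧ R' (ap m' x)) →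
          ∃ y ∈ K.D, θ a y ∧ R' (ap m' y) := by
  classical
  have hne := K.ne
  let I0 : Type := {ρ : (Unit → N) → Prop // DfnO L (K.lev.S 0) ρ ∧ ∀ y, K.Fc a y → ρ (one y)}
  have hI0 : ∀ x, (∀ i : I0, i.1 (one x)) → K.Fc a x := fun x hx =>
    K.lamA_Fc fun ρ h1 h2 => hx ⟨ρ, h1, h2⟩
  have hU0 : (fun _ : Unit → N => True) ∈ K.LamAU :=
    ⟨0, Fin.elim0, fun _ => True, fun i => i.elim0, Dfn.true', fun v => Iff.rfl⟩
  obtain ⟨U, hU, -, ⟨x, hx1, hx2⟩, x₀, hx₀⟩ := K.baire (one a) 0 (fun i : I0 => i.1)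
    (fun i => i.2.1) K.LamAU (fun U hU => K.lamAU_dfnO hU 0) (fun _ => True) hU0
    ⟨a, fun i => i.2.2 a (K.Fc_refl ha), trivial⟩
  have hxF : K.Fc a x := hI0 x hx1
  obtain ⟨n, m, R, hm, hR, hUR⟩ := hU
  have hU : U ∈ K.LamAU := ⟨n, m, R, hm, hR, hUR⟩
  obtain ⟨x₁, hx₁P, hx₁B, hx₁R⟩ := hxF.2 (Fin n) m hm R hR ((hUR _).1 hx2)
  obtain ⟨θ, hθ, hθ2, hθa⟩ := (K.SI_iff ha).1 hx₁B
  have hx₁F : K.Fc a x₁ := K.Fc_of_SI hx₁P hx₁B
  -- saturation
  obtain ⟨n', hn'⟩ := K.lev.finite_level (one a)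
  have ha' : a ∈ K.lev.S n' := hn' ()
  let I1 : Type := {ρ : (Unit → N) → Prop //
    (∃ S : (Unit ⊕ Unit → N) → Prop, Dfn L S ∧ S (ap (one a) x₀) ∧
      ∀ v, ρ v ↔ S (ap (one a) (v ()))) ∨ (ρ ∈ K.LamAU ∧ ρ (one x₁))}
  have hfin : ∀ F : Finset I1, ∃ y : Unit → N, ∀ i ∈ F, i.1 y := by
    intro F
    have hV : ∃ V ∈ K.LamAU, V (one x₁) ∧ (∀ v, V v → U v) ∧
        ∀ i ∈ F, (i.1 ∈ K.LamAU ∧ i.1 (one x₁)) → ∀ v, V v → i.1 v := by
      induction F using Finset.induction_on with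
      | empty => exact ⟨U, hU, (hUR _).2 hx₁R, fun v hv => hv, by simp⟩
      | insert i F _ ih =>
        obtain ⟨V, h1, h2, h3, h4⟩ := ih
        by_cases hi : i.1 ∈ K.LamAU ∧ i.1 (one x₁)
        · refine ⟨fun v => i.1 v ∧ V v, K.lamAU_and hi.1 h1, ⟨hi.2, h2⟩, fun v hv => h3 v hv.2, ?_⟩
          intro j hj hj2 v hv
          rcases Finset.mem_insert.1 hj with rfl | hj
          · exact hv.1
          · exact h4 j hj hj2 v hv.2
        · refine ⟨V, h1, h2, h3, ?_⟩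
          intro j hj hj2 v hv
          rcases Finset.mem_insert.1 hj with rfl | hj
          · exact absurd hj2 hi
          · exact h4 j hj hj2 v hv
    obtain ⟨V, hV1, hV2, hV3, hV4⟩ := hV
    obtain ⟨y, hy1, hy2, hy3⟩ := hx₀ V hV1 (fun x hx => hV3 _ hx)
      ⟨x₁, fun i => i.2.2 x₁ hx₁F, hV2⟩
    refine ⟨one y, fun i hi => ?_⟩
    rcases i.2 with ⟨S, hS, hS1, hS2⟩ | h
    · rw [hS2]
      exact (hS.tp hy3).2 hS1
    · exact hV4 i hi h _ hy2
  have hρ : ∀ i : I1, DfnO L (K.lev.S n') i.1 := by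
    intro i
    rcases i.2 with ⟨S, hS, hS1, hS2⟩ | h
    · refine (DfnO.of_dfn hS (one a) fun _ => ha').of_iff fun v => ?_
      rw [hS2]
      rfl
    · exact K.lamAU_dfnO h.1 n'
  obtain ⟨z, -, hz⟩ := K.lev.sat_rel n' (κ := Unit) (fun _ => (⟨a, ha'⟩, 0))
    (fun _ _ _ => rfl) (fun i : I1 => i.1) hρ hfin
  set x₀' := z () with hx₀'
  have hz1 : z = one x₀' := rfl
  have T1 : TpEq L (ap (one a) x₀') (ap (one a) x₀) := by
    have key : ∀ φ : L.Formula (Unit ⊕ Unit), φ.Realize (ap (one a) x₀) →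
        φ.Realize (ap (one a) x₀') := fun φ hφ =>
      hz ⟨fun v => φ.Realize (ap (one a) (v ())), Or.inl ⟨fun u => φ.Realize u, Dfn.formula φ, hφ,
        fun v => Iff.rfl⟩⟩
    intro φ
    refine ⟨fun h => ?_, key φ⟩
    by_contra hcon
    exact (Formula.realize_not.1 (key φ.not (Formula.realize_not.2 hcon))) h
  have T2 : TpEq L (Sum.elim (fun m : K.D0 => (m : N)) (one x₁))
      (Sum.elim (fun m : K.D0 => (m : N)) (one x₀')) := by
    have key : ∀ φ : L.Formula (K.D0 ⊕ Unit), φ.Realize (ap (fun m : K.D0 => (m : N)) x₁) →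
        φ.Realize (ap (fun m : K.D0 => (m : N)) x₀') := fun φ hφ =>
      hz ⟨fun v => φ.Realize (ap (fun m : K.D0 => (m : N)) (v ())), Or.inr ⟨K.lamAU_of
        (m := fun m : K.D0 => (m : N)) (fun m => m.2) (Dfn.formula φ), hφ⟩⟩
    intro φ
    refine ⟨key φ, fun h => ?_⟩
    by_contra hcon
    exact (Formula.realize_not.1 (key φ.not (Formula.realize_not.2 hcon))) h
  obtain ⟨h, hhD, hh⟩ := K.homD T2
  have hhx : h • x₁ = x₀' := hh ()
  refine ⟨θ, hθ, hθ2, n, m, R, hm, hR, ⟨x₁, hx₁F, hx₁R⟩, ?_⟩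
  intro γ _ m' R' hm' hR' hsub hmeet
  obtain ⟨x', hx'F, hx'R⟩ := hmeet
  obtain ⟨y, hy1, hy2, hy3⟩ := hx₀ (fun v => R' (ap m' (v ()))) (K.lamAU_of hm' hR')
    (fun x hx => (hUR _).2 (hsub x hx)) ⟨x', fun i => i.2.2 x' hx'F, hx'R⟩
  have hyF : K.Fc a y := hI0 y hy1
  obtain ⟨k, hk⟩ := K.hom (T1.trans hy3.symm)
  have hka : k • a = a := hk (Sum.inl ())
  have hkx : k • x₀' = y := hk (Sum.inr ())
  have hθ3 : θ (k • h • a) y := by
    have h1 := (dfn_aut h hθ ![a, x₁]).2 hθa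
    have h2 := (dfn_aut k hθ (fun i => h • ![a, x₁] i)).2 h1
    have h3 : θ (k • h • a) (k • h • x₁) := h2
    rwa [hhx, hkx] at h3
  have T3 : TpEq L (Sum.elim (fun m : K.D0 => (m : N)) (one (k • h • a)))
      (Sum.elim (fun m : K.D0 => (m : N)) (one a)) := by
    intro φ
    have e1 : (ap (fun m : K.D0 => (m : N)) (k • h • a)) =
        fun i => k • h • ap (fun m : K.D0 => k⁻¹ • (m : N)) a i := by
      funext i
      rcases i with i | i
      · show (i : N) = k • h • (k⁻¹ • (i : N))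
        rw [hhD _ ((K.aut_D0 k⁻¹ _).2 i.2), smul_inv_smul]
      · rfl
    have e2 : (fun i => k • ap (fun m : K.D0 => k⁻¹ • (m : N)) a i) =
        ap (fun m : K.D0 => (m : N)) a := by
      funext i
      rcases i with i | i
      · show k • (k⁻¹ • (i : N)) = i
        rw [smul_inv_smul]
      · exact hka
    show φ.Realize (ap (fun m : K.D0 => (m : N)) (k • h • a)) ↔
      φ.Realize (ap (fun m : K.D0 => (m : N)) a)
    rw [e1]
    have h1 := dfn_aut k (Dfn.formula φ) (fun i => h • ap (fun m : K.D0 => k⁻¹ • (m : N)) a i)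
    have h2 := dfn_aut h (Dfn.formula φ) (ap (fun m : K.D0 => k⁻¹ • (m : N)) a)
    have h3 := dfn_aut k (Dfn.formula φ) (ap (fun m : K.D0 => k⁻¹ • (m : N)) a)
    rw [e2] at h3
    exact h1.trans (h2.trans h3.symm)
  obtain ⟨l, hlD, hl⟩ := K.homD T3
  have hla : l • (k • h • a) = a := hl ()
  refine ⟨l • y, (K.aut_D l y).2 hyF.1.1, ?_, ?_⟩
  · have h1 := (dfn_aut l hθ ![k • h • a, y]).2 hθ3
    have h2 : θ (l • k • h • a) (l • y) := h1
    rwa [hla] at h2
  · have h1 := (dfn_aut l hR' (ap m' y)).2 hy2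
    have h2 : (fun i => l • ap m' y i) = ap m' (l • y) := by
      funext i
      rcases i with i | i
      · exact hlD _ (hm' i)
      · rfl
    rwa [h2] at h1

end Pool.Agent.MNM.Ctx
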