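import Pool.Agent.MNM.Fcl

/-! MNM: compactness of `F(a)`. -/

open FirstOrder FirstOrder.Language
open scoped Pointwise
open Pool.Agent.VCM

namespace Pool.Agent.MNM.Ctx

variable {L : FirstOrder.Language.{0, 0}} {N : Type} [L.Structure N] (K : Ctx L N)

/-- the relations which describe `F(a)` -/
private theorem lamB_Fc {a x : N}
    (h : ∀ ρ : (Unit → N) → Prop, DfnO L (K.lev.S 0) ρ → (∀ y, K.Fc a y → ρ (one y)) →
      ρ (one x)) : K.Fc a x := by
  refine ⟨⟨?_, ?_⟩, ?_⟩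
  · exact h (fun v => v () ∈ K.D) (DfnO.of_dfn0 K.dfnD) fun y hy => hy.1.1
  · intro hx
    have h1 : DfnO L (K.lev.S 0) (fun v : Unit → N => v () ≠ x) := by
      refine ((DfnO.of_dfn (κ := Unit) (R := fun u : Unit ⊕ Unit → N =>
        u (Sum.inr ()) = u (Sum.inl ())) (Dfn.eq _ _) (one x)
        (fun _ => K.lvl hx)).not).of_iff fun v => ?_
      rfl
    exact h _ h1 (fun y hy hyx => hy.1.2 (by
      have h2 : y = x := hyx
      rw [h2]
      exact hx)) rfl
  · intro γ _ m hm R hR hRx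
    by_contra hcon
    have h1 : DfnO L (K.lev.S 0) (fun v : Unit → N => ¬ R (ap m (v ()))) := by
      refine ((DfnO.of_dfn hR m fun i => K.lvl (hm i)).not).of_iff fun v => ?_
      rfl
    exact h _ h1 (fun y hy hRy => hcon (hy.2 γ m hm R hR hRy)) hRx

/-- Compactness of `F(a)`: finitely many conjugates of `U = R (ap m ·)` cover `F(a)`.
Proof: otherwise the relations `v () ∈ D`, `v () ≠ m'` (`m' ∈ D0`), all `D0`-definable relations which
hold on `F(a)`, and `¬ R (ap (g m) ·)` for all automorphisms `g` with `Fc a (g a)` are finitely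
satisfiable by elements of `F(a)`, so by saturation (`K.lev.sat_rel 0`) there is an `x` satisfying all
of them; `x ∈ F(a)` (see `lam_local`).  Let `u ∈ F(a)`, `R (ap m u)`, and `g u = x` (`aut_of_P`).
`Fc a u`, so `Fc u a` (`Fc_symm`), `Fc x (g a)` (`Fc_aut`), `Fc a (g a)` (`Fc_trans`).  But
`R (ap (g m) x)`: contradiction. -/
theorem cover_fin {a : N} (ha : a ∈ K.P) {n : ℕ} {m : Fin n → N} (hm : ∀ i, m i ∈ K.D0)
    {R : (Fin n ⊕ Unit → N) → Prop} (hR : Dfn L R) (hne : ∃ u, K.Fc a u ∧ R (ap m u)) :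
    ∃ (s : ℕ) (g : Fin s → AutG L N), (∀ j, K.Fc a (g j • a)) ∧
      ∀ x, K.Fc a x → ∃ j, R (ap (fun i => g j • m i) x) := by
  classical
  by_contra hcon
  push Not at hcon
  let I0 : Type := {ρ : (Unit → N) → Prop // DfnO L (K.lev.S 0) ρ ∧ ∀ y, K.Fc a y → ρ (one y)}
  let J : Type := {g : AutG L N // K.Fc a (g • a)}
  obtain ⟨d0, hd0⟩ := K.inf.nonempty
  have hρ : ∀ i : I0 ⊕ J, DfnO L (K.lev.S 0) (Sum.elim (fun i : I0 => i.1)
      (fun g : J => fun v : Unit → N => ¬ R (ap (fun i => g.1 • m i) (v ()))) i) := by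
    rintro (i | g)
    · exact i.2.1
    · refine ((DfnO.of_dfn hR (fun i => g.1 • m i)
        fun i => K.lvl ((K.aut_D0 g.1 _).2 (hm i))).not).of_iff fun v => ?_
      rfl
  have hfin : ∀ F : Finset (I0 ⊕ J), ∃ x : Unit → N, ∀ i ∈ F, (Sum.elim (fun i : I0 => i.1)
      (fun g : J => fun v : Unit → N => ¬ R (ap (fun i => g.1 • m i) (v ()))) i) x := by
    intro F
    obtain ⟨x, hx1, hx2⟩ := hcon F.toRight.card (fun j => (F.toRight.equivFin.symm j).1.1)
      (fun j => (F.toRight.equivFin.symm j).1.2)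
    refine ⟨one x, ?_⟩
    rintro (i | g) hi
    · exact i.2.2 x hx1
    · have h1 := hx2 (F.toRight.equivFin ⟨g, Finset.mem_toRight.2 hi⟩)
      rw [Equiv.symm_apply_apply] at h1
      exact h1
  obtain ⟨z, -, hz⟩ := K.lev.sat_rel 0 (κ := Unit) (fun _ => (⟨d0, K.lvl hd0⟩, 0))
    (fun _ _ _ => rfl) _ hρ hfin
  set x := z () with hx
  have hz1 : z = one x := rfl
  have hxF : K.Fc a x := K.lamB_Fc fun ρ h1 h2 => by
    have := hz (Sum.inl ⟨ρ, h1, h2⟩)
    exact this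
  obtain ⟨u, hu1, hu2⟩ := hne
  obtain ⟨g, hg⟩ := K.aut_of_P hu1.1 hxF.1
  have h1 : K.Fc u a := K.Fc_symm ha hu1
  have h2 : K.Fc x (g • a) := by
    rw [← hg]
    exact (K.Fc_aut g u a).2 h1
  have h3 : K.Fc a (g • a) := K.Fc_trans ha hxF h2
  have h4 : ¬ R (ap (fun i => g • m i) x) := hz (Sum.inr ⟨g, h3⟩)
  apply h4
  have h5 : ap (fun i => g • m i) x = fun k => g • (ap m u k) := by
    rw [← ap_smul, hg]
  rw [h5, dfn_aut g hR]
  exact hu2

end Pool.Agent.MNM.Ctx
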