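import Pool.Agent.MNM.LamA
import Pool.Agent.MNM.LamB
import Pool.Agent.MNM.IsoT

/-! MNM: a full `P2` relation. -/

open FirstOrder FirstOrder.Language
open scoped Pointwise
open Pool.Agent.VCM

namespace Pool.Agent.MNM.Ctx

variable {L : FirstOrder.Language.{0, 0}} {N : Type} [L.Structure N] (K : Ctx L N)

/-- `lam` is a full `P2` relation: `lam a ·` is dense in `F(a)` for all `a ∈ P` -/
structure Full (lam : N → N → Prop) : Prop where
  dfn : Dfn L (fun v : Fin 2 → N => lam (v 0) (v 1))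
  p2 : K.P2 lam
  dense : ∀ a ∈ K.P, ∀ (γ : Type) [Finite γ] (m : γ → N) (R : (γ ⊕ Unit → N) → Prop),
    (∀ i, m i ∈ K.D0) → Dfn L R → (∃ x, K.Fc a x ∧ R (ap m x)) → ∃ y ∈ K.D, lam a y ∧ R (ap m y)

/-- Proof.  Fix `a ∈ P` (if `P` is empty there is nothing to prove: `lam := fun _ _ => False`), and take
`θ`, `m`, `R` from `lam_local`, `s`, `g` from `cover_fin`; `m_j := g j • m`.  By `Iso_D0` (the tuple
`m` is isolated over `one a`) there is a definable `B` with `B (m, a)` such that for `z ∈ P`: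
`B (w, z)` implies `TpEq (ap w z) (ap m a)` (move `z` to `a` by an automorphism).  `B (m_j, g j a)`
holds and `Fc a (g j a)`, so there is `a_j ∈ P`, `¬ Be a_j a`, `B (m_j, a_j)`; by `SI_iff` take a `P2`
relation `ρ_j` with `ρ_j a a_j`.  Put `lam x y := ∃ z ∈ D, (∃ j, ρ_j x z) ∧ θ z y`.
`P2`: for `y ∈ D0` the set `{z ∈ D | θ z y}` is finite and contained in `D0` (`sub_of_fin`), and for
each of these `z` and each `j` the set `{x ∈ D | ρ_j x z}` is finite.
Density at `a`: let `Fc a x`, `R' (ap m' x)`, and `j` with `R (ap m_j x)`.  Let `k` be an automorphism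
with `k a = a_j`, `k m = m_j` (`K.hom`).  `Fc a a_j` (`Fc_of_SI`), so `Fc a_j x` (`Fc_symm`,
`Fc_trans`) and `Fc a (k⁻¹ x)` (`Fc_aut`).  The relation `V := R' (k⁻¹ m', ·) ∧ R (m, ·)` has the element
`k⁻¹ x` in `F(a)` and is contained in `R (m, ·)`, so by `lam_local` there is `y ∈ D` with `θ a y`,
`V y`; then `θ a_j (k y)`, `R' (m', k y)`, and `lam a (k y)`.
Density at other elements of `P`: automorphisms. -/
theorem full_ex : ∃ lam : N → N → Prop, K.Full lam := by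
  classical
  by_cases hP : ∃ a, a ∈ K.P
  swap
  · refine ⟨fun _ _ => False, Dfn.false', fun y _ => ?_, fun a ha => absurd ⟨a, ha⟩ hP⟩
    simp
  obtain ⟨a, ha⟩ := hP
  obtain ⟨θ, hθ, hθ2, n, m, R, hm, hR, hne, hloc⟩ := K.lam_local ha
  obtain ⟨s, g, hg, hcov⟩ := K.cover_fin ha hm hR hne
  obtain ⟨B, hB, hBa, hBz⟩ := K.Iso_D0 (one a) hm
  -- the conjugates
  have hgm : ∀ j i, g j • m i ∈ K.D0 := fun j i => (K.aut_D0 (g j) _).2 (hm i)
  have hBj : ∀ j, B (Sum.elim (one (g j • a)) (fun i => g j • m i)) := by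
    intro j
    have h1 := (dfn_aut (g j) hB (Sum.elim (one a) m)).2 hBa
    rwa [← elim_smul] at h1
  have hex : ∀ j : Fin s, ∃ z ∈ K.P, ¬ K.Be z a ∧ B (Sum.elim (one z) (fun i => g j • m i)) := by
    intro j
    exact (hg j).2 (Fin n) (fun i => g j • m i) (hgm j)
      (fun u => B (Sum.elim (one (u (Sum.inr ()))) (u ∘ Sum.inl)))
      (Dfn.comp hB Sum.swap _ (by rintro v (k | k) <;> rfl)) (hBj j)
  choose b hbP hbB hbR using hex
  have hex2 : ∀ j : Fin s, ∃ ψ : N → N → Prop, Dfn L (fun v : Fin 2 → N => ψ (v 0) (v 1)) ∧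
      K.P2 ψ ∧ ψ a (b j) := fun j => (K.SI_iff ha).1 (hbB j)
  choose ρ hρ hρ2 hρa using hex2
  let lam : N → N → Prop := fun x y => ∃ z ∈ K.D, (∃ j, ρ j x z) ∧ θ z y
  have hlam : Dfn L (fun v : Fin 2 → N => lam (v 0) (v 1)) := by
    refine K.dfn_exD (R := fun u : Fin 2 ⊕ Unit → N =>
      (∃ j, ρ j (u (Sum.inl 0)) (u (Sum.inr ()))) ∧ θ (u (Sum.inr ())) (u (Sum.inl 1))) ?_
    refine Dfn.and (Dfn.finiteEx fun j => ?_) ?_
    · refine Dfn.comp (hρ j) ![Sum.inl 0, Sum.inr ()]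
        (fun u => ![u (Sum.inl 0), u (Sum.inr ())]) ?_
      intro v k
      fin_cases k <;> rfl
    · refine Dfn.comp hθ ![Sum.inr (), Sum.inl 1]
        (fun u => ![u (Sum.inr ()), u (Sum.inl 1)]) ?_
      intro v k
      fin_cases k <;> rfl
  have hlam_aut : ∀ (τ : AutG L N) (x y : N), lam (τ • x) (τ • y) ↔ lam x y := fun τ x y =>
    dfn_aut τ hlam ![x, y]
  refine ⟨lam, hlam, ?_, ?_⟩
  · -- `P2`
    intro y hy
    have hZ : {z | z ∈ K.D ∧ θ z y}.Finite := hθ2 y hy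
    have hZD : ∀ z ∈ K.D, θ z y → z ∈ K.D0 := by
      intro z hz hzy
      refine K.sub_of_fin (m := one y) (fun _ => hy)
        (R := fun u : Unit ⊕ Unit → N => θ (u (Sum.inr ())) (u (Sum.inl ()))) ?_ hZ z hz hzy
      refine Dfn.comp hθ ![Sum.inr (), Sum.inl ()]
        (fun u => ![u (Sum.inr ()), u (Sum.inl ())]) ?_
      intro v k
      fin_cases k <;> rfl
    have hfin : (⋃ z ∈ {z | z ∈ K.D ∧ θ z y}, ⋃ j : Fin s, {x | x ∈ K.D ∧ ρ j x z}).Finite :=
      hZ.biUnion fun z hz => Set.finite_iUnion fun j => hρ2 j z (hZD z hz.1 hz.2)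
    refine hfin.subset ?_
    rintro x ⟨hx, z, hz, ⟨j, hj⟩, hzy⟩
    exact Set.mem_biUnion (show z ∈ {z | z ∈ K.D ∧ θ z y} from ⟨hz, hzy⟩)
      (Set.mem_iUnion.2 ⟨j, hx, hj⟩)
  · -- density
    have key : ∀ (γ : Type) [Finite γ] (m' : γ → N) (R' : (γ ⊕ Unit → N) → Prop),
        (∀ i, m' i ∈ K.D0) → Dfn L R' → (∃ x, K.Fc a x ∧ R' (ap m' x)) →
        ∃ y ∈ K.D, lam a y ∧ R' (ap m' y) := by
      intro γ _ m' R' hm' hR' hx
      obtain ⟨x, hxF, hxR⟩ := hx
      obtain ⟨j, hj⟩ := hcov x hxF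
      -- the automorphism `k`
      have hT : TpEq L (Sum.elim (one a) m) (Sum.elim (one (b j)) (fun i => g j • m i)) := by
        obtain ⟨τ, hτ⟩ := K.aut_of_P (hbP j) ha
        have h1 := (dfn_aut τ hB (Sum.elim (one (b j)) (fun i => g j • m i))).2 (hbR j)
        have h2 : (fun i => τ • Sum.elim (one (b j)) (fun i => g j • m i) i) =
            Sum.elim (one a) (fun i => τ • g j • m i) := by
          funext i
          rcases i with i | i
          · exact hτ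
          · rfl
        have h3 := AutG.tp τ (Sum.elim (one (b j)) (fun i => g j • m i))
        have h3' : TpEq L (fun i => τ • Sum.elim (one (b j)) (fun i => g j • m i) i)
          (Sum.elim (one (b j)) (fun i => g j • m i)) := h3
        rw [h2] at h1 h3'
        exact (hBz _ h1).symm.trans h3'
      obtain ⟨k, hk⟩ := K.hom hT
      have hka : k • a = b j := hk (Sum.inl ())
      have hkm : ∀ i, k • m i = g j • m i := fun i => hk (Sum.inr i)
      have hF1 : K.Fc a (b j) := K.Fc_of_SI (hbP j) (hbB j)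
      have hF2 : K.Fc (b j) x := K.Fc_trans (hbP j) (K.Fc_symm ha hF1) hxF
      have hF3 : K.Fc a (k⁻¹ • x) := by
        have h1 := (K.Fc_aut k a (k⁻¹ • x)).1
        rw [hka, smul_inv_smul] at h1
        exact h1 hF2
      have hV : Dfn L (fun u : (γ ⊕ Fin n) ⊕ Unit → N =>
          R' (ap (u ∘ Sum.inl ∘ Sum.inl) (u (Sum.inr ()))) ∧
          R (ap (u ∘ Sum.inl ∘ Sum.inr) (u (Sum.inr ())))) := by
        refine (Dfn.comp hR' (Sum.map Sum.inl id) _ ?_).and (Dfn.comp hR (Sum.map Sum.inr id) _ ?_)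
        · rintro v (k | k) <;> rfl
        · rintro v (k | k) <;> rfl
      have hm3 : ∀ i, Sum.elim (fun i => k⁻¹ • m' i) m i ∈ K.D0 := by
        rintro (i | i)
        · exact (K.aut_D0 k⁻¹ _).2 (hm' i)
        · exact hm i
      have hR1 : R' (ap (fun i => k⁻¹ • m' i) (k⁻¹ • x)) := by
        have h1 := (dfn_aut k⁻¹ hR' (ap m' x)).2 hxR
        rwa [← ap_smul] at h1
      have hR2 : R (ap m (k⁻¹ • x)) := by
        have h1 := (dfn_aut k hR (ap m (k⁻¹ • x))).1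
        rw [← ap_smul, smul_inv_smul] at h1
        have h2 : (fun i => k • m i) = fun i => g j • m i := funext hkm
        rw [h2] at h1
        exact h1 hj
      obtain ⟨y, hyD, hθy, hy1, hy2⟩ := hloc (γ ⊕ Fin n) _ _ hm3 hV (fun x hx => hx.2)
        ⟨k⁻¹ • x, hF3, hR1, hR2⟩
      have hy1' : R' (ap (fun i => k⁻¹ • m' i) y) := hy1
      refine ⟨k • y, (K.aut_D k y).2 hyD, ⟨b j, (hbP j).1, ⟨j, hρa j⟩, ?_⟩, ?_⟩
      · have h1 := (dfn_aut k hθ ![a, y]).2 hθy
        have h2 : θ (k • a) (k • y) := h1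
        rwa [hka] at h2
      · have h1 := (dfn_aut k hR' (ap (fun i => k⁻¹ • m' i) y)).2 hy1'
        rw [← ap_smul] at h1
        simpa only [smul_inv_smul] using h1
    intro c hc γ _ m' R' hm' hR' hx
    obtain ⟨x, hxF, hxR⟩ := hx
    obtain ⟨τ, hτ⟩ := K.aut_of_P hc ha
    have hF1 : K.Fc a (τ • x) := by
      have h1 := (K.Fc_aut τ c x).2 hxF
      rwa [hτ] at h1
    obtain ⟨y, hyD, hly, hyR⟩ := key γ (fun i => τ • m' i) R'
      (fun i => (K.aut_D0 τ _).2 (hm' i)) hR' ⟨τ • x, hF1, by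
        have h1 := (dfn_aut τ hR' (ap m' x)).2 hxR
        rwa [← ap_smul] at h1⟩
    refine ⟨τ⁻¹ • y, (K.aut_D τ⁻¹ y).2 hyD, ?_, ?_⟩
    · rw [← hlam_aut τ, hτ, smul_inv_smul]
      exact hly
    · have h1 := (dfn_aut τ hR' (ap m' (τ⁻¹ • y))).1
      rw [← ap_smul, smul_inv_smul] at h1
      exact h1 hyR

end Pool.Agent.MNM.Ctx
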