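import Pool.Agent.MNM.Cls
import Pool.Agent.MNM.Chain
import Pool.Agent.MNM.Atomic
import Pool.Agent.MNM.Count

/-! MNM: models with exactly `k` classes. -/

open FirstOrder FirstOrder.Language
open scoped Pointwise
open Pool.Agent.VCM

namespace Pool.Agent.MNM

variable {L : FirstOrder.Language.{0, 0}} {N : Type} [L.Structure N]

/-- Proof: take `d` from `chain_ex` and `S` from `atomic_ex` for the tuple `seg d 0 k`.  The
representatives are `d i`, `i < k`; they are in `P` (`Special`); for `i < j`: `Ind (seg d 0 j) (d j)`,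
so `Be (d i) (d j)` (`FS_left`); the last property is `cls` with `j := k`. -/
theorem hasK_ex (K : Ctx L N) (O : Ord K) (hL : L.card ≤ Cardinal.aleph0) (k : ℕ) :
    ∃ S : L.ElementarySubstructure N, (S : Set N).Countable ∧ K.HasK S k := by
  obtain ⟨d, h⟩ := chain_ex K O k
  obtain ⟨S, hc, hS, hIso⟩ := atomic_ex K hL (seg d 0 k)
  have key : ∀ i j : Fin k, i < j → K.Be (d i) (d j) := by
    intro i j hij
    have h1 : K.FS (seg d 0 j) (one (d j)) := (h.spec j j.2 0 (Nat.zero_le _)).2.1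
    exact K.FS_left h1 (fun _ : Unit => (⟨(i : ℕ), Nat.zero_le _, hij⟩ : Set.Ico 0 (j : ℕ)))
  refine ⟨S, hc, fun i => d i, fun i => ⟨hS ⟨(i : ℕ), Nat.zero_le _, i.2⟩,
    (h.spec i i.2 0 (Nat.zero_le _)).1⟩, ?_, ?_⟩
  · intro i j hij
    rcases lt_or_gt_of_ne hij with h1 | h1
    · exact Or.inl (key i j h1)
    · exact Or.inr (key j i h1)
  · intro x hxS hxP
    obtain ⟨i, hi, h1, h2⟩ := cls h k le_rfl hxP (hIso x hxS)
    exact ⟨⟨i, hi⟩, h1, h2⟩

end Pool.Agent.MNM
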