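import Pool.Agent.MNM.Core

/-! MNM: the order used in the asymmetric case. -/

open FirstOrder FirstOrder.Language
open scoped Pointwise
open Pool.Agent.VCM

namespace Pool.Agent.MNM

variable {L : FirstOrder.Language.{0, 0}} {N : Type} [L.Structure N]

/-- A definable strict partial order on `D` with finite lower sets on `D0`, together with an
equivalence relation `E` on `P` which refines same lower set in `D0` and contains the closure
relation; `acc`: the lower set of `b ∈ P` in `D0` accumulates at `b`. -/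
structure Ord (K : Ctx L N) where
  lt : N → N → Prop
  dfn : Dfn L (fun v : Fin 2 → N => lt (v 0) (v 1))
  ltD : ∀ {x y : N}, lt x y → x ∈ K.D ∧ y ∈ K.D
  irr : ∀ x : N, ¬ lt x x
  tr : ∀ {x y z : N}, lt x y → lt y z → lt x z
  low : ∀ m ∈ K.D0, {x | lt x m}.Finite
  E : N → N → Prop
  Esymm : ∀ {x y : N}, E x y → E y x
  Etrans : ∀ {x y z : N}, E x y → E y z → E x z
  E_cl : ∀ x ∈ K.P, ∀ y ∈ K.P, ¬ K.Be y x → E x y
  std : ∀ x ∈ K.P, ∀ y ∈ K.P, E x y → ∀ m ∈ K.D0, lt m x → lt m y
  acc : ∀ b ∈ K.P, ∀ {γ : Type} [Finite γ] (m : γ → N), (∀ i, m i ∈ K.D0) →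
    ∀ R : (γ ⊕ Unit → N) → Prop, Dfn L R → R (ap m b) → ∃ u ∈ K.D0, R (ap m u) ∧ lt u b

namespace Ord

variable {K : Ctx L N} (O : Ord K)

/-- every element of `B` is below (or equal to) a maximal element of `B` -/
def Pi (B : N → Prop) : Prop :=
  ∀ x ∈ K.D, B x → ∃ z ∈ K.D, (z = x ∨ O.lt x z) ∧ B z ∧ ∀ w ∈ K.D, B w → ¬ O.lt z w

/-- definability of the order between two coordinates -/
theorem dfn_lt {α : Type} (i j : α) : Dfn L (fun v : α → N => O.lt (v i) (v j)) :=
  Dfn.comp O.dfn (fun k => if k = 0 then i else j) (fun v k => if k = 0 then v i else v j) (by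
    intro v k
    beta_reduce
    split_ifs <;> rfl)

theorem lt_aut (g : AutG L N) (x y : N) : O.lt (g • x) (g • y) ↔ O.lt x y := by
  have := Ctx.dfn_aut g O.dfn (fun k : Fin 2 => if k = 0 then x else y)
  simpa using this

end Ord

end Pool.Agent.MNM
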