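import Pool.Agent.MNM.LamC
import Pool.Agent.MNM.OrdDef

/-! MNM: the order in the asymmetric case. -/

open FirstOrder FirstOrder.Language
open scoped Pointwise
open Pool.Agent.VCM

namespace Pool.Agent.MNM

variable {L : FirstOrder.Language.{0, 0}} {N : Type} [L.Structure N]

private theorem ordEx_dfn {φ : N → N → Prop} (h : Dfn L (fun v : Fin 2 → N => φ (v 0) (v 1)))
    {α : Type} (i j : α) : Dfn L (fun v : α → N => φ (v i) (v j)) :=
  Dfn.comp h (fun k => if k = 0 then i else j) (fun v k => if k = 0 then v i else v j) (by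
    intro v k
    beta_reduce
    split_ifs <;> rfl)

private theorem ordEx_aut {φ : N → N → Prop} (h : Dfn L (fun v : Fin 2 → N => φ (v 0) (v 1)))
    (g : AutG L N) (x y : N) : φ (g • x) (g • y) ↔ φ x y := by
  have := Ctx.dfn_aut g h (fun k : Fin 2 => if k = 0 then x else y)
  simpa using this

/-- For a full relation `lam` and `m ∈ D0`, `b ∈ P`: the condition
`lam b · ⊆ lam m ·` is equivalent to `F(b) ⊆ lam m ·`. -/
theorem sub_iff {K : Ctx L N} {lam : N → N → Prop} (hl : K.Full lam) {m b : N} (hm : m ∈ K.D0)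
    (hb : b ∈ K.P) : (∀ y ∈ K.D, lam b y → lam m y) ↔ ∀ y, K.Fc b y → lam m y := by
  constructor
  · intro H y hy
    by_contra hcon
    obtain ⟨y', hy'D, hy'1, hy'2⟩ := hl.dense b hb Unit (one m)
      (fun v => ¬ lam (v (Sum.inl ())) (v (Sum.inr ()))) (fun _ => hm)
      (ordEx_dfn hl.dfn _ _).not ⟨y, hy, hcon⟩
    exact hy'2 (H y' hy'D hy'1)
  · intro H y hyD hby
    obtain ⟨h1, h2⟩ := K.P2_mem hl.dfn hl.p2 hb hyD hby
    exact H y (K.Fc_of_SI h1 h2)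

theorem ord_ex (K : Ctx L N) {ψ : N → N → Prop}
    (hψ : Dfn L (fun v : Fin 2 → N => ψ (v 0) (v 1))) (h2 : K.P2 ψ) {a b : N} (ha : a ∈ K.P)
    (hb : b ∈ K.P) (hab : ψ a b) (hbe : K.Be a b) : Nonempty (Ord K) := by
  have hNe := K.ne
  obtain ⟨lam0, hl0⟩ := K.full_ex
  obtain ⟨lam, hlam⟩ : ∃ lam : N → N → Prop, ∀ x y, lam x y ↔
      ∃ z, z ∈ K.D ∧ (ψ x z ∨ x = z) ∧ lam0 z y := ⟨_, fun _ _ => Iff.rfl⟩
  have hl : K.Full lam := by
    refine ⟨?_, ?_, ?_⟩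
    · refine Dfn.of_iff (Dfn.ex1 (R := fun (v : Fin 2 → N) z => z ∈ K.D ∧ (ψ (v 0) z ∨ v 0 = z) ∧
        lam0 z (v 1)) ?_) (fun v => (hlam _ _).symm)
      exact (K.dfn_D (Sum.inr ())).and (((ordEx_dfn hψ (Sum.inl 0) (Sum.inr ())).or
        (Dfn.eq (Sum.inl 0) (Sum.inr ()))).and (ordEx_dfn hl0.dfn (Sum.inr ()) (Sum.inl 1)))
    · intro y hy
      have hfin := hl0.p2 y hy
      have hsub := K.sub_of_fin (m := one y) (fun _ => hy)
        (R := fun v => lam0 (v (Sum.inr ())) (v (Sum.inl ()))) (ordEx_dfn hl0.dfn _ _) hfin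
      have h3 : {x | x ∈ K.D ∧ lam x y} ⊆
          ⋃ z ∈ {z | z ∈ K.D ∧ lam0 z y}, ({x | x ∈ K.D ∧ ψ x z} ∪ {z}) := by
        rintro x ⟨hxD, hx⟩
        obtain ⟨z, hzD, hz1, hz2⟩ := (hlam x y).1 hx
        rw [Set.mem_iUnion₂]
        refine ⟨z, ⟨hzD, hz2⟩, ?_⟩
        rcases hz1 with hz1 | hz1
        · exact Or.inl ⟨hxD, hz1⟩
        · exact Or.inr hz1
      refine Set.Finite.subset (hfin.biUnion ?_) h3
      rintro z ⟨hzD, hz⟩
      exact (h2 z (hsub z hzD hz)).union (Set.finite_singleton z)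
    · intro a' ha' γ _ m R hm hR hx
      obtain ⟨y, hyD, hy1, hy2⟩ := hl0.dense a' ha' γ m R hm hR hx
      exact ⟨y, hyD, (hlam a' y).2 ⟨a', ha'.1, Or.inr rfl, hy1⟩, hy2⟩
  obtain ⟨lt, hlt⟩ : ∃ lt : N → N → Prop, ∀ x y, lt x y ↔ x ∈ K.D ∧ y ∈ K.D ∧
      (∃ z, z ∈ K.D ∧ lam y z) ∧ (∀ z, z ∈ K.D → lam y z → lam x z) ∧
        ∃ z, z ∈ K.D ∧ lam x z ∧ ¬ lam y z := ⟨_, fun _ _ => Iff.rfl⟩
  have hdlt : Dfn L (fun v : Fin 2 → N => lt (v 0) (v 1)) := by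
    refine Dfn.of_iff (R := fun v : Fin 2 → N => v 0 ∈ K.D ∧ v 1 ∈ K.D ∧
      (∃ z, z ∈ K.D ∧ lam (v 1) z) ∧ (∀ z, z ∈ K.D → lam (v 1) z → lam (v 0) z) ∧
        ∃ z, z ∈ K.D ∧ lam (v 0) z ∧ ¬ lam (v 1) z) ?_ (fun v => (hlt _ _).symm)
    refine (K.dfn_D 0).and ((K.dfn_D 1).and ((Dfn.ex1 (R := fun (v : Fin 2 → N) z =>
      z ∈ K.D ∧ lam (v 1) z) ?_).and ((Dfn.all1 (R := fun (v : Fin 2 → N) z => z ∈ K.D →
        lam (v 1) z → lam (v 0) z) ?_).and (Dfn.ex1 (R := fun (v : Fin 2 → N) z =>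
      z ∈ K.D ∧ lam (v 0) z ∧ ¬ lam (v 1) z) ?_))))
    · exact (K.dfn_D (Sum.inr ())).and (ordEx_dfn hl.dfn (Sum.inl 1) (Sum.inr ()))
    · exact (K.dfn_D (Sum.inr ())).imp ((ordEx_dfn hl.dfn (Sum.inl 1) (Sum.inr ())).imp
        (ordEx_dfn hl.dfn (Sum.inl 0) (Sum.inr ())))
    · exact (K.dfn_D (Sum.inr ())).and ((ordEx_dfn hl.dfn (Sum.inl 0) (Sum.inr ())).and
        (ordEx_dfn hl.dfn (Sum.inl 1) (Sum.inr ())).not)
  -- the order between `D0` and `P`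
  have ltm : ∀ m ∈ K.D0, ∀ b' ∈ K.P, lt m b' ↔ ∀ y, K.Fc b' y → lam m y := by
    intro m hm b' hb'
    constructor
    · intro h
      obtain ⟨-, -, -, h4, -⟩ := (hlt _ _).1 h
      exact (sub_iff hl hm hb').1 h4
    · intro h
      have hinc := (sub_iff hl hm hb').2 h
      obtain ⟨z1, hz1D, hz1, -⟩ := hl.dense b' hb' Empty (fun k => k.elim) (fun _ => True)
        (fun k => k.elim) Dfn.true' ⟨b', K.Fc_refl hb', trivial⟩
      refine (hlt _ _).2 ⟨K.sub hm, hb'.1, ⟨z1, hz1D, hz1⟩, hinc, ?_⟩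
      by_contra hcon
      push Not at hcon
      obtain ⟨z2, hz2, hz3⟩ := K.tv1 (R := fun v => lam (v (Sum.inl ())) (v (Sum.inr ())))
        (ordEx_dfn hl.dfn _ _) (m := one m) (fun _ => hm) hz1D (hinc z1 hz1D hz1)
      have hz4 := hcon z2 (K.sub hz2) hz3
      exact (K.P2_mem hl.dfn hl.p2 hb' (K.sub hz2) hz4).1.2 hz2
  have hstd : ∀ x ∈ K.P, ∀ y ∈ K.P, K.Fc x y → ∀ m ∈ K.D0, lt m x → lt m y := by
    intro x hx y hy hE m hm h
    rw [ltm m hm x hx] at h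
    rw [ltm m hm y hy]
    intro z hz
    exact h z (K.Fc_trans hx hE hz)
  -- accumulation at `a`
  have hacc : ∀ {γ : Type} [Finite γ] (m : γ → N), (∀ i, m i ∈ K.D0) →
      ∀ R : (γ ⊕ Unit → N) → Prop, Dfn L R → R (ap m a) → ∃ u ∈ K.D0, R (ap m u) ∧ lt u a := by
    intro γ _ m hm R hR hRa
    have hFS := K.FS_param (c := one a) (e := one b) hbe hm
    obtain ⟨c', hc', hψu, hRu⟩ := hFS (fun z => ψ (z (Sum.inl ())) (z (Sum.inr (Sum.inl ()))) ∧
      R (ap (fun k => z (Sum.inr (Sum.inr k))) (z (Sum.inl ())))) (by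
      refine (ordEx_dfn hψ _ _).and (Dfn.comp hR (Sum.elim (fun k => Sum.inr (Sum.inr k))
        (fun _ => Sum.inl ())) (fun z => ap (fun k => z (Sum.inr (Sum.inr k))) (z (Sum.inl ()))) ?_)
      rintro v (k | k) <;> rfl) ⟨hab, hRa⟩
    have hψu' : ψ (c' ()) b := hψu
    have hRu' : R (ap m (c' ())) := hRu
    have hltb : lt (c' ()) b := by
      rw [ltm _ (hc' ()) b hb]
      intro y hy
      by_contra hcon
      obtain ⟨y', hy'D, hy'1, hy'2⟩ := hl0.dense b hb Unit (one (c' ()))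
        (fun v => ¬ lam (v (Sum.inl ())) (v (Sum.inr ()))) (fun _ => hc' ())
        (ordEx_dfn hl.dfn _ _).not ⟨y, hy, hcon⟩
      exact hy'2 ((hlam _ _).2 ⟨b, hb.1, Or.inl hψu', hy'1⟩)
    have hba : ¬ K.Be b a := (K.P2_mem hψ h2 ha hb.1 hab).2
    have hE : K.Fc b a := K.Fc_symm ha (K.Fc_of_SI hb hba)
    exact ⟨c' (), hc' (), hRu', hstd b hb a ha hE _ (hc' ()) hltb⟩
  exact ⟨{
    lt := lt
    dfn := hdlt
    ltD := fun {x y} h => ⟨((hlt _ _).1 h).1, ((hlt _ _).1 h).2.1⟩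
    irr := fun x h => by
      obtain ⟨-, -, -, -, z, -, h5, h6⟩ := (hlt _ _).1 h
      exact h6 h5
    tr := fun {x y z} h h' => by
      obtain ⟨h3, -, -, h4, w, hw, h5, h6⟩ := (hlt _ _).1 h
      obtain ⟨-, h7, h8, h9, -⟩ := (hlt _ _).1 h'
      exact (hlt _ _).2 ⟨h3, h7, h8, fun t ht h10 => h4 t ht (h9 t ht h10), w, hw, h5,
        fun h11 => h6 (h9 w hw h11)⟩
    low := fun m hm => by
      by_cases hex : ∃ z, z ∈ K.D ∧ lam m z
      · obtain ⟨z, hzD, hz⟩ := hex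
        obtain ⟨y0, hy0, hy1⟩ := K.tv1 (R := fun v => lam (v (Sum.inl ())) (v (Sum.inr ())))
          (ordEx_dfn hl.dfn _ _) (m := one m) (fun _ => hm) hzD hz
        refine (hl.p2 y0 hy0).subset ?_
        intro x hx
        obtain ⟨h3, -, -, h4, -⟩ := (hlt _ _).1 hx
        exact ⟨h3, h4 y0 (K.sub hy0) hy1⟩
      · have : {x | lt x m} = ∅ := by
          rw [Set.eq_empty_iff_forall_notMem]
          intro x hx
          obtain ⟨-, -, h3, -, -⟩ := (hlt _ _).1 hx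
          exact hex h3
        rw [this]
        exact Set.finite_empty
    E := fun x y => x ∈ K.P ∧ K.Fc x y
    Esymm := fun {x y} h => ⟨h.2.1, K.Fc_symm h.1 h.2⟩
    Etrans := fun {x y z} h h' => ⟨h.1, K.Fc_trans h.1 h.2 h'.2⟩
    E_cl := fun x hx y hy h => ⟨hx, K.Fc_of_SI hy h⟩
    std := fun x hx y hy h m hm hlt' => hstd x hx y hy h.2 m hm hlt'
    acc := fun b' hb' γ _ m hm R hR hRb => by
      obtain ⟨g, hg⟩ := K.aut_of_P ha hb'
      have h3 : R (ap (fun k => g⁻¹ • m k) a) := by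
        have h4 := (Ctx.dfn_aut g hR (ap (fun k => g⁻¹ • m k) a)).1
        apply h4
        have h5 : (fun k => g • ap (fun k => g⁻¹ • m k) a k) = ap m b' := by
          funext k
          rcases k with k | k
          · exact smul_inv_smul g (m k)
          · exact hg
        rw [h5]
        exact hRb
      obtain ⟨u, hu, hRu, hltu⟩ := hacc (fun k => g⁻¹ • m k)
        (fun k => (K.aut_D0 g⁻¹ _).2 (hm k)) R hR h3
      refine ⟨g • u, (K.aut_D0 g u).2 hu, ?_, ?_⟩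
      · have h6 := (Ctx.dfn_aut g hR (ap (fun k => g⁻¹ • m k) u)).2 hRu
        have h7 : (fun k => g • ap (fun k => g⁻¹ • m k) u k) = ap m (g • u) := by
          funext k
          rcases k with k | k
          · exact smul_inv_smul g (m k)
          · rfl
        rw [h7] at h6
        exact h6
      · rw [← hg]
        exact (ordEx_aut hdlt g u a).2 hltu }⟩

end Pool.Agent.MNM
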