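import Pool.Agent.MNM.Fcl

/-! MNM: from infinite rows in `D0` to an asymmetric pair in `P`. -/

open FirstOrder FirstOrder.Language
open scoped Pointwise
open Pool.Agent.VCM

namespace Pool.Agent.MNM

variable {L : FirstOrder.Language.{0, 0}} {N : Type} [L.Structure N]

/-- Proof.  For `a' ∈ D0` with an infinite row, `K.fin_of_sub` (contrapositive, parameter `a'`) gives
`b' ∈ P` with `ψ a' b'`.  Fix some such `b := b'`.  For every `a'` with an infinite row there is an
automorphism `g` with `g b' = b` (`aut_of_P`), so `ψ (g a') b`, `g a' ∈ D0`.  The set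
`G := {a'' ∈ D0 | ψ a'' b}` is infinite: otherwise every `a'` with an infinite row lies in the orbit of
an element of the finite set `G`, and orbits of elements of `D0` are finite (`K.alg`, `dfn_aut`), so there
would be only finitely many such `a'`.  `K.exists_coheir (one b)` gives `a ∈ P` with `ψ a b` and
`FS (one a) (one b)`, i.e. `Be a b`. -/
theorem pair_ex (K : Ctx L N) {ψ : N → N → Prop}
    (hψ : Dfn L (fun v : Fin 2 → N => ψ (v 0) (v 1)))
    (hinf : {a | a ∈ K.D0 ∧ {y | y ∈ K.D0 ∧ ψ a y}.Infinite}.Infinite) :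
    ∃ a ∈ K.P, ∃ b ∈ K.P, ψ a b ∧ K.Be a b := by
  -- every element with an infinite row has a point of `P` in its row
  have h1 : ∀ a ∈ K.D0, {y | y ∈ K.D0 ∧ ψ a y}.Infinite → ∃ b ∈ K.P, ψ a b := by
    intro a ha hi
    by_contra hn
    push Not at hn
    have hR : Dfn L (fun u : Unit ⊕ Unit → N => ψ (u (Sum.inl ())) (u (Sum.inr ()))) :=
      Dfn.comp hψ ![Sum.inl (), Sum.inr ()] (fun u => ![u (Sum.inl ()), u (Sum.inr ())]) (by
        intro v k
        fin_cases k <;> rfl)
    have hf := K.fin_of_sub (γ := Unit) (m := one a) (fun _ => ha) hR (by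
      intro x hx hxa
      by_contra hx0
      exact hn x ⟨hx, hx0⟩ hxa)
    exact hi (hf.subset (fun y hy => ⟨K.sub hy.1, hy.2⟩))
  obtain ⟨a0, ha0, hi0⟩ := hinf.nonempty
  obtain ⟨b, hb, -⟩ := h1 a0 ha0 hi0
  -- the column of `b` is infinite
  have h2 : {x | x ∈ K.D0 ∧ ψ x b}.Infinite := by
    intro hfin
    apply hinf
    have horb : ∀ x ∈ K.D0, {z | ∃ g : AutG L N, z = g • x}.Finite := by
      intro x hx
      obtain ⟨A, hA, -, hxA, hd⟩ := K.alg x hx
      refine hA.subset ?_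
      rintro z ⟨g, rfl⟩
      exact (Ctx.dfn_aut g hd (fun _ => x)).2 hxA
    refine (Set.Finite.biUnion hfin (t := fun x => {z | ∃ g : AutG L N, z = g • x})
      (fun x hx => horb x hx.1)).subset ?_
    rintro a ⟨ha, hi⟩
    obtain ⟨b', hb', hab⟩ := h1 a ha hi
    obtain ⟨g, hg⟩ := K.aut_of_P hb' hb
    refine Set.mem_biUnion (x := g • a) ?_ ⟨g⁻¹, (inv_smul_smul g a).symm⟩
    refine ⟨(K.aut_D0 g a).2 ha, ?_⟩
    have h3 := (Ctx.dfn_aut g hψ ![a, b']).2 hab
    have h3' : ψ (g • a) (g • b') := h3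
    rw [hg] at h3'
    exact h3'
  have hR2 : Dfn L (fun u : Unit ⊕ Unit → N => ψ (u (Sum.inr ())) (u (Sum.inl ()))) :=
    Dfn.comp hψ ![Sum.inr (), Sum.inl ()] (fun u => ![u (Sum.inr ()), u (Sum.inl ())]) (by
      intro v k
      fin_cases k <;> rfl)
  obtain ⟨a, ha, hab, hfs⟩ := K.exists_coheir (one b) hR2 h2
  exact ⟨a, ha, b, hb, hab, hfs⟩

end Pool.Agent.MNM
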