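import Pool.Agent.MNM.Setup
import Pool.Agent.MNM.SmallEx
import Pool.Agent.MNM.Many
import Pool.Agent.MNM.OrdEx
import Pool.Agent.MNM.Trans

/-! MNM: assembly (the asymmetric case). -/

open FirstOrder FirstOrder.Language
open scoped Pointwise
open Pool.Agent.VCM

namespace Pool.Agent.MNM

variable {L : FirstOrder.Language.{0, 0}} {N : Type} [L.Structure N]

/-- the models of `hasK_ex` as `ModelType`s -/
theorem hasModels_of_ord (T : L.Theory) (hL : L.card ≤ Cardinal.aleph0) (hT : N ⊨ T)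
    (K : Ctx L N) (O : Ord K) (n : ℕ) : HasModels L T n := by
  have := K.ne
  choose S hS1 hS2 using fun i : Fin n => hasK_ex K O hL (i : ℕ)
  refine ⟨fun i => Theory.ModelType.of T (S i), fun i => ?_, fun i j hij => ⟨fun σ => ?_⟩⟩
  · exact (hS1 i).to_subtype
  · exact hij (Fin.ext (K.HasK_iso (S i) (S j) σ (hS2 i) (hS2 j)))

theorem main_asym (hL : L.card ≤ Cardinal.aleph0) (T : L.Theory) (M : T.ModelType.{0, 0, 0})
    (δ : L.Formula Unit) (ψ : L.Formula (Fin 2))
    (hinf : {x : M | δ.Realize (fun _ => x)}.Infinite)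
    (halg : ∀ x : M, δ.Realize (fun _ => x) →
      ∃ φ : L.Formula Unit, φ.Realize (fun _ => x) ∧ {y : M | φ.Realize (fun _ => y)}.Finite)
    (hdeg : ∀ φ : L.Formula Unit, {x : M | δ.Realize (fun _ => x) ∧ φ.Realize (fun _ => x)}.Finite ∨
      {x : M | δ.Realize (fun _ => x) ∧ ¬ φ.Realize (fun _ => x)}.Finite)
    (hcol : ∀ y : M, δ.Realize (fun _ => y) →
      {x : M | δ.Realize (fun _ => x) ∧ ψ.Realize ![x, y]}.Finite)
    (hrow : {x : M | δ.Realize (fun _ => x) ∧
      {y : M | δ.Realize (fun _ => y) ∧ ψ.Realize ![x, y]}.Infinite}.Infinite)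
    (n : ℕ) : HasModels L T n := by
  by_contra hcon
  obtain ⟨N, hN, f, K, hD0, hD⟩ := setup hL M δ hinf halg hdeg (by
    intro N _ f
    have : Nonempty N := ⟨f (Classical.arbitrary M)⟩
    have : Infinite M := Set.infinite_univ_iff.1 (hinf.mono (Set.subset_univ _))
    have : Infinite N := Infinite.of_injective f f.injective
    exact small_of_few T hL ((f.theory_model_iff T).1 M.is_model) n hcon)
  have := K.ne
  have hT : N ⊨ T := (f.theory_model_iff T).1 M.is_model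
  have hfm : ∀ x y : M, ψ.Realize ![f x, f y] ↔ ψ.Realize ![x, y] := by
    intro x y
    have e : (f ∘ (![x, y] : Fin 2 → M)) = ![f x, f y] := by
      funext i
      fin_cases i <;> rfl
    rw [← f.map_formula ψ, e]
  have hψ : Dfn L (fun v : Fin 2 → N => ψ.Realize ![v 0, v 1]) :=
    Dfn.real ψ id (fun v => ![v 0, v 1]) (by
      intro v b
      fin_cases b <;> rfl)
  have hP2 : K.P2 (fun x y => ψ.Realize ![x, y]) := by
    intro y hy
    rw [hD0] at hy
    obtain ⟨y0, hy0, rfl⟩ := hy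
    have hfin := hcol y0 hy0
    refine (hfin.image f).subset ?_
    rintro x ⟨hx, hxy⟩
    by_contra hx'
    have : Finite {x : M | δ.Realize (fun _ => x) ∧ ψ.Realize ![x, y0]} := hfin
    let m : Option {x : M | δ.Realize (fun _ => x) ∧ ψ.Realize ![x, y0]} → N :=
      fun o => o.elim (f y0) (fun z => f z)
    have hRd : Dfn L (fun v : Option {x : M | δ.Realize (fun _ => x) ∧ ψ.Realize ![x, y0]} ⊕ Unit → N =>
        ψ.Realize ![v (Sum.inr ()), v (Sum.inl none)] ∧ ∀ z, ¬ (v (Sum.inr ()) = v (Sum.inl (some z)))) := by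
      refine Dfn.and ?_ (Dfn.finiteAll fun z => (Dfn.eq _ _).not)
      exact Dfn.real ψ (fun i => if i = 0 then Sum.inr () else Sum.inl none) _ (by
        intro v b
        fin_cases b <;> rfl)
    obtain ⟨x1, hx1, hx2, hx3⟩ := K.tv1 hRd (m := m) (by
      rintro (_ | z)
      · rw [hD0]; exact ⟨y0, hy0, rfl⟩
      · rw [hD0]; exact ⟨z, z.2.1, rfl⟩) hx ⟨hxy, by
      intro z hz
      apply hx'
      exact ⟨z, z.2, hz.symm⟩⟩
    rw [hD0] at hx1
    obtain ⟨x2, hx2', rfl⟩ := hx1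
    exact hx3 ⟨x2, hx2', (hfm x2 y0).1 hx2⟩ rfl
  obtain ⟨a, ha, b, hb, hab, hbe⟩ := pair_ex K (ψ := fun x y => ψ.Realize ![x, y]) hψ (by
    refine (hrow.image f.injective.injOn).mono ?_
    rintro _ ⟨x, ⟨hx, hx'⟩, rfl⟩
    refine ⟨?_, (hx'.image f.injective.injOn).mono ?_⟩
    · rw [hD0]; exact ⟨x, hx, rfl⟩
    · rintro _ ⟨y, ⟨hy, hy'⟩, rfl⟩
      refine ⟨?_, (hfm x y).2 hy'⟩
      rw [hD0]; exact ⟨y, hy, rfl⟩)
  obtain ⟨O⟩ := ord_ex K (ψ := fun x y => ψ.Realize ![x, y]) hψ hP2 ha hb hab hbe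
  exact hcon (hasModels_of_ord T hL hT K O n)

end Pool.Agent.MNM
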