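import Pool.Agent.MNM.Main
import Pool.Agent.MNM.CB
import Pool.Agent.MNM.BMod

/-! MNM: assembly (four models). -/

open FirstOrder FirstOrder.Language
open scoped Pointwise
open Pool.Agent.VCM

namespace Pool.Agent.MNM

variable {L : FirstOrder.Language.{0, 0}}

theorem main_four (hL : L.card ≤ Cardinal.aleph0) (T : L.Theory) (M : T.ModelType.{0, 0, 0})
    (δ : L.Formula Unit)
    (hinf : {x : M | δ.Realize (fun _ => x)}.Infinite)
    (halg : ∀ x : M, δ.Realize (fun _ => x) →
      ∃ φ : L.Formula Unit, φ.Realize (fun _ => x) ∧ {y : M | φ.Realize (fun _ => y)}.Finite) :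
    HasModels L T 4 := by
  by_contra hcon
  have hsm : ∀ (N : Type) [L.Structure N] (_ : M ↪ₑ[L] N), Small L N := by
    intro N _ f
    have : Nonempty N := ⟨f (Classical.arbitrary M)⟩
    have : Infinite M := Set.infinite_univ_iff.1 (hinf.mono (Set.subset_univ _))
    have : Infinite N := Infinite.of_injective f f.injective
    exact small_of_few T hL ((f.theory_model_iff T).1 M.is_model) 4 hcon
  obtain ⟨δ', h1, h2, h3⟩ := deg_one M δ hinf hsm
  obtain ⟨N, hN, f, K, hD0, hD⟩ := setup hL M δ' h1 (fun x hx => halg x (h2 x hx)) h3 hsm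
  have := K.ne
  have hT : N ⊨ T := (f.theory_model_iff T).1 M.is_model
  by_cases hsym : ∀ a ∈ K.P, ∀ b ∈ K.P, ¬ K.Be b a → ¬ K.Be a b
  · exact hcon (four_models T hL hT K hsym)
  · push Not at hsym
    obtain ⟨a, ha, b, hb, h4, h5⟩ := hsym
    obtain ⟨ψ, hψ, hP2, hab⟩ := (K.SI_iff ha).1 h4
    obtain ⟨O⟩ := ord_ex K hψ hP2 ha hb hab h5
    exact hcon (hasModels_of_ord T hL hT K O 4)

end Pool.Agent.MNM
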