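import Pool.Agent.MNM.MainB
import Pool.Agent.MNM.DimEx
import Pool.Agent.MNM.Esc

/-! MNM: assembly (the pregeometric case). -/

open FirstOrder FirstOrder.Language
open scoped Pointwise
open Pool.Agent.VCM

namespace Pool.Agent.MNM

variable {L : FirstOrder.Language.{0, 0}} {N : Type} [L.Structure N]

theorem hasModels_of_dtwo (T : L.Theory) (hL : L.card ≤ Cardinal.aleph0) (hT : N ⊨ T)
    (K : Ctx L N) (hD : K.DTwo) (n : ℕ) : HasModels L T n := by
  have := K.ne
  choose S hS1 hS2 using fun i : Fin n => hasDim_ex K hL hD (i : ℕ)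
  refine ⟨fun i => Theory.ModelType.of T (S i), fun i => ?_, fun i j hij => ⟨fun σ => ?_⟩⟩
  · exact (hS1 i).to_subtype
  · exact hij (Fin.ext (K.HasDim_iso hD (S i) (S j) σ (hS2 i) (hS2 j)))

theorem main_pregeom (hL : L.card ≤ Cardinal.aleph0) (T : L.Theory) (M : T.ModelType.{0, 0, 0})
    (δ : L.Formula Unit)
    (hinf : {x : M | δ.Realize (fun _ => x)}.Infinite)
    (halg : ∀ x : M, δ.Realize (fun _ => x) →
      ∃ φ : L.Formula Unit, φ.Realize (fun _ => x) ∧ {y : M | φ.Realize (fun _ => y)}.Finite)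
    (hesc : ∀ (n : ℕ) (η : L.Formula (Fin n ⊕ Unit)), ∃ F : Set M, F.Finite ∧
      (∀ y ∈ F, δ.Realize (fun _ => y)) ∧
      ∀ m : Fin n → M, (∀ i, δ.Realize (fun _ => m i)) →
        {y : M | δ.Realize (fun _ => y) ∧ η.Realize (Sum.elim m (fun _ => y))}.Infinite →
        ∃ y ∈ F, η.Realize (Sum.elim m (fun _ => y)))
    (n : ℕ) : HasModels L T n := by
  classical
  by_contra hcon
  have hsm : ∀ (N : Type) [L.Structure N] (_ : M ↪ₑ[L] N), Small L N := by
    intro N _ f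
    have : Nonempty N := ⟨f (Classical.arbitrary M)⟩
    have : Infinite M := Set.infinite_univ_iff.1 (hinf.mono (Set.subset_univ _))
    have : Infinite N := Infinite.of_injective f f.injective
    exact small_of_few T hL ((f.theory_model_iff T).1 M.is_model) n hcon
  obtain ⟨δ', h1, h2, h3⟩ := deg_one M δ hinf hsm
  obtain ⟨N, hN, f, K, hD0, hD⟩ := setup hL M δ' h1 (fun x hx => halg x (h2 x hx)) h3 hsm
  have := K.ne
  have hT : N ⊨ T := (f.theory_model_iff T).1 M.is_model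
  refine hcon (hasModels_of_dtwo T hL hT K (dtwo_of K ?_) n)
  intro k R hR
  obtain ⟨η, hη⟩ := hR
  obtain ⟨F, hF1, hF2, hF3⟩ := hesc k (η ⊓ δ'.relabel (fun _ => Sum.inr ()))
  have hδ : ∀ x : M, δ'.Realize (fun _ => f x) ↔ δ'.Realize (fun _ => x) := fun x =>
    f.map_formula δ' (fun _ => x)
  have hηf : ∀ (m : Fin k → M) (y : M),
      η.Realize (ap (fun i => f (m i)) (f y)) ↔ η.Realize (Sum.elim m (fun _ => y)) := by
    intro m y
    rw [← f.map_formula η (Sum.elim m (fun _ => y))]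
    have e : (f ∘ (Sum.elim m (fun _ => y) : Fin k ⊕ Unit → M)) = ap (fun i => f (m i)) (f y) := by
      funext i
      rcases i with i | i <;> rfl
    rw [e]
  have hR' : ∀ (m : Fin k → M) (y : M),
      (η ⊓ δ'.relabel (fun _ => Sum.inr ())).Realize (Sum.elim m (fun _ => y)) ↔
        η.Realize (Sum.elim m (fun _ => y)) ∧ δ'.Realize (fun _ => y) := by
    intro m y
    rw [Formula.realize_inf, Formula.realize_relabel]
    rfl
  refine ⟨f '' {y | y ∈ F ∧ δ'.Realize (fun _ => y)}, (hF1.subset fun y hy => hy.1).image f, ?_, ?_⟩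
  · rintro _ ⟨y, hy, rfl⟩
    rw [hD0]
    exact ⟨y, hy.2, rfl⟩
  · intro m hm hinf'
    have hm' : ∀ i, ∃ x : M, δ'.Realize (fun _ => x) ∧ f x = m i := by
      intro i
      have := hm i
      rw [hD0] at this
      obtain ⟨x, hx, hx'⟩ := this
      exact ⟨x, hx, hx'⟩
    choose m₀ hm₀ hm₀' using hm'
    have em : m = fun i => f (m₀ i) := funext fun i => (hm₀' i).symm
    have hinf2 : {y : M | δ.Realize (fun _ => y) ∧
        (η ⊓ δ'.relabel (fun _ => Sum.inr ())).Realize (Sum.elim m₀ (fun _ => y))}.Infinite := by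
      intro hfin
      apply hinf'
      refine (hfin.image f).subset ?_
      rintro y ⟨hy, hy'⟩
      rw [hD0] at hy
      obtain ⟨y₀, hy₀, rfl⟩ := hy
      refine ⟨y₀, ⟨h2 y₀ hy₀, (hR' m₀ y₀).2 ⟨?_, hy₀⟩⟩, rfl⟩
      rw [← hηf, ← em]
      exact (hη _).2 hy'
    obtain ⟨y, hy, hy'⟩ := hF3 m₀ (fun i => h2 _ (hm₀ i)) hinf2
    rw [hR'] at hy'
    refine ⟨f y, ⟨y, ⟨hy, hy'.2⟩, rfl⟩, (hη _).1 ?_⟩
    rw [em, hηf]
    exact hy'.1

end Pool.Agent.MNM
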