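import Pool.Agent.MNM.OrdDef
import Pool.Agent.MNM.Cl

/-! MNM: tools for the order (part A). -/

open FirstOrder FirstOrder.Language
open scoped Pointwise
open Pool.Agent.VCM

namespace Pool.Agent.MNM.Ord

variable {L : FirstOrder.Language.{0, 0}} {N : Type} [L.Structure N] {K : Ctx L N} (O : Ord K)

private theorem OA_max {X : Type} (lt : X → X → Prop) (irr : ∀ x, ¬ lt x x)
    (tr : ∀ {x y z}, lt x y → lt y z → lt x z) (S : Set X) (hS : S.Finite) :
    ∀ (n : ℕ) (x : X), x ∈ S → {w | w ∈ S ∧ lt x w}.ncard ≤ n →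
      ∃ z ∈ S, (z = x ∨ lt x z) ∧ ∀ w ∈ S, ¬ lt z w := by
  intro n
  induction n with
  | zero =>
    intro x hx hn
    refine ⟨x, hx, Or.inl rfl, fun w hw hxw => ?_⟩
    have hfin : {w | w ∈ S ∧ lt x w}.Finite := hS.subset fun w hw => hw.1
    have h0 : {w | w ∈ S ∧ lt x w} = ∅ := by
      rw [← Set.ncard_eq_zero hfin]
      omega
    have : w ∈ {w | w ∈ S ∧ lt x w} := ⟨hw, hxw⟩
    rw [h0] at this
    exact this
  | succ n ih =>
    intro x hx hn
    by_cases hex : ∃ w ∈ S, lt x w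
    · obtain ⟨w, hw, hxw⟩ := hex
      have hfin : {w | w ∈ S ∧ lt x w}.Finite := hS.subset fun w hw => hw.1
      have hss : {u | u ∈ S ∧ lt w u} ⊂ {u | u ∈ S ∧ lt x u} := by
        refine ⟨fun u hu => ⟨hu.1, tr hxw hu.2⟩, fun hsub => ?_⟩
        have h1 : w ∈ {u | u ∈ S ∧ lt w u} := hsub ⟨hw, hxw⟩
        exact irr w h1.2
      have hlt := Set.ncard_lt_ncard hss hfin
      obtain ⟨z, hz, h1, h2⟩ := ih w hw (by omega)
      refine ⟨z, hz, Or.inr ?_, h2⟩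
      rcases h1 with h1 | h1
      · rw [h1]; exact hxw
      · exact tr hxw h1
    · exact ⟨x, hx, Or.inl rfl, fun w hw hxw => hex ⟨w, hw, hxw⟩⟩

/-- below an element of `D0` there are only elements of `D0`: `O.low` and `sub_of_fin` (with the
parameter `m`) -/
theorem lt_D0 {x m : N} (hm : m ∈ K.D0) (h : O.lt x m) : x ∈ K.D0 := by
  have hd : Dfn L (fun v : Unit ⊕ Unit → N => O.lt (v (Sum.inr ())) (v (Sum.inl ()))) :=
    O.dfn_lt _ _
  refine K.sub_of_fin (γ := Unit) (m := one m) (fun _ => hm) hd ?_ x (O.ltD h).1 h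
  exact (O.low m hm).subset fun y hy => hy.2

/-- above an element of `P` there are only elements of `P` -/
theorem P_up {x y : N} (hx : x ∈ K.P) (h : O.lt x y) : y ∈ K.P :=
  ⟨(O.ltD h).2, fun hy => hx.2 (O.lt_D0 hy h)⟩

/-- `x < y`, `x ∈ P` implies `x ∈ cl(y)`: if `Be y x`, the relation `x < y` gives `m ∈ D0` with
`x < m` -/
theorem lt_cl {x y : N} (hx : x ∈ K.P) (h : O.lt x y) : ¬ K.Be y x := by
  intro hb
  have hd : Dfn L (fun v : Unit ⊕ Unit → N => O.lt (v (Sum.inr ())) (v (Sum.inl ()))) :=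
    O.dfn_lt _ _
  obtain ⟨c', h1, h2⟩ := hb _ hd h
  exact hx.2 (O.lt_D0 (h1 ()) h2)

/-- Maximal elements below a bound.  Proof: for `c`, `y` in `D0` the set
`{z | R (ap c z) ∧ z < y}` is finite (`O.low`), so every element of it is below or equal to a maximal
one (e.g. `Finset.exists_le_maximal`-like argument or strong induction on the finite number of
elements above).  The statement (for all `c : α → N`, `y`, `x` in `D`) is a definable property of the
tuple, so it transfers from `D0` to `D` by `K.transfer`; all quantifiers are restricted to `D`. -/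
theorem max_below {α : Type} [Finite α] {c : α → N} (hc : ∀ i, c i ∈ K.D)
    {R : (α ⊕ Unit → N) → Prop} (hR : Dfn L R) {x y : N} (hx : R (ap c x)) (hxy : O.lt x y) :
    ∃ z : N, (z = x ∨ O.lt x z) ∧ R (ap c z) ∧ O.lt z y ∧
      ∀ w : N, R (ap c w) → O.lt w y → ¬ O.lt z w := by
  -- the innermost relation, variables: ((((α, x), y), z), w)
  let Q2 : (((((α ⊕ Unit) ⊕ Unit) ⊕ Unit) ⊕ Unit) → N) → Prop := fun u =>
    R (ap (fun i => u (Sum.inl (Sum.inl (Sum.inl (Sum.inl i))))) (u (Sum.inr ()))) →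
      O.lt (u (Sum.inr ())) (u (Sum.inl (Sum.inl (Sum.inr ())))) →
        ¬ O.lt (u (Sum.inl (Sum.inr ()))) (u (Sum.inr ()))
  have hQ2 : Dfn L Q2 := by
    refine Dfn.imp ?_ (Dfn.imp (O.dfn_lt _ _) (O.dfn_lt _ _).not)
    refine Dfn.comp hR (Sum.elim (fun i => Sum.inl (Sum.inl (Sum.inl (Sum.inl i))))
      (fun _ => Sum.inr ())) _ ?_
    rintro v (k | k) <;> rfl
  let Q1 : ((((α ⊕ Unit) ⊕ Unit) ⊕ Unit) → N) → Prop := fun u =>
    ((u (Sum.inr ()) = u (Sum.inl (Sum.inl (Sum.inr ()))) ∨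
      O.lt (u (Sum.inl (Sum.inl (Sum.inr ())))) (u (Sum.inr ()))) ∧
      R (ap (fun i => u (Sum.inl (Sum.inl (Sum.inl i)))) (u (Sum.inr ()))) ∧
      O.lt (u (Sum.inr ())) (u (Sum.inl (Sum.inr ())))) ∧ ∀ w ∈ K.D, Q2 (ap u w)
  have hQ1 : Dfn L Q1 := by
    refine Dfn.and (Dfn.and (Dfn.or (Dfn.eq _ _) (O.dfn_lt _ _)) (Dfn.and ?_ (O.dfn_lt _ _)))
      (K.dfn_allD hQ2)
    refine Dfn.comp hR (Sum.elim (fun i => Sum.inl (Sum.inl (Sum.inl i)))
      (fun _ => Sum.inr ())) _ ?_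
    rintro v (k | k) <;> rfl
  let T : (((α ⊕ Unit) ⊕ Unit) → N) → Prop := fun v =>
    R (fun k => v (Sum.inl k)) → O.lt (v (Sum.inl (Sum.inr ()))) (v (Sum.inr ())) →
      ∃ z ∈ K.D, Q1 (ap v z)
  have hT : Dfn L T := by
    refine Dfn.imp ?_ (Dfn.imp (O.dfn_lt _ _) (K.dfn_exD hQ1))
    exact Dfn.comp hR Sum.inl _ (fun _ _ => rfl)
  have key : ∀ v : ((α ⊕ Unit) ⊕ Unit) → N, (∀ i, v i ∈ K.D) → T v := by
    refine K.transfer hT ?_
    intro m hm h1 h2
    have hfin : {z | R (ap (fun i => m (Sum.inl (Sum.inl i))) z) ∧ O.lt z (m (Sum.inr ()))}.Finite :=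
      (O.low _ (hm (Sum.inr ()))).subset fun z hz => hz.2
    have hm1 : ap (fun i => m (Sum.inl (Sum.inl i))) (m (Sum.inl (Sum.inr ()))) =
        fun k => m (Sum.inl k) := by
      funext k
      rcases k with k | k <;> rfl
    obtain ⟨z, hz, h3, h4⟩ := OA_max O.lt O.irr O.tr _ hfin _ (m (Sum.inl (Sum.inr ())))
      ⟨by rw [hm1]; exact h1, h2⟩ le_rfl
    refine ⟨z, (O.ltD hz.2).1, ⟨h3, hz.1, hz.2⟩, ?_⟩
    intro w _ hw1 hw2
    exact h4 w ⟨hw1, hw2⟩
  have hv : ∀ i, ap (ap c x) y i ∈ K.D := by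
    rintro ((i | i) | i)
    · exact hc i
    · exact (O.ltD hxy).1
    · exact (O.ltD hxy).2
  obtain ⟨z, hzD, ⟨h1, h2, h3⟩, h4⟩ := key (ap (ap c x) y) hv hx hxy
  exact ⟨z, h1, h2, h3, fun w hw1 hw2 => h4 w (O.ltD hw2).1 hw1 hw2⟩

end Pool.Agent.MNM.Ord
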