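import Pool.Agent.MNM.OA

/-! MNM: tools for the order: moving down and up. -/

open FirstOrder FirstOrder.Language
open scoped Pointwise
open Pool.Agent.VCM

namespace Pool.Agent.MNM.Ord

variable {L : FirstOrder.Language.{0, 0}} {N : Type} [L.Structure N] {K : Ctx L N} (O : Ord K)

/-- finite support -/
private theorem ob_supp {δ α : Type} {T : ((δ ⊕ α) ⊕ Unit → N) → Prop} (hT : Dfn L T)
    (p : δ → N) : ∃ (F : Finset δ) (R : ((α ⊕ F) ⊕ Unit → N) → Prop), Dfn L R ∧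
      ∀ (c : α → N) (x : N), R (ap (Sum.elim c (fun i : F => p i)) x) ↔
        T (ap (Sum.elim p c) x) := by
  classical
  obtain ⟨φ, hφ⟩ := hT
  obtain ⟨F, ψ, hψ⟩ := fin_supp φ
  let g : F → (α ⊕ F.toLeft.toLeft) ⊕ Unit := fun a => match a with
    | ⟨Sum.inl (Sum.inl a), h⟩ =>
        Sum.inl (Sum.inr ⟨a, Finset.mem_toLeft.2 (Finset.mem_toLeft.2 h)⟩)
    | ⟨Sum.inl (Sum.inr a), _⟩ => Sum.inl (Sum.inl a)
    | ⟨Sum.inr _, _⟩ => Sum.inr ()
  refine ⟨F.toLeft.toLeft, fun u => ψ.Realize (fun a => u (g a)),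
    Dfn.real ψ g (fun u a => u (g a)) (fun _ _ => rfl), fun c x => ?_⟩
  rw [← hφ, hψ]
  have h1 : (fun a : F => ap (Sum.elim c (fun i : F.toLeft.toLeft => p i)) x (g a)) =
      fun a : F => ap (Sum.elim p c) x a := by
    funext a
    rcases a with ⟨(a | a) | a, h⟩ <;> rfl
  show ψ.Realize (fun a : F => ap (Sum.elim c (fun i : F.toLeft.toLeft => p i)) x (g a)) ↔
    ψ.Realize (fun a : F => ap (Sum.elim p c) x a)
  rw [h1]

/-- finite satisfiability -/
private theorem ob_sat {α : Type} [Finite α] {c : α → N} {d : N} (hd : d ∈ K.P) (h : K.Ind c d)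
    {T : ((K.D0 ⊕ α) ⊕ Unit → N) → Prop} (hT : Dfn L T)
    (hTd : T (ap (Sum.elim (fun m : K.D0 => (m : N)) c) d))
    {S : ((α ⊕ Unit) ⊕ Unit → N) → Prop} (hS : Dfn L S)
    (hSd : ∀ w : α ⊕ Unit → N, (∀ i, w i ∈ K.D0) → ¬ S (ap w d)) :
    ∃ u : N, O.lt u d ∧ T (ap (Sum.elim (fun m : K.D0 => (m : N)) c) u) ∧ ¬ S (ap (ap c u) d) := by
  have hne := K.ne
  obtain ⟨F, R, hR, hRT⟩ := ob_supp hT (fun m : K.D0 => (m : N))
  by_contra hcon
  push Not at hcon
  have hW : Dfn L (fun v : α ⊕ (Unit ⊕ F) → N =>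
      R (ap (Sum.elim (v ∘ Sum.inl) (v ∘ Sum.inr ∘ Sum.inr)) (v (Sum.inr (Sum.inl ())))) ∧
      ¬ ∃ u : N, O.lt u (v (Sum.inr (Sum.inl ()))) ∧
        R (ap (Sum.elim (v ∘ Sum.inl) (v ∘ Sum.inr ∘ Sum.inr)) u) ∧
        ¬ S (ap (ap (v ∘ Sum.inl) u) (v (Sum.inr (Sum.inl ()))))) := by
    refine Dfn.and ?_ (Dfn.not (Dfn.ex1 (R := fun (v : α ⊕ (Unit ⊕ F) → N) (u : N) =>
        O.lt u (v (Sum.inr (Sum.inl ()))) ∧
        R (ap (Sum.elim (v ∘ Sum.inl) (v ∘ Sum.inr ∘ Sum.inr)) u) ∧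
        ¬ S (ap (ap (v ∘ Sum.inl) u) (v (Sum.inr (Sum.inl ()))))) ?_))
    · exact Dfn.comp hR (Sum.elim (Sum.elim Sum.inl (fun i => Sum.inr (Sum.inr i)))
        (fun _ => Sum.inr (Sum.inl ()))) _ (by rintro v ((k | k) | k) <;> rfl)
    · refine (O.dfn_lt (Sum.inr ()) (Sum.inl (Sum.inr (Sum.inl ())))).and (Dfn.and ?_ (Dfn.not ?_))
      · exact Dfn.comp hR (Sum.elim (Sum.elim (fun i => Sum.inl (Sum.inl i))
          (fun i => Sum.inl (Sum.inr (Sum.inr i)))) (fun _ => Sum.inr ())) _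
          (by rintro v ((k | k) | k) <;> rfl)
      · exact Dfn.comp hS (Sum.elim (Sum.elim (fun i => Sum.inl (Sum.inl i))
          (fun _ => Sum.inr ())) (fun _ => Sum.inl (Sum.inr (Sum.inl ())))) _
          (by rintro v ((k | k) | k) <;> rfl)
  have hFS := K.FS_param h (m := fun i : F => ((i : K.D0) : N)) (fun i => i.1.2)
  obtain ⟨c', hc', h1, h2⟩ := hFS _ hW ⟨(hRT c d).2 hTd, by
    rintro ⟨u, hu1, hu2, hu3⟩
    exact hu3 (hcon u hu1 ((hRT c u).1 hu2))⟩
  obtain ⟨u, hu1, hu2, hu3⟩ := O.acc d hd (Sum.elim c' (fun i : F => ((i : K.D0) : N))) (by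
    rintro (i | i)
    · exact hc' i
    · exact i.1.2) R hR h1
  refine h2 ⟨u, hu3, hu2, hSd (ap c' u) ?_⟩
  rintro (i | i)
  · exact hc' i
  · exact hu1

/-- Below `d` there is an element with the same type over `D0 ∪ c`, if `d ∉ cl(c)`.
Proof: saturation (at a level containing `c` and `d`), variable `u`: relations `u < d`;
`R (incl, c, u)` for all definable `R` (index type `K.D0 ⊕ α`, use `L.Formula`s) true of `d`;
and `¬ S (u, c; d)` for all definable `S` with no solution of `S (·, ·; d)` in `D0` (this gives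
`Ind (ap c u) d`).  Finite satisfiability: a finite conjunction is a definable relation
`C (c, m, u)` (finite tuple `m` of `D0`) true at `u = d`, and a finite disjunction `S (c, u; d)` of
relations without solutions in `D0`.  If there is no `u < d` with `C (c, m, u) ∧ ¬ S (c, u; d)`, then
`C (c, m, d) ∧ ¬ ∃ u < d, C (c, m, u) ∧ ¬ S (c, u; d)` is a relation between `c` and `(d, m)`; by
`Ind c d` and `FS_param` it holds for some `c' ∈ D0` in place of `c`.  But `O.acc` for `d` and the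
relation `C (c', m, ·)` gives `u ∈ D0`, `u < d`, `C (c', m, u)`, and `S (c', u; d)` fails because
`c', u ∈ D0`: contradiction. -/
theorem down {α : Type} [Finite α] {c : α → N} {d : N} (hd : d ∈ K.P) (h : K.Ind c d) :
    ∃ u : N, O.lt u d ∧ K.TpD c u d ∧ K.Ind (ap c u) d := by
  classical
  have hne := K.ne
  obtain ⟨n, hn⟩ := K.lev.finite_level (ap c d)
  have hdn : d ∈ K.lev.S n := hn (Sum.inr ())
  have hcn : ∀ i, c i ∈ K.lev.S n := fun i => hn (Sum.inl i)
  have hDn : ∀ i, Sum.elim (fun m : K.D0 => (m : N)) c i ∈ K.lev.S n := by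
    rintro (i | i)
    · exact K.lev.mono (Nat.zero_le _) (K.lvl i.2)
    · exact hcn i
  let I : Type := {ρ : (Unit → N) → Prop //
    (∃ T : ((K.D0 ⊕ α) ⊕ Unit → N) → Prop, Dfn L T ∧
      T (ap (Sum.elim (fun m : K.D0 => (m : N)) c) d) ∧
      ∀ v, ρ v ↔ T (ap (Sum.elim (fun m : K.D0 => (m : N)) c) (v ()))) ∨
    (∃ S : ((α ⊕ Unit) ⊕ Unit → N) → Prop, Dfn L S ∧
      (∀ w : α ⊕ Unit → N, (∀ i, w i ∈ K.D0) → ¬ S (ap w d)) ∧
      ∀ v, ρ v ↔ ¬ S (ap (ap c (v ())) d)) ∨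
    (∀ v, ρ v ↔ O.lt (v ()) d)}
  have hρ : ∀ i : I, DfnO L (K.lev.S n) i.1 := by
    intro i
    rcases i.2 with ⟨T, hT, -, hT2⟩ | ⟨S, hS, -, hS2⟩ | hlt
    · refine (DfnO.of_dfn hT _ hDn).of_iff fun v => ?_
      rw [hT2]
      rfl
    · have h1 : Dfn L (fun u : (α ⊕ Unit) ⊕ Unit → N =>
          ¬ S (ap (ap (u ∘ Sum.inl ∘ Sum.inl) (u (Sum.inr ()))) (u (Sum.inl (Sum.inr ()))))) := by
        refine Dfn.not ?_
        exact Dfn.comp hS (Sum.elim (Sum.elim (fun i => Sum.inl (Sum.inl i)) (fun _ => Sum.inr ()))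
          (fun _ => Sum.inl (Sum.inr ()))) _ (by rintro v ((k | k) | k) <;> rfl)
      refine (DfnO.of_dfn h1 (ap c d) hn).of_iff fun v => ?_
      rw [hS2]
      rfl
    · refine (DfnO.of_dfn (R := fun u : Unit ⊕ Unit → N => O.lt (u (Sum.inr ())) (u (Sum.inl ())))
        (O.dfn_lt _ _) (one d) (fun _ => hdn)).of_iff fun v => ?_
      rw [hlt]
      rfl
  have hfin : ∀ F : Finset I, ∃ y : Unit → N, ∀ i ∈ F, i.1 y := by
    intro F
    have key : ∃ (T : ((K.D0 ⊕ α) ⊕ Unit → N) → Prop) (S : ((α ⊕ Unit) ⊕ Unit → N) → Prop),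
        Dfn L T ∧ T (ap (Sum.elim (fun m : K.D0 => (m : N)) c) d) ∧ Dfn L S ∧
        (∀ w : α ⊕ Unit → N, (∀ i, w i ∈ K.D0) → ¬ S (ap w d)) ∧
        ∀ i ∈ F, ∀ u, O.lt u d → T (ap (Sum.elim (fun m : K.D0 => (m : N)) c) u) →
          ¬ S (ap (ap c u) d) → i.1 (one u) := by
      induction F using Finset.induction_on with
      | empty => exact ⟨fun _ => True, fun _ => False, Dfn.true', trivial, Dfn.false',
          fun _ _ h => h, by simp⟩
      | insert i F _ ih =>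
        obtain ⟨T, S, h1, h2, h3, h4, h5⟩ := ih
        rcases i.2 with ⟨T', hT, hT1, hT2⟩ | ⟨S', hS, hS1, hS2⟩ | hlt
        · refine ⟨fun v => T v ∧ T' v, S, h1.and hT, ⟨h2, hT1⟩, h3, h4, ?_⟩
          intro j hj u hu1 hu2 hu3
          rcases Finset.mem_insert.1 hj with rfl | hj
          · exact (hT2 _).2 hu2.2
          · exact h5 j hj u hu1 hu2.1 hu3
        · refine ⟨T, fun v => S v ∨ S' v, h1, h2, h3.or hS, ?_, ?_⟩
          · rintro w hw (h6 | h6)
            · exact h4 w hw h6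
            · exact hS1 w hw h6
          · intro j hj u hu1 hu2 hu3
            rcases Finset.mem_insert.1 hj with rfl | hj
            · exact (hS2 _).2 fun h6 => hu3 (Or.inr h6)
            · exact h5 j hj u hu1 hu2 fun h6 => hu3 (Or.inl h6)
        · refine ⟨T, S, h1, h2, h3, h4, ?_⟩
          intro j hj u hu1 hu2 hu3
          rcases Finset.mem_insert.1 hj with rfl | hj
          · exact (hlt _).2 hu1
          · exact h5 j hj u hu1 hu2 hu3
    obtain ⟨T, S, h1, h2, h3, h4, h5⟩ := key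
    obtain ⟨u, hu1, hu2, hu3⟩ := ob_sat O hd h h1 h2 h3 h4
    exact ⟨one u, fun i hi => h5 i hi u hu1 hu2 hu3⟩
  obtain ⟨z, -, hz⟩ := K.lev.sat_rel n (κ := Unit) (fun _ => (⟨d, hdn⟩, 0))
    (fun _ _ _ => rfl) (fun i : I => i.1) hρ hfin
  refine ⟨z (), ?_, ?_, ?_⟩
  · exact hz ⟨fun v => O.lt (v ()) d, Or.inr (Or.inr fun _ => Iff.rfl)⟩
  · have key : ∀ φ : L.Formula ((K.D0 ⊕ α) ⊕ Unit),
        φ.Realize (ap (Sum.elim (fun m : K.D0 => (m : N)) c) d) →
        φ.Realize (ap (Sum.elim (fun m : K.D0 => (m : N)) c) (z ())) := fun φ hφ =>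
      hz ⟨fun v => φ.Realize (ap (Sum.elim (fun m : K.D0 => (m : N)) c) (v ())),
        Or.inl ⟨fun u => φ.Realize u, Dfn.formula φ, hφ, fun v => Iff.rfl⟩⟩
    intro φ
    refine ⟨fun h => ?_, key φ⟩
    by_contra hcon
    exact (Formula.realize_not.1 (key φ.not (Formula.realize_not.2 hcon))) h
  · intro R hR hRz
    by_contra hcon
    refine (hz ⟨fun v => ¬ R (ap (ap c (v ())) d), Or.inr (Or.inl ⟨R, hR, ?_,
      fun _ => Iff.rfl⟩)⟩) hRz
    intro w hw hRw
    exact hcon ⟨w, hw, hRw⟩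

/-- The upward version.  Proof: take `u` from `down`; by `K.homD` (tuples `ap c u`, `ap c d`) there
is an automorphism `g` fixing `D0` and `c` with `g u = d`; put `z := g d`. -/
theorem up {α : Type} [Finite α] {c : α → N} {d : N} (hd : d ∈ K.P) (h : K.Ind c d) :
    ∃ z : N, O.lt d z ∧ K.TpD c z d ∧ K.Ind (ap c d) z := by
  obtain ⟨u, hu1, hu2, hu3⟩ := O.down hd h
  have ht : TpEq L (Sum.elim (fun m : K.D0 => (m : N)) (ap c u))
      (Sum.elim (fun m : K.D0 => (m : N)) (ap c d)) := by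
    have e1 : ∀ x : N, Sum.elim (fun m : K.D0 => (m : N)) (ap c x) =
        ap (Sum.elim (fun m : K.D0 => (m : N)) c) x ∘
          (Sum.elim (fun m => Sum.inl (Sum.inl m)) (Sum.elim (fun i => Sum.inl (Sum.inr i))
            (fun _ => Sum.inr ()))) := by
      intro x
      funext k
      rcases k with k | k | k <;> rfl
    rw [e1, e1]
    exact TpEq.comp hu2 _
  obtain ⟨g, hgD, hg⟩ := K.homD ht
  have hgc : ∀ i, g • c i = c i := fun i => hg (Sum.inl i)
  have hgu : g • u = d := hg (Sum.inr ())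
  refine ⟨g • d, ?_, ?_, ?_⟩
  · have h1 := (O.lt_aut g u d).2 hu1
    rwa [hgu] at h1
  · have e1 : ap (Sum.elim (fun m : K.D0 => (m : N)) c) (g • d) =
        fun i => g • ap (Sum.elim (fun m : K.D0 => (m : N)) c) d i := by
      funext k
      rcases k with (k | k) | k
      · exact (hgD _ k.2).symm
      · exact (hgc k).symm
      · rfl
    show TpEq L (ap (Sum.elim (fun m : K.D0 => (m : N)) c) (g • d))
      (ap (Sum.elim (fun m : K.D0 => (m : N)) c) d)
    rw [e1]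
    exact Ctx.aut_tp g _
  · have h1 := K.FS_smul_of hu3 g
    have e1 : (fun i => g • ap c u i) = ap c d := by
      funext k
      rcases k with k | k
      · exact hgc k
      · exact hgu
    rw [e1] at h1
    exact h1

end Pool.Agent.MNM.Ord
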