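import Pool.Agent.MNM.OA

/-! MNM: tools for the order: the quantifier `Pi`. -/

open FirstOrder FirstOrder.Language
open scoped Pointwise
open Pool.Agent.VCM

namespace Pool.Agent.MNM.Ord

variable {L : FirstOrder.Language.{0, 0}} {N : Type} [L.Structure N] {K : Ctx L N} (O : Ord K)

/-- definability of `Pi` -/
theorem dfn_Pi {α : Type} {R : (α ⊕ Unit → N) → Prop} (hR : Dfn L R) :
    Dfn L (fun v : α → N => O.Pi (fun z => R (ap v z))) := by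
  have h3 : Dfn L (fun u : ((α ⊕ Unit) ⊕ Unit) ⊕ Unit → N =>
      R (ap (u ∘ Sum.inl ∘ Sum.inl ∘ Sum.inl) (u (Sum.inr ()))) →
        ¬ O.lt (u (Sum.inl (Sum.inr ()))) (u (Sum.inr ()))) := by
    refine Dfn.imp ?_ (O.dfn_lt _ _).not
    exact Dfn.comp hR (Sum.map (Sum.inl ∘ Sum.inl) id)
      (fun u => ap (u ∘ Sum.inl ∘ Sum.inl ∘ Sum.inl) (u (Sum.inr ())))
      (by rintro v (k | k) <;> rfl)
  have h2 : Dfn L (fun u : (α ⊕ Unit) ⊕ Unit → N =>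
      (u (Sum.inr ()) = u (Sum.inl (Sum.inr ())) ∨
        O.lt (u (Sum.inl (Sum.inr ()))) (u (Sum.inr ()))) ∧
      R (ap (u ∘ Sum.inl ∘ Sum.inl) (u (Sum.inr ()))) ∧
      ∀ w ∈ K.D, (fun u : ((α ⊕ Unit) ⊕ Unit) ⊕ Unit → N =>
        R (ap (u ∘ Sum.inl ∘ Sum.inl ∘ Sum.inl) (u (Sum.inr ()))) →
          ¬ O.lt (u (Sum.inl (Sum.inr ()))) (u (Sum.inr ()))) (ap u w)) := by
    refine Dfn.and (Dfn.or (Dfn.eq _ _) (O.dfn_lt _ _)) (Dfn.and ?_ (K.dfn_allD h3))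
    exact Dfn.comp hR (Sum.map Sum.inl id)
      (fun u => ap (u ∘ Sum.inl ∘ Sum.inl) (u (Sum.inr ())))
      (by rintro v (k | k) <;> rfl)
  have h1 := K.dfn_allD (hR.imp (K.dfn_exD h2))
  exact h1.of_iff fun v => Iff.rfl

/-- in a finite set every element is below or equal to a maximal one -/
private theorem OC_exists_max {B : Set N} (hB : B.Finite) (x : N) (hx : x ∈ B) :
    ∃ z ∈ B, (z = x ∨ O.lt x z) ∧ ∀ w ∈ B, ¬ O.lt z w := by
  classical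
  induction hn : {w | w ∈ B ∧ O.lt x w}.ncard using Nat.strong_induction_on generalizing x with
  | _ n ih =>
    by_cases hw : ∃ w ∈ B, O.lt x w
    · obtain ⟨w, hw1, hw2⟩ := hw
      have hlt : {w' | w' ∈ B ∧ O.lt w w'}.ncard < n := by
        rw [← hn]
        refine Set.ncard_lt_ncard ⟨fun w' hw' => ⟨hw'.1, O.tr hw2 hw'.2⟩, fun hcon => ?_⟩
          (hB.subset fun w' hw' => hw'.1)
        exact O.irr w (hcon ⟨hw1, hw2⟩ : w ∈ B ∧ O.lt w w).2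
      obtain ⟨z, hz1, hz2, hz3⟩ := ih _ hlt w hw1 rfl
      refine ⟨z, hz1, Or.inr ?_, hz3⟩
      rcases hz2 with rfl | hz2
      · exact hw2
      · exact O.tr hw2 hz2
    · push Not at hw
      exact ⟨x, hx, Or.inl rfl, hw⟩

/-- a set contained in a `Clf` set satisfies `Pi`.
Proof: for `c` in `D0` the set is finite; the implication
`(∀ z ∈ D, R (ap c z) → ζ (ap c z)) → Pi (R (ap c ·))` is definable (`dfn_Pi`) and true for all
`c ∈ D0`, so it transfers to `D` by `K.transfer`. -/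
theorem Pi_of_bounded {α : Type} [Finite α] {c : α → N} (hc : ∀ i, c i ∈ K.D)
    {R ζ : (α ⊕ Unit → N) → Prop} (hR : Dfn L R) (hζ : Dfn L ζ) (hζc : K.Clf ζ)
    (h : ∀ z ∈ K.D, R (ap c z) → ζ (ap c z)) : O.Pi (fun z => R (ap c z)) := by
  refine K.transfer (R := fun v : α → N => (∀ z ∈ K.D, R (ap v z) → ζ (ap v z)) →
    O.Pi (fun z => R (ap v z))) ((K.dfn_allD (hR.imp hζ)).imp (O.dfn_Pi hR)) ?_ c hc h
  intro m hm hb x hx hRx
  obtain ⟨z, hz1, hz2, hz3⟩ := O.OC_exists_max (B := {z | z ∈ K.D ∧ R (ap m z)})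
    ((hζc m hm).subset fun z hz => ⟨hz.1, hb z hz.1 hz.2⟩) x ⟨hx, hRx⟩
  exact ⟨z, hz1.1, hz2, hz1.2, fun w hw hRw => hz3 w ⟨hw, hRw⟩⟩

/-- `bounded` and `Pi_of_bounded` -/
theorem Pi_of_cl {α : Type} [Finite α] {c : α → N} (hc : ∀ i, c i ∈ K.D)
    {R : (α ⊕ Unit → N) → Prop} (hR : Dfn L R) (h : ∀ z ∈ K.P, R (ap c z) → ¬ K.Ind c z) :
    O.Pi (fun z => R (ap c z)) := by
  obtain ⟨ζ, h1, h2, h3⟩ := K.bounded hR h
  exact O.Pi_of_bounded hc hR h1 h2 h3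

/-- contrapositive of `Pi_of_cl` -/
theorem Q2 {α : Type} [Finite α] {c : α → N} (hc : ∀ i, c i ∈ K.D)
    {R : (α ⊕ Unit → N) → Prop} (hR : Dfn L R) (h : ¬ O.Pi (fun z => R (ap c z))) :
    ∃ z ∈ K.P, R (ap c z) ∧ K.Ind c z := by
  by_contra hcon
  exact h (O.Pi_of_cl hc hR fun z hz hRz hI => hcon ⟨z, hz, hRz, hI⟩)

end Pool.Agent.MNM.Ord
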