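import Pool.Agent.MNM.OB
import Pool.Agent.MNM.OC

/-! MNM: tools for the order: elements outside the closure. -/

open FirstOrder FirstOrder.Language
open scoped Pointwise
open Pool.Agent.VCM

namespace Pool.Agent.MNM.Ord

variable {L : FirstOrder.Language.{0, 0}} {N : Type} [L.Structure N] {K : Ctx L N} (O : Ord K)

/-- A set with an element outside the closure does not satisfy `Pi`.
Proof: if `g ≤ z` with `z` maximal in the set, then `z ∈ P` (`P_up`) and `Ind c z`: otherwise
`z ∈ cl(c)` and `g = z` or `g ∈ cl(z)` (`lt_cl`) give `g ∈ cl(c)` (`cl_trans` with the one-element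
tuple `one z`).  By `up` there is `z' > z` with the same type as `z` over `c`, so `R (ap c z')`:
contradiction with the maximality. -/
theorem Q1 {α : Type} [Finite α] {c : α → N} (hc : ∀ i, c i ∈ K.D)
    {R : (α ⊕ Unit → N) → Prop} (hR : Dfn L R) {g : N} (hg : g ∈ K.P) (hRg : R (ap c g))
    (h : K.Ind c g) : ¬ O.Pi (fun z => R (ap c z)) := by
  intro hPi
  obtain ⟨z, hzD, hzg, hRz, hmax⟩ := hPi g hg.1 hRg
  have hzP : z ∈ K.P := by
    rcases hzg with rfl | hlt
    · exact hg
    · exact O.P_up hg hlt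
  have hzI : K.Ind c z := by
    rcases hzg with rfl | hlt
    · exact h
    · by_contra hcon
      exact K.cl_trans (c := one z) (d := c) (fun _ => hzD) hg (O.lt_cl hg hlt)
        (fun _ _ => hcon) h
  obtain ⟨z', hlt, htp, -⟩ := O.up hzP hzI
  refine hmax z' (O.ltD hlt).2 ?_ hlt
  have key : Dfn L (fun u : (K.D0 ⊕ α) ⊕ Unit → N =>
      R (ap (fun i => u (Sum.inl (Sum.inr i))) (u (Sum.inr ())))) :=
    Dfn.comp hR (Sum.map Sum.inr id)
      (fun u => ap (fun i => u (Sum.inl (Sum.inr i))) (u (Sum.inr ()))) (by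
        rintro v (k | k) <;> rfl)
  exact (key.tp htp).2 hRz

end Pool.Agent.MNM.Ord
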