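import Pool.Agent.MNM.OTools

/-! MNM: elements of `P` isolated over a tuple are in the closure of the tuple. -/

open FirstOrder FirstOrder.Language
open scoped Pointwise
open Pool.Agent.VCM

namespace Pool.Agent.MNM.Ord

variable {L : FirstOrder.Language.{0, 0}} {N : Type} [L.Structure N] {K : Ctx L N} (O : Ord K)

/-- no infinite descending sequences below elements with finite lower sets -/
theorem no_desc {S : N → Prop} (h : ∀ x, S x → ∃ y, S y ∧ O.lt y x) :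
    ∀ (n : ℕ) (u : N), S u → {x | O.lt x u}.Finite → {x | O.lt x u}.ncard = n → False := by
  intro n
  induction n using Nat.strong_induction_on with
  | _ n ih =>
    intro u hu hfin hn
    obtain ⟨y, hy, hlt⟩ := h u hu
    have hsub : {x | O.lt x y} ⊂ {x | O.lt x u} := by
      refine ⟨fun x hx => O.tr hx hlt, fun hcon => O.irr y (hcon hlt)⟩
    have h2 := Set.ncard_lt_ncard hsub hfin
    rw [hn] at h2
    exact ih _ h2 y hy (hfin.subset hsub.1) rfl

include O in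
/-- Proof.  Let `R (c, b)` isolate the type of `b` over `c`, `R → · ∈ D`, and suppose `Ind c b`,
i.e. `FS c (one b)`.  Put `X v := {y ∈ D | R (v, y)}`.
(1) If `m : α → N` is in `D0` and `b ∈ X m`, then by `O.acc` there is `u ∈ D0 ∩ X m` with `u < b`.
(2) Hence `κ (m) := ∃ u u' ∈ X m, u < u'` holds for all `m ∈ D0` with `R (m, b)`; if `¬ κ (c)`, then
`R (c, b) ∧ ¬ κ (c)` and `FS` would give `m ∈ D0` with `R (m, b)`, `¬ κ (m)`.  So `κ (c)`.
(3) All elements of `X c` have the same type over `c`; one of them has a smaller element in `X c`,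
so (automorphisms fixing `c`, `K.hom`) all have: `χ (c) := ∀ u' ∈ X c, ∃ u ∈ X c, u < u'`.
(4) `R (c, b) ∧ χ (c)` and `FS`: there is `m ∈ D0` with `R (m, b)`, `χ (m)`.  By (1) there is
`u₀ ∈ D0 ∩ X m`.  By `χ (m)` there is an infinite descending sequence `u₀ > u₁ > …` in `X m`,
contradicting the finiteness of `{x | x < u₀}` (`O.low`; use a minimal element of the finite set
`{x ∈ X m | x < u₀ or x = u₀}`). -/
theorem P1 {α : Type} [Finite α] {c : α → N} {b : N} (hb : b ∈ K.P)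
    (h : Iso L c (one b)) : ¬ K.Ind c b := by
  intro hI
  have := K.ne
  obtain ⟨R, hR, hRb, hiso⟩ := h
  have hRb' : R (ap c b) := hRb
  have hiso' : ∀ z : N, R (ap c z) → TpEq L (ap c z) (ap c b) := fun z hz => hiso (one z) hz
  -- the relation with one more coordinate
  have hlt : Dfn L (fun u : (α ⊕ Unit) ⊕ Unit → N =>
      O.lt (u (Sum.inr ())) (u (Sum.inl (Sum.inr ())))) := O.dfn_lt _ _
  have hR2 : Dfn L (fun u : (α ⊕ Unit) ⊕ Unit → N =>
      R (ap (fun i => u (Sum.inl (Sum.inl i))) (u (Sum.inr ())))) :=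
    Dfn.comp hR (Sum.map Sum.inl id)
      (fun u => ap (fun i => u (Sum.inl (Sum.inl i))) (u (Sum.inr ()))) (by
        rintro v (k | k) <;> rfl)
  have hρ : Dfn L (fun v : α ⊕ Unit → N =>
      ∃ x, R (ap (fun i => v (Sum.inl i)) x) ∧ O.lt x (v (Sum.inr ()))) :=
    dfn_ex (R := fun u : (α ⊕ Unit) ⊕ Unit → N =>
      R (ap (fun i => u (Sum.inl (Sum.inl i))) (u (Sum.inr ()))) ∧
      O.lt (u (Sum.inr ())) (u (Sum.inl (Sum.inr ())))) (hR2.and hlt)
  have hκ : Dfn L (fun v : α → N => ∃ y, R (ap v y) ∧ ∃ x, R (ap v x) ∧ O.lt x y) :=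
    (dfn_ex (hR.and hρ)).of_iff fun v => Iff.rfl
  have hχ : Dfn L (fun v : α → N => ∀ y, R (ap v y) → ∃ x, R (ap v x) ∧ O.lt x y) :=
    (dfn_all (hR.imp hρ)).of_iff fun v => Iff.rfl
  have hl : ∀ {Q : (α → N) → Prop}, Dfn L Q → Dfn L (fun u : α ⊕ Unit → N =>
      Q (fun i => u (Sum.inl i))) := fun hQ => Dfn.comp hQ Sum.inl _ (fun _ _ => rfl)
  -- (1)
  have h1 : ∀ m : α → N, (∀ i, m i ∈ K.D0) → R (ap m b) → ∃ u ∈ K.D0, R (ap m u) ∧ O.lt u b :=
    fun m hm hmb => O.acc b hb m hm R hR hmb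
  -- (2)
  have h2 : ∃ y, R (ap c y) ∧ ∃ x, R (ap c x) ∧ O.lt x y := by
    by_contra hcon
    obtain ⟨m, hm, hm1, hm2⟩ := hI _ (hR.and (hl hκ).not) ⟨hRb, hcon⟩
    obtain ⟨u, -, hu1, hu2⟩ := h1 m hm hm1
    exact hm2 ⟨b, hm1, u, hu1, hu2⟩
  -- (3)
  have h3 : ∀ y, R (ap c y) → ∃ x, R (ap c x) ∧ O.lt x y := by
    obtain ⟨y0, hy0, hx0⟩ := h2
    intro y hy
    have ht : TpEq L (ap c y) (ap c y0) := (hiso' y hy).trans (hiso' y0 hy0).symm
    exact (hρ.tp ht).2 hx0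
  -- (4)
  obtain ⟨m, hm, hm1, hm2⟩ := hI _ (hR.and (hl hχ)) ⟨hRb, h3⟩
  obtain ⟨u, hu0, hu1, -⟩ := h1 m hm hm1
  exact O.no_desc (S := fun x => R (ap m x)) hm2 _ u hu1 (O.low u hu0) rfl

end Pool.Agent.MNM.Ord
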