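import Pool.Agent.MNM.Core

/-! MNM: the working context from a formula with infinitely many solutions, all algebraic. -/

open FirstOrder FirstOrder.Language
open scoped Pointwise
open Pool.Agent.VCM

namespace Pool.Agent.MNM

variable {L : FirstOrder.Language.{0, 0}}

theorem countable_formula (hL : L.card ≤ Cardinal.aleph0) : Countable (L.Formula Unit) := by
  rw [← Cardinal.mk_le_aleph0_iff]
  have h1 : Cardinal.mk (L.Formula Unit) ≤ Cardinal.mk (Σ n, L.BoundedFormula Unit n) :=
    Cardinal.mk_le_of_injective (f := fun φ : L.Formula Unit =>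
      (⟨0, φ⟩ : Σ n, L.BoundedFormula Unit n)) (by
        intro a b hab
        simpa using hab)
  refine h1.trans ((BoundedFormula.card_le).trans ?_)
  rw [Cardinal.lift_id, Cardinal.lift_id]
  refine max_le le_rfl ?_
  refine Cardinal.add_le_aleph0.2 ⟨?_, hL⟩
  rw [Cardinal.mk_le_aleph0_iff]
  infer_instance

/-- a formula with finitely many solutions has no new solutions in an elementary extension -/
theorem fin_image {M N : Type} [L.Structure M] [L.Structure N] [Nonempty M] (f : M ↪ₑ[L] N)
    (φ : L.Formula Unit) (h : {y : M | φ.Realize (fun _ => y)}.Finite) :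
    {x : N | φ.Realize (fun _ => x)} = f '' {y : M | φ.Realize (fun _ => y)} := by
  classical
  have hmap : ∀ y : M, φ.Realize (fun _ => f y) ↔ φ.Realize (fun _ => y) := fun y =>
    f.map_formula φ (fun _ => y)
  apply Set.Subset.antisymm
  · intro x hx
    by_contra hcon
    let F : Finset M := h.toFinset
    obtain ⟨ψ, hψ⟩ := exists_conj (L := L) (α := F ⊕ Unit)
      (Finset.univ.image (fun a : F =>
        ((Term.var (Sum.inr ()) : L.Term (F ⊕ Unit)).equal (Term.var (Sum.inl a))).not))
    obtain ⟨x', hx'⟩ := descend f (fun a : F => (a : M)) (φ.relabel Sum.inr ⊓ ψ)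
      (fun _ : Unit => x) (by
        rw [Formula.realize_inf]
        refine ⟨?_, ?_⟩
        · rw [Formula.realize_relabel]
          exact hx
        · rw [hψ]
          intro χ hχ
          obtain ⟨a, -, rfl⟩ := Finset.mem_image.1 hχ
          rw [Formula.realize_not, Formula.realize_equal]
          intro hc
          have hc' : x = f a := hc
          refine hcon ⟨a, ?_, hc'.symm⟩
          exact (Set.Finite.mem_toFinset h).1 a.2)
    rw [Formula.realize_inf, Formula.realize_relabel, hψ] at hx'
    have h1 : x' () ∈ F := (Set.Finite.mem_toFinset h).2 hx'.1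
    have h2 := hx'.2 _ (Finset.mem_image_of_mem _ (Finset.mem_univ (⟨x' (), h1⟩ : F)))
    rw [Formula.realize_not, Formula.realize_equal] at h2
    exact h2 rfl
  · rintro _ ⟨y, hy, rfl⟩
    exact (hmap y).2 hy

/-- Proof.  `exists_monster L M` gives `N`, `f`, `Λ` with `Set.range f ⊆ Λ.S 0`; put
`D := {x | δ.Realize (one x)}`, `D0 := f '' {x | δ.Realize (one x)}`.
`dfnD`: `Dfn.formula`/`Dfn.real`.  `sub`, `lvl`: clear (`f.map_formula`).  `cnt`: every `x ∈ δ(M)` is in
`φ(M)` for some `φ : L.Formula Unit` with `φ(M)` finite, and there are countably many formulas (`hL`).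
`inf`: `f` is injective.  `alg`: for `m = f x` take `φ` as above and `A := {z | (φ ⊓ δ).Realize (one z)}`
(in `N`): the set `{z : M | (φ ⊓ δ).Realize (one z)}` is finite, say equal to `F`, and `A = f '' F` by
`tv` (see the next sentence; apply it to the relation `(φ ⊓ δ) (x) ∧ x ∉ F`), so `A` is finite and contained in `D0`.
`tv`: `R` is given by a formula `χ : L.Formula (α ⊕ κ)`; `m = f ∘ m₀`; apply `descend f m₀` to
`χ ⊓ (δ (x k) for all k)` (a finite conjunction, `κ` is finite).
`uniq`: let `x, y ∈ D \ D0`, and `φ : L.Formula Unit` true at `x`, false at `y`.  By `hdeg` one of the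
sets `δ ∧ φ`, `δ ∧ ¬ φ` is finite in `M`; as in `alg` the same set in `N` is contained in `D0`, a contradiction
to `x ∉ D0` resp. `y ∉ D0`.  `small`: `hsm`. -/
theorem setup (hL : L.card ≤ Cardinal.aleph0) (M : Type) [L.Structure M] [Nonempty M]
    (δ : L.Formula Unit) (hinf : {x : M | δ.Realize (fun _ => x)}.Infinite)
    (halg : ∀ x : M, δ.Realize (fun _ => x) →
      ∃ φ : L.Formula Unit, φ.Realize (fun _ => x) ∧ {y : M | φ.Realize (fun _ => y)}.Finite)
    (hdeg : ∀ φ : L.Formula Unit, {x : M | δ.Realize (fun _ => x) ∧ φ.Realize (fun _ => x)}.Finite ∨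
      {x : M | δ.Realize (fun _ => x) ∧ ¬ φ.Realize (fun _ => x)}.Finite)
    (hsm : ∀ (N : Type) [L.Structure N] (_ : M ↪ₑ[L] N), Small L N) :
    ∃ (N : Type) (_ : L.Structure N) (f : M ↪ₑ[L] N) (K : Ctx L N),
      K.D0 = f '' {x : M | δ.Realize (fun _ => x)} ∧ K.D = {x : N | δ.Realize (fun _ => x)} := by
  classical
  obtain ⟨N, iN, f, Λ, hΛ⟩ := exists_monster L M
  have hcF : Countable (L.Formula Unit) := countable_formula hL
  have hmap : ∀ (φ : L.Formula Unit) (y : M), φ.Realize (fun _ => f y) ↔ φ.Realize (fun _ => y) :=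
    fun φ y => f.map_formula φ (fun _ => y)
  have hcnt : {x : M | δ.Realize (fun _ => x)}.Countable := by
    have h1 : {x : M | δ.Realize (fun _ => x)} ⊆
        ⋃ φ : L.Formula Unit, {y : M | {y : M | φ.Realize (fun _ => y)}.Finite ∧
          φ.Realize (fun _ => y)} := by
      intro x hx
      obtain ⟨φ, h1, h2⟩ := halg x hx
      exact Set.mem_iUnion.2 ⟨φ, h2, h1⟩
    refine (Set.countable_iUnion fun φ => ?_).mono h1
    by_cases hφ : {y : M | φ.Realize (fun _ => y)}.Finite
    · exact (hφ.subset fun y hy => hy.2).countable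
    · refine Set.Countable.mono ?_ Set.countable_empty
      intro y hy
      exact (hφ hy.1).elim
  refine ⟨N, iN, f, ⟨Λ, {x : N | δ.Realize (fun _ => x)}, f '' {x : M | δ.Realize (fun _ => x)},
    ?_, ?_, ?_, ?_, ?_, ?_, ?_, ?_, ?_⟩, rfl, rfl⟩
  · exact (Dfn.formula δ).of_iff fun v => Iff.rfl
  · rintro _ ⟨x, hx, rfl⟩
    exact (hmap δ x).2 hx
  · exact hcnt.image _
  · exact hinf.image (f.injective.injOn)
  · rintro _ ⟨x, hx, rfl⟩
    obtain ⟨φ, h1, h2⟩ := halg x hx
    have hfin : {y : M | (φ ⊓ δ).Realize (fun _ => y)}.Finite := by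
      refine h2.subset fun y hy => ?_
      have hy' : (φ ⊓ δ).Realize (fun _ => y) := hy
      rw [Formula.realize_inf] at hy'
      exact hy'.1
    have himg := fin_image f (φ ⊓ δ) hfin
    refine ⟨{z : N | (φ ⊓ δ).Realize (fun _ => z)}, ?_, ?_, ?_, ?_⟩
    · rw [himg]; exact hfin.image _
    · rw [himg]
      rintro _ ⟨y, hy, rfl⟩
      have hy' : (φ ⊓ δ).Realize (fun _ => y) := hy
      rw [Formula.realize_inf] at hy'
      exact ⟨y, hy'.2, rfl⟩
    · show (φ ⊓ δ).Realize (fun _ => f x)
      rw [hmap, Formula.realize_inf]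
      exact ⟨h1, hx⟩
    · exact (Dfn.formula (φ ⊓ δ)).of_iff fun v => Iff.rfl
  · intro α κ _ R hR m hm x hx hRx
    obtain ⟨χ, hχ⟩ := hR
    choose m₀ hm₀ hm₁ using hm
    cases nonempty_fintype κ
    obtain ⟨ψ, hψ⟩ := exists_conj (L := L) (α := α ⊕ κ)
      (Finset.univ.image (fun k : κ => δ.relabel (fun _ => (Sum.inr k : α ⊕ κ))))
    obtain ⟨x', hx'⟩ := descend f m₀ (χ ⊓ ψ) x (by
      rw [Formula.realize_inf]
      refine ⟨?_, ?_⟩
      · rw [hχ]
        have e : (fun a => f (m₀ a)) = m := funext hm₁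
        rw [e]
        exact hRx
      · rw [hψ]
        intro θ hθ
        obtain ⟨k, -, rfl⟩ := Finset.mem_image.1 hθ
        rw [Formula.realize_relabel]
        exact hx k)
    rw [Formula.realize_inf, hψ] at hx'
    refine ⟨fun k => f (x' k), fun k => ⟨x' k, ?_, rfl⟩, ?_⟩
    · have h2 := hx'.2 _ (Finset.mem_image_of_mem _ (Finset.mem_univ k))
      rw [Formula.realize_relabel] at h2
      exact h2
    · have h3 := (f.map_formula χ (Sum.elim m₀ x')).2 hx'.1
      rw [hχ] at h3
      convert h3 using 1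
      funext k
      rcases k with k | k
      · exact (hm₁ k).symm
      · rfl
  · rintro y ⟨x, hx, rfl⟩
    exact hΛ ⟨x, rfl⟩
  · have key : ∀ φ : L.Formula Unit,
        {x : M | δ.Realize (fun _ => x) ∧ φ.Realize (fun _ => x)}.Finite →
        ∀ x : N, δ.Realize (fun _ => x) → x ∉ f '' {x : M | δ.Realize (fun _ => x)} →
        ¬ φ.Realize (fun _ => x) := by
      intro φ hfin x hx hx0 hφ
      have hfin' : {y : M | (δ ⊓ φ).Realize (fun _ => y)}.Finite := by
        refine hfin.subset fun y hy => ?_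
        have hy' : (δ ⊓ φ).Realize (fun _ => y) := hy
        rwa [Formula.realize_inf] at hy'
      have himg := fin_image f (δ ⊓ φ) hfin'
      have hx' : x ∈ {x : N | (δ ⊓ φ).Realize (fun _ => x)} := by
        show (δ ⊓ φ).Realize (fun _ => x)
        rw [Formula.realize_inf]
        exact ⟨hx, hφ⟩
      rw [himg] at hx'
      obtain ⟨y, hy, rfl⟩ := hx'
      have hy' : (δ ⊓ φ).Realize (fun _ => y) := hy
      rw [Formula.realize_inf] at hy'
      exact hx0 ⟨y, hy'.1, rfl⟩
    intro x hx hx0 y hy hy0 φ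
    show φ.Realize (fun _ => x) ↔ φ.Realize (fun _ => y)
    rcases hdeg φ with h | h
    · exact iff_of_false (key φ h x hx hx0) (key φ h y hy hy0)
    · have h' : {x : M | δ.Realize (fun _ => x) ∧ φ.not.Realize (fun _ => x)}.Finite := by
        refine h.subset fun z hz => ?_
        exact ⟨hz.1, by have := hz.2; rwa [Formula.realize_not] at this⟩
      have h1 := key φ.not h' x hx hx0
      have h2 := key φ.not h' y hy hy0
      rw [Formula.realize_not, not_not] at h1 h2
      exact iff_of_true h1 h2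
  · exact hsm N f

end Pool.Agent.MNM
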