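import Mathlib

/-! MNM: the abstract exchange lemma (Steinitz). -/

namespace Pool.Agent.MNM

private theorem Stz_split {α : Type} (Cl : Set α → α → Prop) (C : Set α) (x : α) (hC : ¬ Cl C x)
    (D : Set α) (hfin : D.Finite) : Cl (C ∪ D) x →
      ∃ e ∈ D, ∃ D' ⊆ D \ {e}, ¬ Cl (C ∪ D') x ∧ Cl (insert e (C ∪ D')) x := by
  refine Set.Finite.induction_on D hfin ?_ ?_
  · intro h
    exact absurd (by simpa using h) hC
  · intro a s ha _ ih h
    by_cases h1 : Cl (C ∪ s) x
    · obtain ⟨e, he, D', hD', h2, h3⟩ := ih h1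
      refine ⟨e, Set.mem_insert_of_mem _ he, D', ?_, h2, h3⟩
      intro y hy
      exact ⟨Set.mem_insert_of_mem _ (hD' hy).1, (hD' hy).2⟩
    · refine ⟨a, Set.mem_insert _ _, s, ?_, h1, ?_⟩
      · intro y hy
        refine ⟨Set.mem_insert_of_mem _ hy, ?_⟩
        rintro rfl
        exact ha hy
      · rwa [Set.union_insert] at h

/-- Proof: by induction on `i ≤ k` there is a finite set `D ⊆ Set.range d` with `D.ncard + i ≤ l` (in
particular `i ≤ l`) such that all elements of `Set.range d` are in `Cl ({c j | j < i} ∪ D)`.  Step: put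
`C := {c j | j < i}`; `c i ∈ Cl (C ∪ D)` by `htr`, and `¬ Cl C (c i)`.  Enumerating `D` there are
`D' ⊆ D` and `e ∈ D \ D'` with `¬ Cl (C ∪ D') (c i)` and `Cl (insert e (C ∪ D')) (c i)` (take `D' ⊆ D`
maximal with `¬ Cl (C ∪ D') (c i)`; `D' ≠ D`).  By `hex`: `Cl (insert (c i) (C ∪ D')) e`.  Take `D \ {e}`
for `i + 1`. -/
theorem steinitz {α : Type} (Cl : Set α → α → Prop) (hmem : ∀ A a, a ∈ A → Cl A a)
    (htr : ∀ A B x, (∀ a ∈ A, Cl B a) → Cl A x → Cl B x)
    (hex : ∀ A b x, Cl (insert b A) x → ¬ Cl A x → Cl (insert x A) b)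
    (k l : ℕ) (c : Fin k → α) (d : Fin l → α)
    (hc : ∀ i : Fin k, ¬ Cl {x | ∃ j < i, x = c j} (c i)) (hd : ∀ i, Cl (Set.range d) (c i)) :
    k ≤ l := by
  have hmono : ∀ A B : Set α, ∀ x, A ⊆ B → Cl A x → Cl B x := fun A B x h =>
    htr A B x (fun a ha => hmem B a (h ha))
  have key : ∀ i : ℕ, i ≤ k → ∃ D : Set α, D ⊆ Set.range d ∧ D.ncard + i ≤ l ∧
      ∀ m, Cl ({x | ∃ j : Fin k, j.val < i ∧ x = c j} ∪ D) (d m) := by
    intro i
    induction i with
    | zero =>
      intro _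
      refine ⟨Set.range d, subset_rfl, ?_, fun m => hmem _ _ (Or.inr ⟨m, rfl⟩)⟩
      have h1 : (Set.range d).ncard ≤ Nat.card (Fin l) := by
        rw [← Set.image_univ]
        exact (Set.ncard_image_le Set.finite_univ).trans (by simp)
      simpa using h1
    | succ i ih =>
      intro hik
      obtain ⟨D, hDr, hcard, hD⟩ := ih (by omega)
      have hfin : D.Finite := (Set.finite_range d).subset hDr
      set C : Set α := {x | ∃ j : Fin k, j.val < i ∧ x = c j} with hCdef
      have hnot : ¬ Cl C (c ⟨i, hik⟩) := by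
        have := hc ⟨i, hik⟩
        intro hcl
        apply this
        apply hmono _ _ _ _ hcl
        rintro x ⟨j, hj, rfl⟩
        exact ⟨j, hj, rfl⟩
      have hyes : Cl (C ∪ D) (c ⟨i, hik⟩) := by
        apply htr (Set.range d) _ _ _ (hd ⟨i, hik⟩)
        rintro _ ⟨m, rfl⟩
        exact hD m
      obtain ⟨e, he, D', hD', h2, h3⟩ := Stz_split Cl C _ hnot D hfin hyes
      have h4 := hex _ _ _ h3 h2
      have hcard' : (D \ {e}).ncard + 1 = D.ncard := Set.ncard_diff_singleton_add_one he hfin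
      refine ⟨D \ {e}, Set.diff_subset.trans hDr, by omega, ?_⟩
      intro m
      apply htr (C ∪ D) _ _ _ (hD m)
      have hsub : insert (c ⟨i, hik⟩) (C ∪ D') ⊆
          {x | ∃ j : Fin k, j.val < i + 1 ∧ x = c j} ∪ (D \ {e}) := by
        rintro x (rfl | hx | hx)
        · exact Or.inl ⟨⟨i, hik⟩, by simp, rfl⟩
        · obtain ⟨j, hj, rfl⟩ := hx
          exact Or.inl ⟨j, by omega, rfl⟩
        · exact Or.inr (hD' hx)
      rintro a (ha | ha)
      · obtain ⟨j, hj, rfl⟩ := ha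
        exact hmem _ _ (Or.inl ⟨j, by omega, rfl⟩)
      · by_cases hae : a = e
        · subst hae
          exact hmono _ _ _ hsub h4
        · exact hmem _ _ (Or.inr ⟨ha, hae⟩)
  obtain ⟨D, _, hcard, _⟩ := key k le_rfl
  omega

end Pool.Agent.MNM
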